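import Pool.Agent.Work.MP_054302_co.X.Final

/-! Parked variants: the former hand-ins Exponents and Windows of this row,
superseded by AllRatios and Gaps. -/

namespace Pool.Agent.Work.MP_054302_co.X

theorem parkedExponents :
    ∀ m A B p k l : ℕ, 1 ≤ m → 1 ≤ p → (2 * m + 1) * B ≤ 2 * A → A < (m + 1) * B →
      p * B + B + 2 * m ≤ k → l ≤ p * A →
      ∃ C : ℝ, ∀ n : ℕ, k ≤ n → ∃ x : ℕ, Nd4bc9c34.minExtremalNumber n k l ≤ (x : ℕ∞) ∧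
        (x : ℝ) ≤ C * (n : ℝ) ^ (2 - (B : ℝ) / (A : ℝ)) :=
  exponents

theorem parkedWindows :
    ∀ m k l l' : ℕ, 1 ≤ m → 1 ≤ k → (2 * m + 1) * k ≤ 2 * l → l' ≤ (m + 1) * k →
      (l : ℝ) + 10 * ((m : ℝ) + 1) * Real.sqrt (k : ℝ) ≤ (l' : ℝ) →
      ∀ᶠ n : ℕ in Filter.atTop,
        Nd4bc9c34.minExtremalNumber n k l < Nd4bc9c34.minExtremalNumber n k l' :=
  windows

end Pool.Agent.Work.MP_054302_co.X
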