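import Pool.Agent.Work.MP_054302_co.X.Upper
import Pool.Agent.Work.MP_054302_co.X.Dens2
import Pool.Agent.Work.MP_054302_co.X.Lower
import Pool.Agent.Work.MP_054302_co.X.Pad

namespace Pool.Agent.Work.MP_054302_co.X

open Finset Function Filter SimpleGraph Nd4bc9c34
open scoped Classical

theorem exponents (m A B p k l : ℕ) (hm : 1 ≤ m) (hp : 1 ≤ p) (h1 : (2 * m + 1) * B ≤ 2 * A)
    (h2 : A < (m + 1) * B) (hk : p * B + B + 2 * m ≤ k) (hl : l ≤ p * A) :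
    ∃ C : ℝ, ∀ n : ℕ, k ≤ n → ∃ x : ℕ, minExtremalNumber n k l ≤ x ∧
      (x : ℝ) ≤ C * (n : ℝ) ^ (2 - (B : ℝ) / A) := by
  obtain ⟨j, rfl⟩ : ∃ j, m = j + 1 := ⟨m - 1, by omega⟩
  obtain ⟨A1, rfl⟩ : ∃ A1, A = A1 + j * B := ⟨A - j * B, by
    have : j * B ≤ A := by nlinarith
    omega⟩
  have g1 : 3 * B ≤ 2 * A1 := by nlinarith
  have g2 : A1 < 2 * B := by nlinarith
  have h := ok_iter A1 B p (A1 + 1 - B) (by omega) (by omega) (ok_base A1 B p g1 g2 hp) j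
  exact min_le_of_ok h (by omega) hl

theorem windows (m k l l' : ℕ) (hm : 1 ≤ m) (hk : 1 ≤ k) (h1 : (2 * m + 1) * k ≤ 2 * l)
    (h2 : l' ≤ (m + 1) * k) (h3 : (l : ℝ) + 10 * (m + 1) * Real.sqrt k ≤ l') :
    ∀ᶠ n : ℕ in atTop, minExtremalNumber n k l < minExtremalNumber n k l' := by
  obtain ⟨A, B, p, hp, g1, g2, g3, g4, g5, g6, g7⟩ := choose_params m k l l' hm hk h1 h2 h3
  obtain ⟨C, hC⟩ := exponents m A B p k l hm hp g1 g2 g3 g4
  filter_upwards [lower k l' g5 g6 _ C g7, eventually_ge_atTop k] with n hn hkn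
  obtain ⟨x, hx1, hx2⟩ := hC n hkn
  have : ((x + 1 : ℕ) : ℕ∞) ≤ minExtremalNumber n k l' := by
    refine le_iInf₂ fun F hF => ?_
    have : (x : ℝ) < extremalNumber n F := hx2.trans_lt (hn F hF)
    have : x < extremalNumber n F := by exact_mod_cast this
    exact_mod_cast this
  refine hx1.trans_lt (lt_of_lt_of_le ?_ this)
  exact_mod_cast Nat.lt_succ_self x

end Pool.Agent.Work.MP_054302_co.X
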