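import Pool.Agent.Work.MP_054302_co.X.Tree

namespace Pool.Agent.Work.MP_054302_co.X

open Finset Function
open scoped Classical

variable {V : Type} [Fintype V] [DecidableEq V] {N : ℕ} {r : ℕ → ℕ}

/-- One leaf more multiplies the number of homomorphisms by at least `lam`. -/
lemma HomLb_step {G : SimpleGraph V} {H : Finset (V × V)} {Xs Ys : Finset V} {lam : ℝ}
    (hH : Host G H Xs Ys lam) (v0 : V) (U : Finset Lb) (v p : Lb) (hv : v ∈ U) (hp : p ∈ U)
    (hpv : p ≠ v) (hadj : adj N r v p) (honly : ∀ w ∈ U, adj N r v w → w = p) :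
    ((Hom N r H Xs Ys (U.erase v) v0).card : ℝ) * lam ≤ ((Hom N r H Xs Ys U v0).card : ℝ) := by
  obtain ⟨nb, hnb⟩ : ∃ nb : (Lb → V) → Finset V,
      ∀ f, nb f = if isX v = true then nbX H (f p) else nbY H (f p) := ⟨_, fun _ => rfl⟩
  have hp' : p ∈ U.erase v := mem_erase.2 ⟨hpv, hp⟩
  have h1 : ∀ f ∈ Hom N r H Xs Ys (U.erase v) v0, lam ≤ ((nb f).card : ℝ) := by
    intro f hf
    rw [mem_Hom] at hf
    rcases hadj with he | he
    · have hs := ed_side he
      rw [hnb, if_pos hs.1]
      exact hH.dY _ ((hf.2.1 p hp').2 hs.2)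
    · have hs := ed_side he
      rw [hnb, if_neg (by rw [hs.2]; decide)]
      exact hH.dX _ ((hf.2.1 p hp').1 hs.1)
  have h2 : ((Hom N r H Xs Ys (U.erase v) v0).sigma nb).card ≤ (Hom N r H Xs Ys U v0).card := by
    apply card_le_card_of_injOn (fun q => update q.1 v q.2)
    · rintro ⟨f, x⟩ hq
      rw [mem_coe, mem_sigma] at hq
      obtain ⟨hf, hx⟩ := hq
      simp only at hf hx
      rw [mem_Hom] at hf
      obtain ⟨hf0, hfs, hfe⟩ := hf
      have hxX : isX v = true → (x, f p) ∈ H := by
        intro hX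
        rw [hnb, if_pos hX] at hx
        exact mem_nbX.1 hx
      have hxY : isX v = false → (f p, x) ∈ H := by
        intro hX
        rw [hnb, if_neg (by rw [hX]; decide)] at hx
        exact mem_nbY.1 hx
      rw [mem_coe, mem_Hom]
      refine ⟨?_, ?_, ?_⟩
      · intro w hw
        have hwv : w ≠ v := fun e => hw (e ▸ hv)
        show update f v x w = v0
        rw [update_of_ne hwv]
        exact hf0 w (fun hw' => hw (mem_of_mem_erase hw'))
      · intro w hw
        by_cases hwv : w = v
        · subst hwv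
          show (isX w = true → update f w x w ∈ Xs) ∧ (isX w = false → update f w x w ∈ Ys)
          rw [update_self]
          exact ⟨fun hX => (hH.sub _ (hxX hX)).2.1, fun hX => (hH.sub _ (hxY hX)).2.2⟩
        · show (isX w = true → update f v x w ∈ Xs) ∧ (isX w = false → update f v x w ∈ Ys)
          rw [update_of_ne hwv]
          exact hfs w (mem_erase.2 ⟨hwv, hw⟩)
      · intro u hu w hw he
        have hs := ed_side he
        show (update f v x u, update f v x w) ∈ H
        by_cases huv : u = v
        · subst huv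
          have hwp : w = p := honly w hw (Or.inl he)
          subst hwp
          rw [update_self, update_of_ne hpv]
          exact hxX hs.1
        · by_cases hwv : w = v
          · subst hwv
            have hup : u = p := honly u hu (Or.inr he)
            subst hup
            rw [update_self, update_of_ne hpv]
            exact hxY hs.2
          · rw [update_of_ne huv, update_of_ne hwv]
            exact hfe u (mem_erase.2 ⟨huv, hu⟩) w (mem_erase.2 ⟨hwv, hw⟩) he
    · rintro ⟨f, x⟩ hq ⟨g, y⟩ hq' e
      rw [mem_coe, mem_sigma] at hq hq'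
      have hf := (mem_Hom.1 hq.1).1 v (notMem_erase v U)
      have hg := (mem_Hom.1 hq'.1).1 v (notMem_erase v U)
      simp only at hf hg e
      have hxy : x = y := by
        have := congrFun e v
        rwa [update_self, update_self] at this
      have hfg : f = g := by
        funext w
        by_cases hwv : w = v
        · rw [hwv, hf, hg]
        · have := congrFun e w
          rwa [update_of_ne hwv, update_of_ne hwv] at this
      subst hxy
      subst hfg
      rfl
  rw [card_sigma] at h2
  calc ((Hom N r H Xs Ys (U.erase v) v0).card : ℝ) * lam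
      = ∑ _f ∈ Hom N r H Xs Ys (U.erase v) v0, lam := by rw [sum_const, nsmul_eq_mul]
    _ ≤ ∑ f ∈ Hom N r H Xs Ys (U.erase v) v0, ((nb f).card : ℝ) := sum_le_sum h1
    _ ≤ _ := by exact_mod_cast h2

/-- The single root. -/
lemma HomLb_base {H : Finset (V × V)} {Xs Ys : Finset V} (v0 : V) (ρ : Lb)
    (hρX : isX ρ = true) : Xs.card ≤ (Hom N r H Xs Ys {ρ} v0).card := by
  apply card_le_card_of_injOn (fun x => update (fun _ => v0) ρ x)
  · intro x hx
    rw [mem_coe] at hx
    rw [mem_coe, mem_Hom]
    refine ⟨?_, ?_, ?_⟩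
    · intro w hw
      have hwv : w ≠ ρ := fun e => hw (mem_singleton.2 e)
      show update (fun _ => v0) ρ x w = v0
      rw [update_of_ne hwv]
    · intro w hw
      rw [mem_singleton] at hw
      subst hw
      show (isX w = true → update (fun _ => v0) w x w ∈ Xs) ∧
        (isX w = false → update (fun _ => v0) w x w ∈ Ys)
      rw [update_self]
      exact ⟨fun _ => hx, fun hX => by rw [hρX] at hX; cases hX⟩
    · intro u hu w hw he
      rw [mem_singleton] at hu hw
      have hs := ed_side he
      rw [hw, hρX] at hs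
      cases hs.2
  · intro x _ y _ e
    have := congrFun e ρ
    simp only [update_self] at this
    exact this

/-- General version for sets closed under a parent map, by induction on `U` removing a vertex `v`
of maximal rank: its only neighbour in `U` is `par v`, every homomorphism of `U.erase v` extends
by `update f v x` for `x` in `nbX` or `nbY` of `f (par v)`, and `(f, x)` is recovered. -/
lemma hom_lb_par {G : SimpleGraph V} {H : Finset (V × V)} {Xs Ys : Finset V} {lam : ℝ}
    (hH : Host G H Xs Ys lam) (hlam : 0 ≤ lam) (v0 : V) (ρ : Lb) (hρX : isX ρ = true)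
    (par : Lb → Lb) (rk : Lb → ℕ) (U : Finset Lb) (hρ : ρ ∈ U)
    (h : ∀ v ∈ U, v ≠ ρ → par v ∈ U ∧ adj N r v (par v) ∧ rk (par v) < rk v)
    (ht : ∀ u ∈ U, ∀ v ∈ U, adj N r u v → (u ≠ ρ ∧ v = par u) ∨ (v ≠ ρ ∧ u = par v)) :
    (Xs.card : ℝ) * lam ^ (U.card - 1) ≤ ((Hom N r H Xs Ys U v0).card : ℝ) := by
  obtain ⟨n, hn⟩ : ∃ n, (U.erase ρ).card = n := ⟨_, rfl⟩
  induction n generalizing U with
  | zero =>
    have hU : U = {ρ} := by
      rw [card_eq_zero] at hn
      apply eq_singleton_iff_unique_mem.2 ⟨hρ, ?_⟩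
      intro x hx
      by_contra hne
      have : x ∈ U.erase ρ := mem_erase.2 ⟨hne, hx⟩
      rw [hn] at this
      exact notMem_empty _ this
    subst hU
    rw [card_singleton, Nat.sub_self, pow_zero, mul_one]
    exact_mod_cast HomLb_base v0 ρ hρX
  | succ n ih =>
    have hne : (U.erase ρ).Nonempty := card_pos.1 (by omega)
    obtain ⟨v, hv, hmax⟩ := exists_max_image (U.erase ρ) rk hne
    obtain ⟨hvρ, hvU⟩ := mem_erase.1 hv
    obtain ⟨hpU, hpa, hpr⟩ := h v hvU hvρ
    have hpv : par v ≠ v := fun e => by rw [e] at hpr; exact lt_irrefl _ hpr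
    have hnp : ∀ w ∈ U, w ≠ ρ → par w ≠ v := by
      intro w hw hwρ e
      have h1 := (h w hw hwρ).2.2
      have h2 := hmax w (mem_erase.2 ⟨hwρ, hw⟩)
      rw [e] at h1
      omega
    have honly : ∀ w ∈ U, adj N r v w → w = par v := by
      intro w hw ha
      rcases ht v hvU w hw ha with h1 | h1
      · exact h1.2
      · exact absurd h1.2.symm (hnp w hw h1.1)
    have hstep := HomLb_step hH v0 U v (par v) hvU hpU hpv hpa honly
    have hih := ih (U.erase v) (mem_erase.2 ⟨hvρ.symm, hρ⟩)
      (fun w hw hwρ => by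
        have hwU := mem_of_mem_erase hw
        obtain ⟨a1, a2, a3⟩ := h w hwU hwρ
        exact ⟨mem_erase.2 ⟨hnp w hwU hwρ, a1⟩, a2, a3⟩)
      (fun u hu w hw ha => ht u (mem_of_mem_erase hu) w (mem_of_mem_erase hw) ha)
      (by
        rw [erase_right_comm, card_erase_of_mem hv]
        omega)
    have hc1 : (U.erase ρ).card = U.card - 1 := card_erase_of_mem hρ
    have hc2 : (U.erase v).card = U.card - 1 := card_erase_of_mem hvU
    have hc3 : U.card - 1 = ((U.erase v).card - 1) + 1 := by omega
    rw [hc3, pow_succ, ← mul_assoc]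
    exact le_trans (mul_le_mul_of_nonneg_right hih hlam) hstep

/-- Parent map towards the left end of the spine. -/
def HomLb_par : Lb → Lb
  | .c i => .m (i - 1)
  | .y i => .c i
  | .m i => .c i
  | .a i _ => .c i
  | .z i j => .a i j

/-- Rank for the parent map. -/
def HomLb_rk : Lb → ℕ
  | .c i => 2 * i
  | .y i => 2 * i + 1
  | .m i => 2 * i + 1
  | .a i _ => 2 * i + 1
  | .z i _ => 2 * i + 2

lemma HomLb_ed {b b' : ℕ} {u v : Lb} (hv : v ∈ Seg N r (2 * b) (2 * b')) (he : Ed N r u v) :
    (u ≠ Lb.c b ∧ v = HomLb_par u) ∨ (v ≠ Lb.c b ∧ u = HomLb_par v) := by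
  rw [mem_Seg] at hv
  obtain ⟨-, hlo, -⟩ := hv
  cases u <;> cases v <;> simp only [Ed] at he
  · right
    exact ⟨by simp, by rw [he.1]; rfl⟩
  · rename_i i j
    simp only [pos] at hlo
    rcases he.1 with e | e
    · right
      exact ⟨by simp, by rw [e]; rfl⟩
    · left
      refine ⟨fun e' => ?_, by rw [e]; rfl⟩
      injection e' with e'
      omega
  · right
    exact ⟨by simp, by rw [he.1]; rfl⟩
  · left
    exact ⟨by simp, by rw [he.1, he.2.1]; rfl⟩

/-- Root `c b`; parents: `c i` to `m (i-1)`, `m i`, `y i`, `a i j` to `c i`, `z i j` to `a i j`. -/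
lemma hom_lb {G : SimpleGraph V} {H : Finset (V × V)} {Xs Ys : Finset V} {lam : ℝ}
    (hH : Host G H Xs Ys lam) (hlam : 0 ≤ lam) (v0 : V) {b b' : ℕ} (hb : 1 ≤ b) (hbb : b ≤ b')
    (hb' : b' ≤ N) :
    (Xs.card : ℝ) * lam ^ ((Seg N r (2 * b) (2 * b')).card - 1) ≤
      ((Hom N r H Xs Ys (Seg N r (2 * b) (2 * b')) v0).card : ℝ) := by
  apply hom_lb_par hH hlam v0 (Lb.c b) rfl HomLb_par HomLb_rk
  · rw [mem_Seg]
    simp only [IsReal, pos]
    omega
  · intro v hv hvb
    rw [mem_Seg] at hv
    rw [mem_Seg]
    cases v with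
    | c i =>
      have hib : i ≠ b := fun e => hvb (by rw [e])
      simp only [IsReal, pos, HomLb_par, HomLb_rk, adj, Ed, or_false] at hv ⊢
      omega
    | y i =>
      simp only [IsReal, pos, HomLb_par, HomLb_rk, adj, Ed, false_or, true_and] at hv ⊢
      omega
    | m i =>
      simp only [IsReal, pos, HomLb_par, HomLb_rk, adj, Ed, false_or, true_or, true_and] at hv ⊢
      omega
    | a i j =>
      simp only [IsReal, pos, HomLb_par, HomLb_rk, adj, Ed, false_or, true_and] at hv ⊢
      omega
    | z i j =>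
      simp only [IsReal, pos, HomLb_par, HomLb_rk, adj, Ed, or_false, true_and] at hv ⊢
      omega
  · intro u hu v hv ha
    rcases ha with he | he
    · exact HomLb_ed hv he
    · exact (HomLb_ed hu he).symm

end Pool.Agent.Work.MP_054302_co.X
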