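import Pool.Agent.Work.MP_054302_co.X.Count
import Pool.Agent.Work.MP_054302_co.X.Clean

namespace Pool.Agent.Work.MP_054302_co.X

open Finset Function
open scoped Classical

variable {V : Type} [Fintype V] [DecidableEq V]

/-- Homogeneity lemma, section 3 of the paper. Prove by induction on the number of untriggered
items the version with a set `T ⊆ I` of triggered items, host of degree `κ T.card * Δ`, stored
sets `Sx` (empty at the start) and `Lt` for the members of `T`. If an item `i ∉ T` has no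
`Lists`, take the lists of `greedy` at every `y` (with `Nb = nbX H y`), `clean` the set of
uncovered edges with `lam = κ (T.card+1) * Δ` (use `host_card`), and update `Sx i` (previously
empty) to the union of the supports. -/
theorem homog {ι σ : Type} [DecidableEq ι] {G : SimpleGraph V} {Δ : ℕ} (hΔ : 0 < Δ)
    (hdeg : ∀ v, (nbr G v).card ≤ Δ) (I : Finset ι) (θ : ι → ℝ) (D : ι → ℕ) (v0 : ℕ)
    (supp : ι → σ → Finset V) (Adm : ι → (ι → V → Finset V) → V → σ → Prop)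
    (wt : ι → Finset (V × V) → σ → V → ℕ) (κ β : ℕ → ℝ)
    (hθ : ∀ i ∈ I, 0 < θ i ∧ 2 ≤ θ i * D i)
    (hsupp : ∀ i ∈ I, ∀ S y s, Adm i S y s → (supp i s).Nonempty ∧ (supp i s).card ≤ v0)
    (hAdm : ∀ i ∈ I, ∀ S S' : ι → V → Finset V, (∀ j y, S j y ⊆ S' j y) →
      ∀ y s, Adm i S' y s → Adm i S y s)
    (hwt : ∀ i ∈ I, ∀ H : Finset (V × V), (∀ p ∈ H, G.Adj p.1 p.2) → ∀ s x, wt i H s x ≤ Δ)
    (hmono : ∀ i ∈ I, ∀ H H' : Finset (V × V), H' ⊆ H → ∀ s x, wt i H' s x ≤ wt i H s x)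
    (hκ : ∀ t, 0 < κ t ∧ 0 < β t ∧ κ (t + 1) ≤ β t * κ t / 2)
    {H0 : Finset (V × V)} {X0 Y0 : Finset V} (h0 : Host G H0 X0 Y0 (κ 0 * Δ)) :
    ∃ t ≤ I.card, ∃ (H : Finset (V × V)) (Xs Ys : Finset V), Xs ⊆ X0 ∧ Ys ⊆ Y0 ∧
      Host G H Xs Ys (κ t * Δ) ∧ ∃ Sx : ι → V → Finset V, (∀ i y, (Sx i y).card ≤ v0 * D i) ∧
      ∀ i ∈ I, Lt H Δ (θ i) (Adm i Sx) (supp i) (Sx i) (wt i H) ∨
        ∃ Ls : V → Finset σ, Lists H Δ (θ i) (D i) (β t) (Adm i Sx) (supp i) (wt i H) Ls := by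
  suffices key : ∀ (n : ℕ) (T : Finset ι), T ⊆ I → I.card = T.card + n →
      ∀ (H : Finset (V × V)) (Xs Ys : Finset V) (Sx : ι → V → Finset V), Xs ⊆ X0 → Ys ⊆ Y0 →
      Host G H Xs Ys (κ T.card * Δ) → (∀ i y, (Sx i y).card ≤ v0 * D i) →
      (∀ i, i ∉ T → ∀ y, Sx i y = ∅) →
      (∀ i ∈ T, Lt H Δ (θ i) (Adm i Sx) (supp i) (Sx i) (wt i H)) →
      ∃ t ≤ I.card, ∃ (H : Finset (V × V)) (Xs Ys : Finset V), Xs ⊆ X0 ∧ Ys ⊆ Y0 ∧
        Host G H Xs Ys (κ t * Δ) ∧ ∃ Sx : ι → V → Finset V, (∀ i y, (Sx i y).card ≤ v0 * D i) ∧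
        ∀ i ∈ I, Lt H Δ (θ i) (Adm i Sx) (supp i) (Sx i) (wt i H) ∨
          ∃ Ls : V → Finset σ, Lists H Δ (θ i) (D i) (β t) (Adm i Sx) (supp i) (wt i H) Ls from
    key I.card ∅ (empty_subset _) (by simp) H0 X0 Y0 (fun _ _ => ∅) Subset.rfl Subset.rfl h0
      (by simp) (fun _ _ _ => rfl) (by simp)
  intro n
  induction n with
  | zero =>
    intro T hT hc H Xs Ys Sx a1 a2 a3 a4 _ a6
    obtain rfl : T = I := eq_of_subset_of_card_le hT hc.le
    exact ⟨_, le_rfl, H, Xs, Ys, a1, a2, a3, Sx, a4, fun i hi => Or.inl (a6 i hi)⟩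
  | succ n ih =>
    intro T hT hc H Xs Ys Sx a1 a2 a3 a4 a5 a6
    by_cases h : ∀ i ∈ I, i ∉ T → ∃ Ls : V → Finset σ,
        Lists H Δ (θ i) (D i) (β T.card) (Adm i Sx) (supp i) (wt i H) Ls
    · exact ⟨_, card_le_card hT, H, Xs, Ys, a1, a2, a3, Sx, a4, fun i hi =>
        (em (i ∈ T)).imp (a6 i) (h i hi)⟩
    push Not at h
    obtain ⟨i, hi, hiT, hL⟩ := h
    have hadj : ∀ p ∈ H, G.Adj p.1 p.2 := fun p hp => (a3.sub p hp).1
    choose Ls l1 l2 l3 l4 using fun y => greedy (nbX H y) Δ (D i) (θ i) (Adm i Sx y) (supp i)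
      (wt i H) hΔ (hθ i hi).1 (hθ i hi).2 (host_deg_le hdeg hadj y).1 (hwt i hi H hadj)
      fun s hs => (hsupp i hi Sx y s hs).1
    have hB : β T.card * H.card < ((H.filter fun p =>
        (∑ s ∈ Ls p.2, (wt i H s p.1 : ℝ)) < θ i / 2 * D i * Δ).card : ℝ) :=
      not_le.1 fun k => hL Ls ⟨l1, l2, l3, k⟩
    obtain ⟨k1, k2, k3⟩ := hκ T.card
    obtain ⟨c1, c2, -⟩ := host_card hdeg a3
    have D0 : (0 : ℝ) < Δ := by exact_mod_cast hΔ
    obtain ⟨H', X', Y', b1, b2, b3, b4⟩ := clean (G := G) (Xs := Xs) (Ys := Ys)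
      (H.filter fun p => (∑ s ∈ Ls p.2, (wt i H s p.1 : ℝ)) < θ i / 2 * D i * Δ)
      (lam := κ (T.card + 1) * Δ) (mul_pos (hκ _).1 D0)
      (fun p hp => a3.sub p (mem_filter.1 hp).1)
      (card_pos.1 (Nat.cast_pos.1 (lt_of_le_of_lt (by positivity) hB))) (by
        have e : κ (T.card + 1) * Δ * ((Xs.card : ℝ) + Ys.card) ≤
            β T.card * κ T.card / 2 * Δ * ((Xs.card : ℝ) + Ys.card) := by gcongr
        linarith [mul_le_mul_of_nonneg_left c1 k2.le, mul_le_mul_of_nonneg_left c2 k2.le])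
    have hs : H' ⊆ H := b1.trans (filter_subset _ _)
    have hS : ∀ j y, Sx j y ⊆ update Sx i (fun y => (Ls y).biUnion (supp i)) j y := fun j y => by
      rcases eq_or_ne j i with rfl | e
      · rw [a5 j hiT]
        exact empty_subset _
      · rw [update_of_ne e]
    refine ih (insert i T) (insert_subset hi hT) (by rw [card_insert_of_notMem hiT]; omega) H' X' Y'
      (update Sx i fun y => (Ls y).biUnion (supp i)) (b2.trans a1) (b3.trans a2)
      (by rwa [card_insert_of_notMem hiT]) (fun j y => ?_) (fun j hj y => ?_) fun j hj y s m1 m2 => ?_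
    · rcases eq_or_ne j i with rfl | e
      · rw [update_self, mul_comm]
        exact (card_biUnion_le_card_mul _ _ _ fun s hs =>
          (hsupp j hi Sx y s (l2 y s hs)).2).trans (Nat.mul_le_mul_right _ (l1 y))
      · rw [update_of_ne e]
        exact a4 j y
    · rw [mem_insert, not_or] at hj
      rw [update_of_ne hj.1, a5 j hj.2]
    · have hjI : j ∈ I := insert_subset hi hT hj
      have m3 := hAdm j hjI _ _ hS y s m1
      have m4 : ∀ A : Finset V, nbX H' y ⊆ A →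
          (∑ x ∈ nbX H' y, (wt j H' s x : ℝ)) ≤ ∑ x ∈ A, (wt j H s x : ℝ) := fun A hA =>
        (sum_le_sum fun x _ => Nat.cast_le.2 (hmono j hjI H H' hs s x)).trans
          (sum_le_sum_of_subset_of_nonneg hA fun _ _ _ => Nat.cast_nonneg _)
      rcases eq_or_ne j i with rfl | e
      · rw [update_self] at m2
        exact (m4 _ fun x hx => mem_filter.2 ⟨mem_nbX.2 (hs (mem_nbX.1 hx)),
          (mem_filter.1 (b1 (mem_nbX.1 hx))).2⟩).trans_lt (l4 y s m3 m2)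
      · rw [update_of_ne e] at m2
        exact (m4 _ fun x hx => mem_nbX.2 (hs (mem_nbX.1 hx))).trans_lt
          (a6 j ((mem_insert.1 hj).resolve_left e) y s m3 m2)

end Pool.Agent.Work.MP_054302_co.X
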