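import Pool.Agent.Work.MP_054302_co.X.MDefs
import Pool.Agent.Work.MP_054302_co.X.Count
import Pool.Agent.Work.MP_054302_co.X.Tree

namespace Pool.Agent.Work.MP_054302_co.X

open Finset Function
open scoped Classical

namespace MD

variable {V : Type} [Fintype V] [DecidableEq V] {M : MD V}

lemma conn_U (h : M.Hyp) : Conn (adj M.N M.r) M.U :=
  conn_seg h.hb h.hbb h.hb' (Or.inl rfl) (Or.inl rfl)

lemma c_mem_U (h : M.Hyp) {i : ℕ} (h1 : M.b ≤ i) (h2 : i ≤ M.b') : Lb.c i ∈ M.U := by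
  have := h.hb
  have := h.hb'
  simp only [U, mem_Seg, IsReal, pos]
  omega

lemma y_mem_U (h : M.Hyp) {i : ℕ} (h1 : M.b ≤ i) (h2 : i ≤ M.b') : Lb.y i ∈ M.U := by
  have := h.hb
  have := h.hb'
  simp only [U, mem_Seg, IsReal, pos]
  omega

lemma m_mem_U (h : M.Hyp) {i : ℕ} (h1 : M.b ≤ i) (h2 : i < M.b') : Lb.m i ∈ M.U := by
  have := h.hb
  have := h.hb'
  simp only [U, mem_Seg, IsReal, pos]
  omega

lemma card_U (h : M.Hyp) : 2 ≤ M.U.card ∧ M.U.card ≤ M.u ∧ M.e + 1 = M.U.card := by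
  have h2 : 2 ≤ M.U.card := by
    apply one_lt_card.2
    exact ⟨Lb.c M.b, c_mem_U h le_rfl h.hbb, Lb.y M.b, y_mem_U h le_rfl h.hbb, by simp⟩
  refine ⟨h2, card_le_card (filter_subset _ _), ?_⟩
  simp only [e]
  omega

lemma one_le_UR (h : M.Hyp) : 1 ≤ M.UR.card :=
  card_pos.2 ⟨Lb.y M.b, mem_filter.2 ⟨y_mem_U h le_rfl h.hbb, rfl⟩⟩

/-- A homomorphism into the host is a homomorphism into `G`. -/
lemma hom_adj (h : M.Hyp) {φ : Lb → V} (hφ : φ ∈ Hom M.N M.r M.H M.Xs M.Ys M.U M.v0) :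
    ∀ u ∈ M.U, ∀ v ∈ M.U, adj M.N M.r u v → M.G.Adj (φ u) (φ v) := by
  intro u hu v hv huv
  have h3 := (mem_Hom.1 hφ).2.2
  rcases huv with huv | huv
  · exact (h.host.sub _ (h3 u hu v hv huv)).1
  · exact (h.host.sub _ (h3 v hv u hu huv)).1.symm

lemma hom_mem (h : M.Hyp) {φ : Lb → V} (hφ : φ ∈ Hom M.N M.r M.H M.Xs M.Ys M.U M.v0) :
    ∀ v ∈ M.U, φ v ∈ M.Xs ∪ M.Ys := by
  have _ := h.hb
  intro v hv
  have h2 := (mem_Hom.1 hφ).2.1 v hv
  cases hx : isX v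
  · exact mem_union_right _ (h2.2 hx)
  · exact mem_union_left _ (h2.1 hx)

lemma mem_hat {A : Finset V} {x : V} : x ∈ M.hat A ↔ ∃ x' ∈ A, x = x' ∨ x ∈ M.S x' := by
  simp only [hat, mem_biUnion, mem_insert]

lemma card_hat (h : M.Hyp) (A : Finset V) : (M.hat A).card ≤ A.card * (1 + M.s) := by
  apply card_biUnion_le_card_mul
  intro x _
  have h1 := card_insert_le x (M.S x)
  have h2 := h.hS x
  omega

lemma card_s1 (w : Lb → V) : (M.s1 w).card ≤ M.u + 2 :=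
  card_image_le.trans (card_erase_le.trans (card_Lab _ _))

lemma card_s2 (w : Lb → V) : (M.s2 w).card ≤ M.u + 2 :=
  card_image_le.trans (card_erase_le.trans (card_Lab _ _))

lemma M0_bi (h : M.Hyp) (L : Finset (Lb → V)) (D : ℕ) (hL : L.card ≤ D)
    (f : (Lb → V) → Finset V) (hf : ∀ w, (f w).card ≤ M.u + 2) :
    (L.biUnion fun w => M.hat (f w)).card ≤ D * ((M.u + 2) * (1 + M.s)) := by
  refine (card_biUnion_le_card_mul _ _ ((M.u + 2) * (1 + M.s)) ?_).trans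
    (Nat.mul_le_mul_right _ hL)
  intro w _
  exact (card_hat h _).trans (Nat.mul_le_mul_right _ (hf w))

lemma card_Av (h : M.Hyp) (x : V) : (M.Av x).card ≤ M.s0 := by
  have h0 := card_hat h {x}
  rw [card_singleton, one_mul] at h0
  have h1 := M0_bi h (M.L1 x) M.D1 (h.l1.card_le x) M.s1 card_s1
  have h2 := M0_bi h (M.L2 x) M.D2 (h.l2.card_le x) M.s2 card_s2
  have h3 : M.s0 = 1 + M.s + M.D1 * ((M.u + 2) * (1 + M.s)) +
      M.D2 * ((M.u + 2) * (1 + M.s)) := by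
    simp only [s0]
    ring
  rw [h3]
  exact (card_union_le _ _).trans
    (Nat.add_le_add ((card_union_le _ _).trans (Nat.add_le_add h0 h1)) h2)

lemma M0_nbX (h : M.Hyp) (v : V) : (nbX M.H v).card ≤ M.Δ :=
  (host_deg_le h.hdeg (fun p hp => (h.host.sub p hp).1) v).1

lemma w1_le (h : M.Hyp) (w : Lb → V) (x : V) : M.w1 w x ≤ M.Δ :=
  (card_filter_le _ _).trans (M0_nbX h _)

lemma w2_le (h : M.Hyp) (w : Lb → V) (x : V) : M.w2 w x ≤ M.Δ :=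
  (card_filter_le _ _).trans (M0_nbX h _)

lemma gh_inj {φ : Lb → V} (hφ : φ ∈ M.GH) : Set.InjOn φ M.U := by
  intro v hv v' hv' hvv
  by_contra hne
  apply (M.mem_GH.1 hφ).2.2.2.2 v hv v' hv' hne
  rw [← hvv]
  exact mem_union_left _ (mem_union_left _ (mem_hat.2 ⟨φ v, mem_singleton_self _, Or.inl rfl⟩))

lemma M0_half (h : M.Hyp) (L : Finset (Lb → V)) (D : ℕ) (hL : L.card ≤ D) (l : Lb) :
    (L.biUnion fun w => (nbX M.H (w l)).image (Prod.mk w)).card ≤ D * M.Δ := by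
  refine (card_biUnion_le_card_mul _ _ M.Δ ?_).trans (Nat.mul_le_mul_right _ hL)
  intro w _
  exact card_image_le.trans (M0_nbX h _)

/-- At most `D1 Δ D2 Δ` candidates for a decoration once the two lists are known. -/
lemma card_deco (h : M.Hyp) (y y' : V) (T : Finset (((Lb → V) × V) × ((Lb → V) × V)))
    (hT : ∀ δ ∈ T, δ.1.1 ∈ M.L1 y ∧ δ.2.1 ∈ M.L2 y' ∧ (δ.1.2, δ.1.1 (Lb.y M.a)) ∈ M.H ∧
      (δ.2.2, δ.2.1 (Lb.y M.c)) ∈ M.H) : T.card ≤ M.D1 * M.Δ * (M.D2 * M.Δ) := by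
  have h1 := M0_half h (M.L1 y) M.D1 (h.l1.card_le y) (Lb.y M.a)
  have h2 := M0_half h (M.L2 y') M.D2 (h.l2.card_le y') (Lb.y M.c)
  refine le_trans ?_ (Nat.mul_le_mul h1 h2)
  rw [← card_product]
  apply card_le_card
  intro δ hδ
  obtain ⟨a1, a2, a3, a4⟩ := hT δ hδ
  simp only [mem_product, mem_biUnion, mem_image, mem_nbX]
  exact ⟨⟨δ.1.1, a1, δ.1.2, a3, rfl⟩, ⟨δ.2.1, a2, δ.2.2, a4, rfl⟩⟩

lemma mid_sub (h : M.Hyp) {s t : ℕ} (hs : M.b ≤ s) (hst : s ≤ t) (ht : t ≤ M.b') :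
    M.Mid s t ⊆ M.U := by
  have _ := h.hb
  intro v hv
  simp only [Mid, U, mem_Seg] at hv ⊢
  obtain ⟨h1, h2, h3⟩ := hv
  refine ⟨h1, ?_, ?_⟩
  · split_ifs at h2 <;> omega
  · split_ifs at h3 <;> omega

lemma conn_Mid (h : M.Hyp) {s t : ℕ} (hs : M.b ≤ s) (hst : s ≤ t) (ht : t ≤ M.b') :
    Conn (adj M.N M.r) (M.Mid s t) := by
  have hb := h.hb
  refine conn_seg (s := s) (t := t) (by omega) hst (ht.trans h.hb') ?_ ?_
  · split_ifs <;> omega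
  · split_ifs <;> omega

lemma mem_Mid {s t : ℕ} (hs : 1 ≤ s) {v : Lb} : v ∈ M.Mid s t ↔ IsReal M.N M.r v ∧
    (2 * s ≤ pos v ∨ (s ≠ M.b ∧ 2 * s ≤ pos v + 1)) ∧
    (pos v ≤ 2 * t ∨ (t ≠ M.b' ∧ pos v ≤ 2 * t + 1)) := by
  simp only [Mid, mem_Seg]
  refine and_congr_right fun _ => and_congr ?_ ?_
  · split_ifs <;> omega
  · split_ifs <;> omega

lemma pos_D (h : M.Hyp) : 0 < M.D1 ∧ 0 < M.D2 ∧ 0 < M.n ∧ 0 < M.γ := by
  have hp : (0 : ℝ) < 16 * ((M.u : ℝ) * M.s + (M.u + 2) * (1 + M.s)) := by positivity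
  refine ⟨?_, ?_, ?_, pow_pos h.hκ.1 _⟩
  · by_contra h0
    have h1 := h.hX1
    rw [show M.D1 = 0 by omega] at h1
    simp only [Nat.cast_zero, mul_zero] at h1
    linarith
  · by_contra h0
    have h1 := h.hX2
    rw [show M.D2 = 0 by omega] at h1
    simp only [Nat.cast_zero, mul_zero] at h1
    linarith
  · obtain ⟨p, hp⟩ := h.host.ne
    have := card_pos.2 ⟨p.1, (h.host.sub p hp).2.1⟩
    simp only [n]
    omega

end MD

end Pool.Agent.Work.MP_054302_co.X
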