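import Pool.Agent.Work.MP_054302_co.X.M0
import Pool.Agent.Work.MP_054302_co.X.HomLb

namespace Pool.Agent.Work.MP_054302_co.X

open Finset Function
open scoped Classical

namespace MD

variable {V : Type} [Fintype V] [DecidableEq V] {M : MD V}

lemma M1_union {ι α : Type} (I : Finset ι) (B : Finset α) (Fi : ι → Finset α) (c : ℝ)
    (hsub : ∀ φ ∈ B, ∃ i ∈ I, φ ∈ Fi i) (h : ∀ i ∈ I, ((Fi i).card : ℝ) ≤ c) :
    (B.card : ℝ) ≤ I.card * c := by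
  have h1 : B.card ≤ ∑ i ∈ I, (Fi i).card :=
    (card_le_card fun φ hφ => mem_biUnion.2 (hsub φ hφ)).trans card_biUnion_le
  have h2 : (B.card : ℝ) ≤ ∑ i ∈ I, ((Fi i).card : ℝ) := by exact_mod_cast h1
  refine h2.trans ?_
  simpa [nsmul_eq_mul] using sum_le_card_nsmul I _ c h

/-- `ext_ub'` for a family of homomorphisms of the stretch, in real numbers. -/
lemma M1_ext (h : M.Hyp) {β : Type} {S : Finset Lb} (hS : S ⊆ M.U) (hne : S.Nonempty)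
    (F : Finset (Lb → V)) (hF : F ⊆ Hom M.N M.r M.H M.Xs M.Ys M.U M.v0)
    (π : (Lb → V) → β) (T : Finset β) (hT : ∀ f ∈ F, π f ∈ T)
    (hπ : ∀ f ∈ F, ∀ g ∈ F, π f = π g → ∀ v ∈ S, f v = g v) (c : ℝ) (k : ℕ)
    (hk : S.card = k + 1) (hc : (T.card : ℝ) ≤ c * (M.Δ : ℝ) ^ k) :
    (F.card : ℝ) ≤ c * (M.Δ : ℝ) ^ M.e := by
  have h1 := ext_ub' h.hdeg (conn_U h) hS hne F (fun f hf => hom_adj h (hF hf))
    (fun f hf g hg v hv => ((mem_Hom.1 (hF hf)).1 v hv).trans ((mem_Hom.1 (hF hg)).1 v hv).symm)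
    π T hT hπ
  have h2 : (F.card : ℝ) ≤ T.card * (M.Δ : ℝ) ^ (M.U.card - S.card) := by exact_mod_cast h1
  have h3 := card_le_card hS
  have h4 := (card_U h).2.2
  have h5 : M.e = k + (M.U.card - S.card) := by omega
  rw [h5, pow_add, ← mul_assoc]
  exact h2.trans (mul_le_mul_of_nonneg_right hc (by positivity))

lemma M1_union_le : ((M.Xs ∪ M.Ys).card : ℝ) ≤ M.n := by
  have := card_union_le M.Xs M.Ys
  unfold n
  exact_mod_cast this

lemma M1_five {α : Type} (A A0 A1 A2 A3 A4 : Finset α) (c : ℝ) {d : ℝ}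
    (h1 : (A1.card : ℝ) ≤ c) (h2 : (A2.card : ℝ) ≤ c) (h3 : (A3.card : ℝ) ≤ c)
    (h4 : (A4.card : ℝ) ≤ c) (h0 : d ≤ A.card)
    (hs : ∀ φ ∈ A, φ ∈ A0 ∨ φ ∈ A1 ∨ φ ∈ A2 ∨ φ ∈ A3 ∨ φ ∈ A4) : d - 4 * c ≤ A0.card := by
  have a0 : A.card ≤ (A0 ∪ (A1 ∪ (A2 ∪ (A3 ∪ A4)))).card :=
    card_le_card fun φ hφ => by simpa only [mem_union] using hs φ hφ
  have a1 := card_union_le A0 (A1 ∪ (A2 ∪ (A3 ∪ A4)))
  have a2 := card_union_le A1 (A2 ∪ (A3 ∪ A4))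
  have a3 := card_union_le A2 (A3 ∪ A4)
  have a4 := card_union_le A3 A4
  have a5 : A.card ≤ A0.card + A1.card + A2.card + A3.card + A4.card := by omega
  have a6 : (A.card : ℝ) ≤ A0.card + A1.card + A2.card + A3.card + A4.card := by
    exact_mod_cast a5
  linarith

/-- `hom_lb`, `host_card`: `κ n ≤ 2 Xs.card` and `κ^(e+1) ≥ γ`. -/
lemma card_hom (h : M.Hyp) : M.γ / 2 * M.n * (M.Δ : ℝ) ^ M.e ≤
    ((Hom M.N M.r M.H M.Xs M.Ys M.U M.v0).card : ℝ) := by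
  have hD : (0 : ℝ) < M.Δ := by exact_mod_cast h.hΔ
  obtain ⟨hk0, hk1⟩ := h.hκ
  have h1 := hom_lb (N := M.N) (r := M.r) h.host (by positivity) M.v0 h.hb h.hbb h.hb'
  obtain ⟨-, h2, h3, -⟩ := host_card h.hdeg h.host
  have h3' : (M.H.card : ℝ) ≤ M.Xs.card * M.Δ := by exact_mod_cast h3
  have h4 : M.κ * M.Ys.card ≤ M.Xs.card := by
    refine le_of_mul_le_mul_right ?_ hD
    calc M.κ * M.Ys.card * M.Δ = M.κ * M.Δ * M.Ys.card := by ring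
      _ ≤ _ := h2.trans h3'
  have h5 : M.κ * M.Xs.card ≤ M.Xs.card := mul_le_of_le_one_left (by positivity) hk1
  have h6 : M.κ * M.n ≤ 2 * M.Xs.card := by
    unfold n
    push_cast
    linarith
  have h7 : M.γ ≤ M.κ ^ (M.e + 1) := by
    have := card_U h
    exact pow_le_pow_of_le_one hk0.le hk1 (by omega)
  refine le_trans ?_ h1
  change _ ≤ (M.Xs.card : ℝ) * (M.κ * M.Δ) ^ M.e
  calc M.γ / 2 * M.n * (M.Δ : ℝ) ^ M.e ≤ M.κ ^ (M.e + 1) / 2 * M.n * (M.Δ : ℝ) ^ M.e := by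
        gcongr
    _ = (M.κ * M.n) / 2 * (M.κ * M.Δ) ^ M.e := by rw [mul_pow]; ring
    _ ≤ (2 * M.Xs.card) / 2 * (M.κ * M.Δ) ^ M.e := by gcongr
    _ = _ := by ring

/-- Homomorphisms sending the edge `c i, y i` into a set `Bd` of pairs (`ext_ub'`). -/
lemma bad_edge (h : M.Hyp) {i : ℕ} (h1 : M.b ≤ i) (h2 : i ≤ M.b') (Bd : Finset (V × V))
    (hB : (Bd.card : ℝ) ≤ M.β * M.H.card) :
    (((Hom M.N M.r M.H M.Xs M.Ys M.U M.v0).filter
      fun φ => (φ (Lb.c i), φ (Lb.y i)) ∈ Bd).card : ℝ) ≤ M.γ / 20 * M.n * (M.Δ : ℝ) ^ M.e := by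
  have hγ := (pos_D h).2.2.2
  have hH : (M.H.card : ℝ) ≤ M.n * M.Δ := by
    have h3 := (host_card h.hdeg h.host).2.2.1
    have h4 : M.H.card ≤ M.n * M.Δ :=
      h3.trans (Nat.mul_le_mul_right _ (Nat.le_add_right _ _))
    exact_mod_cast h4
  refine M1_ext h (S := {Lb.c i, Lb.y i}) ?_ (insert_nonempty _ _) _ (filter_subset _ _)
    (fun φ => (φ (Lb.c i), φ (Lb.y i))) Bd (fun f hf => (mem_filter.1 hf).2) ?_ _ 1 ?_ ?_
  · intro v hv
    rcases mem_insert.1 hv with rfl | hv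
    · exact c_mem_U h h1 h2
    · rw [mem_singleton.1 hv]
      exact y_mem_U h h1 h2
  · intro f _ g _ hfg v hv
    rcases mem_insert.1 hv with rfl | hv
    · exact (Prod.ext_iff.1 hfg).1
    · rw [mem_singleton.1 hv]
      exact (Prod.ext_iff.1 hfg).2
  · exact card_pair (by simp)
  · calc (Bd.card : ℝ) ≤ M.β * M.H.card := hB
      _ ≤ M.γ / 20 * M.H.card := mul_le_mul_of_nonneg_right h.hβ (by positivity)
      _ ≤ M.γ / 20 * (M.n * M.Δ) := mul_le_mul_of_nonneg_left hH (by positivity)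
      _ = _ := by ring

/-- Union over at most `u^3` triples `x, w, x'` (three different labels as soon as one map has
`Jp`), `ext_ub'` with `π φ = (φ w, (φ x, φ x'))`. -/
lemma bad_cherry (h : M.Hyp) :
    (((Hom M.N M.r M.H M.Xs M.Ys M.U M.v0).filter fun φ => ∃ x ∈ M.U, ∃ w ∈ M.U, ∃ x' ∈ M.U,
      adj M.N M.r w x ∧ adj M.N M.r w x' ∧ Jp M.G M.Q (φ x) (φ x')).card : ℝ) ≤
      M.γ / 20 * M.n * (M.Δ : ℝ) ^ M.e := by
  have hD : (0 : ℝ) < M.Δ := by exact_mod_cast h.hΔ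
  have hθ : 0 ≤ M.θi := by
    have h1 : (0 : ℝ) ≤ M.θi * (M.Δ : ℝ) ^ 2 := (Nat.cast_nonneg _).trans (h.hcher M.v0)
    exact nonneg_of_mul_nonneg_left h1 (by positivity)
  have hu : (M.U.card : ℝ) ≤ M.u := by exact_mod_cast (card_U h).2.1
  refine (M1_union (M.U ×ˢ M.U ×ˢ M.U) _
    (fun t => (Hom M.N M.r M.H M.Xs M.Ys M.U M.v0).filter fun φ =>
      adj M.N M.r t.2.1 t.1 ∧ adj M.N M.r t.2.1 t.2.2 ∧ Jp M.G M.Q (φ t.1) (φ t.2.2))
    (M.n * M.θi * (M.Δ : ℝ) ^ M.e) ?_ ?_).trans ?_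
  · intro φ hφ
    obtain ⟨hφ, x, hx, w, hw, x', hx', hp⟩ := mem_filter.1 hφ
    exact ⟨(x, w, x'), mem_product.2 ⟨hx, mem_product.2 ⟨hw, hx'⟩⟩, mem_filter.2 ⟨hφ, hp⟩⟩
  · rintro ⟨x, w, x'⟩ ht
    obtain ⟨hx, ht⟩ := mem_product.1 ht
    obtain ⟨hw, hx'⟩ := mem_product.1 ht
    dsimp only at hx hw hx' ⊢
    rcases ((Hom M.N M.r M.H M.Xs M.Ys M.U M.v0).filter fun φ =>
      adj M.N M.r w x ∧ adj M.N M.r w x' ∧ Jp M.G M.Q (φ x) (φ x')).eq_empty_or_nonempty with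
      he | ⟨ψ, hψ⟩
    · rw [he, card_empty, Nat.cast_zero]
      positivity
    obtain ⟨-, a1, a2, a3⟩ := mem_filter.1 hψ
    have n1 : w ≠ x := fun e => adj_irrefl _ (e ▸ a1)
    have n2 : w ≠ x' := fun e => adj_irrefl _ (e ▸ a2)
    have n3 : x ≠ x' := fun e => a3.1 (e ▸ rfl)
    refine M1_ext h (S := {w, x, x'}) ?_ (insert_nonempty _ _) _ (filter_subset _ _)
      (fun φ => (φ w, (φ x, φ x')))
      ((M.Xs ∪ M.Ys).biUnion fun v => (jpairs M.G M.Q (nbr M.G v)).image (Prod.mk v))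
      ?_ ?_ _ 2 ?_ ?_
    · intro v hv
      simp only [mem_insert, mem_singleton] at hv
      rcases hv with rfl | rfl | rfl <;> assumption
    · intro f hf
      obtain ⟨hf, -, -, hj⟩ := mem_filter.1 hf
      exact mem_biUnion.2 ⟨f w, hom_mem h hf w hw, mem_image_of_mem _ (mem_jpairs.2
        ⟨mem_nbr.2 (hom_adj h hf w hw x hx a1), mem_nbr.2 (hom_adj h hf w hw x' hx' a2), hj⟩)⟩
    · intro f _ g _ hfg v hv
      simp only [mem_insert, mem_singleton] at hv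
      simp only [Prod.mk.injEq] at hfg
      rcases hv with rfl | rfl | rfl
      exacts [hfg.1, hfg.2.1, hfg.2.2]
    · exact card_eq_three.2 ⟨w, x, x', n1, n2, n3, rfl⟩
    · refine (M1_union (M.Xs ∪ M.Ys) _
        (fun v => (jpairs M.G M.Q (nbr M.G v)).image (Prod.mk v)) (M.θi * (M.Δ : ℝ) ^ 2)
        (fun p hp => mem_biUnion.1 hp) fun v _ => ?_).trans ?_
      · exact le_trans (by exact_mod_cast card_image_le) (h.hcher v)
      · rw [mul_assoc]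
        exact mul_le_mul_of_nonneg_right M1_union_le (by positivity)
  · rw [card_product, card_product]
    push_cast
    calc (M.U.card : ℝ) * (M.U.card * M.U.card) * (M.n * M.θi * (M.Δ : ℝ) ^ M.e)
        ≤ M.u * (M.u * M.u) * (M.n * M.θi * (M.Δ : ℝ) ^ M.e) := by gcongr
      _ = ((M.u : ℝ) ^ 3 * M.θi) * M.n * (M.Δ : ℝ) ^ M.e := by ring
      _ ≤ _ := by
        have := h.hθi
        gcongr

/-- Union over at most `u^2` pairs, `ext_ub'` with `π φ = (φ v, φ v')`. -/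
lemma bad_av (h : M.Hyp) :
    (((Hom M.N M.r M.H M.Xs M.Ys M.U M.v0).filter fun φ => ∃ v ∈ M.U, ∃ v' ∈ M.U,
      v ≠ v' ∧ φ v' ∈ M.Av (φ v)).card : ℝ) ≤ M.γ / 20 * M.n * (M.Δ : ℝ) ^ M.e := by
  have hD : (0 : ℝ) < M.Δ := by exact_mod_cast h.hΔ
  have hu : (M.U.card : ℝ) ≤ M.u := by exact_mod_cast (card_U h).2.1
  refine (M1_union (M.U ×ˢ M.U) _
    (fun t => (Hom M.N M.r M.H M.Xs M.Ys M.U M.v0).filter fun φ =>
      t.1 ≠ t.2 ∧ φ t.2 ∈ M.Av (φ t.1))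
    (M.n * M.s0 / M.Δ * (M.Δ : ℝ) ^ M.e) ?_ ?_).trans ?_
  · intro φ hφ
    obtain ⟨hφ, v, hv, v', hv', hp⟩ := mem_filter.1 hφ
    exact ⟨(v, v'), mem_product.2 ⟨hv, hv'⟩, mem_filter.2 ⟨hφ, hp⟩⟩
  · rintro ⟨v, v'⟩ ht
    obtain ⟨hv, hv'⟩ := mem_product.1 ht
    dsimp only at hv hv' ⊢
    by_cases hne : v = v'
    · rw [filter_false_of_mem fun φ _ hp => hp.1 hne, card_empty, Nat.cast_zero]
      positivity
    refine M1_ext h (S := {v, v'}) ?_ (insert_nonempty _ _) _ (filter_subset _ _)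
      (fun φ => (φ v, φ v'))
      ((M.Xs ∪ M.Ys).biUnion fun x => (M.Av x).image (Prod.mk x)) ?_ ?_ _ 1 (card_pair hne) ?_
    · intro x hx
      simp only [mem_insert, mem_singleton] at hx
      rcases hx with rfl | rfl <;> assumption
    · intro f hf
      obtain ⟨hf, -, hj⟩ := mem_filter.1 hf
      exact mem_biUnion.2 ⟨f v, hom_mem h hf v hv, mem_image_of_mem _ hj⟩
    · intro f _ g _ hfg x hx
      simp only [mem_insert, mem_singleton] at hx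
      simp only [Prod.mk.injEq] at hfg
      rcases hx with rfl | rfl
      exacts [hfg.1, hfg.2]
    · refine (M1_union (M.Xs ∪ M.Ys) _ (fun x => (M.Av x).image (Prod.mk x)) (M.s0 : ℝ)
        (fun p hp => mem_biUnion.1 hp) fun x _ => ?_).trans ?_
      · exact_mod_cast card_image_le.trans (card_Av h x)
      · rw [pow_one, div_mul_cancel₀ _ hD.ne']
        exact mul_le_mul_of_nonneg_right M1_union_le (by positivity)
  · rw [card_product]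
    push_cast
    have h1 : (M.u : ℝ) ^ 2 * M.s0 / M.Δ ≤ M.γ / 20 := (div_le_iff₀ hD).2 h.hAv
    calc (M.U.card : ℝ) * M.U.card * (M.n * M.s0 / M.Δ * (M.Δ : ℝ) ^ M.e)
        ≤ M.u * M.u * (M.n * M.s0 / M.Δ * (M.Δ : ℝ) ^ M.e) := by gcongr
      _ = ((M.u : ℝ) ^ 2 * M.s0 / M.Δ) * M.n * (M.Δ : ℝ) ^ M.e := by ring
      _ ≤ _ := by gcongr

theorem card_GH (h : M.Hyp) : M.γ / 4 * M.n * (M.Δ : ℝ) ^ M.e ≤ (M.GH.card : ℝ) := by
  have h0 := card_hom h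
  have h1 := bad_edge h le_rfl h.hbb _ h.l1.cov
  have h2 := bad_edge h h.hbb le_rfl _ h.l2.cov
  have h3 := bad_cherry h
  have h4 := bad_av h
  have hp : 0 ≤ M.γ * M.n * (M.Δ : ℝ) ^ M.e := by
    have := (pos_D h).2.2.2
    positivity
  have hed : ∀ φ ∈ Hom M.N M.r M.H M.Xs M.Ys M.U M.v0, ∀ i, M.b ≤ i → i ≤ M.b' →
      (φ (Lb.c i), φ (Lb.y i)) ∈ M.H := fun φ hφ i a1 a2 =>
    (mem_Hom.1 hφ).2.2 _ (c_mem_U h a1 a2) _ (y_mem_U h a1 a2)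
      ⟨rfl, h.hb.trans a1, a2.trans h.hb'⟩
  refine le_trans ?_ (M1_five _ M.GH _ _ _ _ _ h1 h2 h3 h4 h0 ?_)
  · linarith
  intro φ hφ
  by_contra hn
  simp only [not_or] at hn
  obtain ⟨n0, n1, n2, n3, n4⟩ := hn
  refine n0 ((mem_GH M).2 ⟨hφ, ?_, ?_, ?_, ?_⟩)
  · exact le_of_not_gt fun hl =>
      n1 (mem_filter.2 ⟨hφ, mem_filter.2 ⟨hed φ hφ _ le_rfl h.hbb, hl⟩⟩)
  · exact le_of_not_gt fun hl =>
      n2 (mem_filter.2 ⟨hφ, mem_filter.2 ⟨hed φ hφ _ h.hbb le_rfl, hl⟩⟩)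
  · exact fun x hx w hw x' hx' a1 a2 hj =>
      n3 (mem_filter.2 ⟨hφ, x, hx, w, hw, x', hx', a1, a2, hj⟩)
  · exact fun v hv v' hv' a1 a2 => n4 (mem_filter.2 ⟨hφ, v, hv, v', hv', a1, a2⟩)

end MD

end Pool.Agent.Work.MP_054302_co.X
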