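import Pool.Agent.Work.MP_054302_co.X.M0

namespace Pool.Agent.Work.MP_054302_co.X

open Finset Function
open scoped Classical

namespace MD

variable {V : Type} [Fintype V] [DecidableEq V] {M : MD V}

/-- Pairs whose first member meets a small set depending on the second member. -/
lemma M2_pairs {σ : Type} (A B : Finset σ) (supp : σ → Finset V)
    (hd : ∀ s ∈ A, ∀ s' ∈ A, s ≠ s' → Disjoint (supp s) (supp s')) (Z : σ → Finset V) (X : ℕ)
    (hZ : ∀ t ∈ B, (Z t).card ≤ X) :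
    ((A ×ˢ B).filter fun p => ¬ Disjoint (supp p.1) (Z p.2)).card ≤ B.card * X := by
  have h1 : ((A ×ˢ B).filter fun p => ¬ Disjoint (supp p.1) (Z p.2)) ⊆
      B.biUnion fun t => (A.filter fun s => ¬ Disjoint (supp s) (Z t)).image fun s => (s, t) := by
    intro p hp
    rw [mem_filter, mem_product] at hp
    rw [mem_biUnion]
    refine ⟨p.2, hp.1.2, mem_image.2 ⟨p.1, mem_filter.2 ⟨hp.1.1, hp.2⟩, rfl⟩⟩
  refine (card_le_card h1).trans ?_
  refine card_biUnion_le.trans ?_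
  rw [← smul_eq_mul, ← sum_const]
  refine sum_le_sum fun t ht => card_image_le.trans ?_
  refine le_trans ?_ (hZ t ht)
  convert card_meet_le A supp hd (Z t)

/-- The same with the roles exchanged. -/
lemma M2_pairs' {σ : Type} (A B : Finset σ) (supp : σ → Finset V)
    (hd : ∀ s ∈ B, ∀ s' ∈ B, s ≠ s' → Disjoint (supp s) (supp s')) (Z : σ → Finset V) (X : ℕ)
    (hZ : ∀ t ∈ A, (Z t).card ≤ X) :
    ((A ×ˢ B).filter fun p => ¬ Disjoint (supp p.2) (Z p.1)).card ≤ A.card * X := by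
  refine le_trans ?_ (M2_pairs B A supp hd Z X hZ)
  refine card_le_card_of_injOn Prod.swap ?_ ?_
  · intro p hp
    simp only [coe_filter, mem_product, Set.mem_ofPred_eq, Prod.fst_swap, Prod.snd_swap] at hp ⊢
    exact ⟨⟨hp.1.2, hp.1.1⟩, hp.2⟩
  · intro p _ q _ hpq
    exact Prod.swap_injective hpq

/-- Four applications of `card_meet_le`. -/
lemma card_incmp (h : M.Hyp) (φ : Lb → V) (y y' : V) :
    ((M.L1 y ×ˢ M.L2 y').filter fun p => ¬ M.Cmp φ p.1 p.2).card ≤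
      (M.D1 + M.D2) * (M.u * M.s + (M.u + 2) * (1 + M.s)) := by
  set Z : Finset V := M.U.biUnion fun v => M.S (φ v) with hZ
  set X : ℕ := M.u * M.s + (M.u + 2) * (1 + M.s) with hX
  have hZc : Z.card ≤ M.u * M.s := by
    refine card_biUnion_le.trans ?_
    refine le_trans (sum_le_sum fun v _ => h.hS (φ v)) ?_
    rw [sum_const, smul_eq_mul]
    exact Nat.mul_le_mul_right _ (card_U h).2.1
  have hA : ∀ t ∈ M.L2 y', (Z ∪ M.hat (M.s2 t)).card ≤ X := by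
    intro t _
    refine (card_union_le _ _).trans (Nat.add_le_add hZc ?_)
    exact (card_hat h _).trans (Nat.mul_le_mul_right _ (card_s2 t))
  have hB : ∀ t ∈ M.L1 y, (Z ∪ M.hat (M.s1 t)).card ≤ X := by
    intro t _
    refine (card_union_le _ _).trans (Nat.add_le_add hZc ?_)
    exact (card_hat h _).trans (Nat.mul_le_mul_right _ (card_s1 t))
  have h1 := M2_pairs (M.L1 y) (M.L2 y') M.s1 (h.l1.disj y) (fun t => Z ∪ M.hat (M.s2 t)) X hA
  have h2 := M2_pairs' (M.L1 y) (M.L2 y') M.s2 (h.l2.disj y') (fun t => Z ∪ M.hat (M.s1 t)) X hB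
  have hsub : ((M.L1 y ×ˢ M.L2 y').filter fun p => ¬ M.Cmp φ p.1 p.2) ⊆
      ((M.L1 y ×ˢ M.L2 y').filter fun p => ¬ Disjoint (M.s1 p.1) (Z ∪ M.hat (M.s2 p.2))) ∪
      ((M.L1 y ×ˢ M.L2 y').filter fun p => ¬ Disjoint (M.s2 p.2) (Z ∪ M.hat (M.s1 p.1))) := by
    intro p hp
    rw [mem_filter] at hp
    rw [mem_union, mem_filter, mem_filter]
    by_contra hcon
    push Not at hcon
    have e1 := hcon.1 hp.1
    have e2 := hcon.2 hp.1
    rw [disjoint_union_right] at e1 e2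
    apply hp.2
    refine ⟨fun v hv => ⟨?_, ?_⟩, e1.2, e2.2⟩
    · exact e1.1.mono_right (subset_biUnion_of_mem (fun v => M.S (φ v)) hv)
    · exact e2.1.mono_right (subset_biUnion_of_mem (fun v => M.S (φ v)) hv)
  refine (card_le_card hsub).trans ((card_union_le _ _).trans ?_)
  have h3 : (M.L2 y').card * X ≤ M.D2 * X := Nat.mul_le_mul_right _ (h.l2.card_le y')
  have h4 : (M.L1 y).card * X ≤ M.D1 * X := Nat.mul_le_mul_right _ (h.l1.card_le y)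
  rw [add_mul, add_comm (M.D1 * X)]
  exact Nat.add_le_add (le_trans (by convert h1) h3) (le_trans (by convert h2) h4)

/-- The decorations over the compatible pairs of stems. -/
lemma M2_sum_le (φ : Lb → V) :
    ∑ p ∈ (M.L1 (φ (Lb.y M.b)) ×ˢ M.L2 (φ (Lb.y M.b'))).filter (fun p => M.Cmp φ p.1 p.2),
      M.w1 p.1 (φ (Lb.c M.b)) * M.w2 p.2 (φ (Lb.c M.b')) ≤ (M.Dl φ).card := by
  have hmap : Set.MapsTo (fun δ : ((Lb → V) × V) × ((Lb → V) × V) => (δ.1.1, δ.2.1))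
      (M.Dl φ : Set (((Lb → V) × V) × ((Lb → V) × V)))
      (((M.L1 (φ (Lb.y M.b)) ×ˢ M.L2 (φ (Lb.y M.b'))).filter (fun p => M.Cmp φ p.1 p.2) :
        Finset ((Lb → V) × (Lb → V))) : Set ((Lb → V) × (Lb → V))) := by
    intro δ hδ
    rw [mem_coe, mem_Dl] at hδ
    rw [mem_coe, mem_filter, mem_product]
    exact ⟨⟨hδ.1, hδ.2.1⟩, hδ.2.2.2.2.2.2⟩
  rw [card_eq_sum_card_fiberwise hmap]
  refine sum_le_sum fun p hp => ?_
  rw [mem_filter, mem_product] at hp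
  unfold w1 w2 wtR wtL
  rw [← card_product]
  refine card_le_card_of_injOn (fun q => ((p.1, q.1), (p.2, q.2))) ?_ ?_
  · intro q hq
    simp only [coe_product, coe_filter, Set.mem_prod, Set.mem_ofPred_eq, mem_nbX] at hq
    simp only [coe_filter, Set.mem_ofPred_eq, mem_Dl]
    exact ⟨⟨hp.1.1, hp.1.2, hq.1.1, hq.1.2, hq.2.1, hq.2.2, hp.2⟩, trivial⟩
  · intro q _ q' _ hqq
    simp only [Prod.mk.injEq, true_and] at hqq
    exact Prod.ext hqq.1 hqq.2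

/-- The number of decorations is the sum over compatible pairs of stems of the product of the
weights; all pairs give the product of the two sums, each lost pair costs at most `Δ^2`. -/
theorem card_Dl (h : M.Hyp) {φ : Lb → V} (hφ : φ ∈ M.GH) :
    M.θ ^ 2 / 8 * M.D1 * M.D2 * (M.Δ : ℝ) ^ 2 ≤ ((M.Dl φ).card : ℝ) := by
  rw [mem_GH] at hφ
  obtain ⟨_, h1, h2, _, _⟩ := hφ
  set y := φ (Lb.y M.b)
  set y' := φ (Lb.y M.b')
  set x := φ (Lb.c M.b)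
  set x' := φ (Lb.c M.b')
  set P := M.L1 y ×ˢ M.L2 y' with hP
  have hsplit := sum_filter_add_sum_filter_not P (fun p => M.Cmp φ p.1 p.2)
    (fun p => M.w1 p.1 x * M.w2 p.2 x')
  have hgood := M2_sum_le (M := M) φ
  have hbad : ∑ p ∈ P.filter (fun p => ¬ M.Cmp φ p.1 p.2), M.w1 p.1 x * M.w2 p.2 x' ≤
      (M.D1 + M.D2) * (M.u * M.s + (M.u + 2) * (1 + M.s)) * (M.Δ * M.Δ) := by
    refine le_trans (sum_le_sum fun p _ => Nat.mul_le_mul (w1_le h p.1 x) (w2_le h p.2 x')) ?_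
    rw [sum_const, smul_eq_mul]
    exact Nat.mul_le_mul_right _ (card_incmp h φ y y')
  have hall : ∑ p ∈ P, M.w1 p.1 x * M.w2 p.2 x' =
      (∑ w ∈ M.L1 y, M.w1 w x) * ∑ w ∈ M.L2 y', M.w2 w x' := by
    rw [hP, sum_product, sum_mul_sum]
  have hN : (∑ w ∈ M.L1 y, M.w1 w x) * (∑ w ∈ M.L2 y', M.w2 w x') ≤ (M.Dl φ).card +
      (M.D1 + M.D2) * (M.u * M.s + (M.u + 2) * (1 + M.s)) * (M.Δ * M.Δ) := by
    rw [← hall, ← hsplit]
    exact Nat.add_le_add hgood hbad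
  have hR : (∑ w ∈ M.L1 y, (M.w1 w x : ℝ)) * (∑ w ∈ M.L2 y', (M.w2 w x' : ℝ)) ≤
      ((M.Dl φ).card : ℝ) + ((M.D1 : ℝ) + M.D2) *
        ((M.u : ℝ) * M.s + (M.u + 2) * (1 + M.s)) * ((M.Δ : ℝ) * M.Δ) := by
    exact_mod_cast hN
  set X : ℝ := (M.u : ℝ) * M.s + (M.u + 2) * (1 + M.s) with hX
  have hX1 : 16 * X ≤ M.θ ^ 2 * M.D1 := h.hX1
  have hX2 : 16 * X ≤ M.θ ^ 2 * M.D2 := h.hX2
  obtain ⟨hθ, hθ1, hθ2⟩ := h.hθ
  have hD1 : (0 : ℝ) ≤ M.D1 := Nat.cast_nonneg _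
  have hD2 : (0 : ℝ) ≤ M.D2 := Nat.cast_nonneg _
  have hΔ : (0 : ℝ) ≤ M.Δ := Nat.cast_nonneg _
  have a1 : M.θ / 2 * M.D1 * M.Δ ≤ ∑ w ∈ M.L1 y, (M.w1 w x : ℝ) := by
    refine le_trans ?_ h1
    gcongr
  have a2 : M.θ / 2 * M.D2 * M.Δ ≤ ∑ w ∈ M.L2 y', (M.w2 w x' : ℝ) := by
    refine le_trans ?_ h2
    gcongr
  have a3 : (M.θ / 2 * M.D1 * M.Δ) * (M.θ / 2 * M.D2 * M.Δ) ≤
      (∑ w ∈ M.L1 y, (M.w1 w x : ℝ)) * (∑ w ∈ M.L2 y', (M.w2 w x' : ℝ)) :=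
    mul_le_mul a1 a2 (by positivity) (le_trans (by positivity) a1)
  have a4 : ((M.D1 : ℝ) + M.D2) * X ≤ M.θ ^ 2 / 8 * M.D1 * M.D2 := by
    have b1 : (M.D1 : ℝ) * (16 * X) ≤ M.D1 * (M.θ ^ 2 * M.D2) := mul_le_mul_of_nonneg_left hX2 hD1
    have b2 : (M.D2 : ℝ) * (16 * X) ≤ M.D2 * (M.θ ^ 2 * M.D1) := mul_le_mul_of_nonneg_left hX1 hD2
    nlinarith
  have a5 : ((M.D1 : ℝ) + M.D2) * X * ((M.Δ : ℝ) * M.Δ) ≤
      M.θ ^ 2 / 8 * M.D1 * M.D2 * ((M.Δ : ℝ) * M.Δ) :=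
    mul_le_mul_of_nonneg_right a4 (by positivity)
  nlinarith

end MD

end Pool.Agent.Work.MP_054302_co.X
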