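import Pool.Agent.Work.MP_054302_co.X.M1
import Pool.Agent.Work.MP_054302_co.X.M2
import Pool.Agent.Work.MP_054302_co.X.Sun

namespace Pool.Agent.Work.MP_054302_co.X

open Finset Function
open scoped Classical

namespace MD

variable {V : Type} [Fintype V] [DecidableEq V] {M : MD V}

lemma card_Ob (h : M.Hyp) :
    M.γ * M.θ ^ 2 / 32 * M.n * (M.Δ : ℝ) ^ (M.e + 2) * M.D1 * M.D2 ≤ (M.Ob.card : ℝ) := by
  have e : M.Ob.card = ∑ φ ∈ M.GH, (M.Dl φ).card := by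
    rw [Ob, card_biUnion]
    · exact sum_congr rfl fun φ _ => card_image_of_injective _ (Prod.mk_right_injective φ)
    · intro φ _ ψ _ k
      refine disjoint_left.2 fun ω h1 h2 => k ?_
      obtain ⟨_, -, rfl⟩ := mem_image.1 h1
      obtain ⟨_, -, e⟩ := mem_image.1 h2
      exact (congrArg Prod.fst e).symm
  have e2 := card_nsmul_le_sum M.GH (fun φ => ((M.Dl φ).card : ℝ)) _ fun φ hφ => card_Dl h hφ
  have e3 := mul_le_mul_of_nonneg_right (card_GH h)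
    (by positivity : (0 : ℝ) ≤ M.θ ^ 2 / 8 * M.D1 * M.D2 * (M.Δ : ℝ) ^ 2)
  rw [e, Nat.cast_sum, pow_add]
  rw [nsmul_eq_mul] at e2
  linarith

/-- Map `ω` to the datum (restriction of `ω.1` to `UR`, `ω.2`): at most `n^ρ D1 Δ D2 Δ` data
(`card_maps_le`, `card_deco`), and on each fibre `ω.1` ranges injectively over non-petals of one
set `Fib` (`card_nonpetal`). -/
lemma card_nonpet (h : M.Hyp) :
    (M.Ob.filter fun ω => ¬ IsPetal M.U0 M.Q (M.Fib ω) ω.1).card ≤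
      M.n ^ M.UR.card * (M.D1 * M.Δ * (M.D2 * M.Δ)) * sunC M.u M.Q := by
  let π : (Lb → V) × (((Lb → V) × V) × ((Lb → V) × V)) →
      (Lb → V) × (((Lb → V) × V) × ((Lb → V) × V)) :=
    fun ω => (fun v => if v ∈ M.UR then ω.1 v else M.v0, ω.2)
  have ur : ∀ v ∈ M.UR, v ∈ M.U := fun v hv => (mem_filter.1 hv).1
  have yr : ∀ i, M.b ≤ i → i ≤ M.b' → Lb.y i ∈ M.UR := fun i h1 h2 =>
    mem_filter.2 ⟨y_mem_U h h1 h2, rfl⟩
  rw [mul_comm]
  refine (card_le_mul_card_image (f := π) _ (sunC M.u M.Q) fun d hd => ?_).trans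
    (Nat.mul_le_mul_left _ ?_)
  · obtain ⟨ω0, -, rfl⟩ := mem_image.1 hd
    refine le_trans ?_ (card_nonpetal M.u M.Q (by have := h.hQ; omega) M.U0
      ((card_filter_le _ _).trans (card_U h).2.1) (M.Fib ω0) fun f hf g hg v hv => ?_)
    · refine card_le_card_of_injOn Prod.fst (fun ω hω => ?_) fun ω hω ω' hω' e =>
        Prod.ext e (congrArg Prod.snd ((mem_filter.1 hω).2.trans (mem_filter.1 hω').2.symm) :)
      obtain ⟨h1, h2⟩ := mem_filter.1 hω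
      obtain ⟨h3, h4⟩ := mem_filter.1 h1
      have e1 : ω.2 = ω0.2 := (congrArg Prod.snd h2 :)
      have e2 : ∀ v ∈ M.UR, ω.1 v = ω0.1 v := fun v hv => by
        simpa [π, hv] using congrFun (congrArg Prod.fst h2) v
      have e3 : M.Fib ω = M.Fib ω0 := by
        ext ψ
        rw [mem_Fib, mem_Fib, e1]
        exact and_congr_right fun _ => and_congr_right fun _ =>
          forall₂_congr fun v hv => by rw [e2 v hv]
      rw [mem_coe, mem_filter, ← e3, mem_Fib]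
      exact ⟨⟨(M.mem_Ob.1 h3).1, (M.mem_Ob.1 h3).2, fun _ _ => rfl⟩, h4⟩
    · obtain ⟨f1, -, f2⟩ := M.mem_Fib.1 hf
      obtain ⟨g1, -, g2⟩ := M.mem_Fib.1 hg
      by_cases k : v ∈ M.U
      · have : v ∈ M.UR := mem_filter.2 ⟨k, by simpa [U0, k] using hv⟩
        rw [f2 v this, g2 v this]
      · rw [(mem_Hom.1 (M.mem_GH.1 f1).1).1 v k, (mem_Hom.1 (M.mem_GH.1 g1).1).1 v k]
  · rw [mul_comm]
    refine (card_le_mul_card_image (f := Prod.fst) _ (M.D1 * M.Δ * (M.D2 * M.Δ))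
      fun ψ _ => ?_).trans (Nat.mul_le_mul_left _ ?_)
    · rw [← card_image_of_injOn (f := Prod.snd) fun ω hω ω' hω' e =>
        Prod.ext ((mem_filter.1 hω).2.trans (mem_filter.1 hω').2.symm) e]
      refine card_deco h (ψ (Lb.y M.b)) (ψ (Lb.y M.b')) _ fun δ hδ => ?_
      obtain ⟨d, h1, rfl⟩ := mem_image.1 hδ
      obtain ⟨h2, rfl⟩ := mem_filter.1 h1
      obtain ⟨ω, h3, rfl⟩ := mem_image.1 h2
      obtain ⟨m1, m2, m3, -, m4, -⟩ := M.mem_Dl.1 (M.mem_Ob.1 (mem_filter.1 h3).1).2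
      simp only [π, if_pos (yr _ le_rfl h.hbb), if_pos (yr _ h.hbb le_rfl)]
      exact ⟨m1, m2, m3, m4⟩
    · refine (card_maps_le M.UR (M.Xs ∪ M.Ys) _ (fun f hf v hv => ?_) fun f hf g hg v hv => ?_).trans
        (Nat.pow_le_pow_left (card_union_le _ _) _)
      · obtain ⟨d, h2, rfl⟩ := mem_image.1 hf
        obtain ⟨ω, h3, rfl⟩ := mem_image.1 h2
        simp only [π, if_pos hv]
        exact hom_mem h (M.mem_GH.1 (M.mem_Ob.1 (mem_filter.1 h3).1).1).1 v (ur v hv)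
      · obtain ⟨d, h2, rfl⟩ := mem_image.1 hf
        obtain ⟨ω, -, rfl⟩ := mem_image.1 h2
        obtain ⟨d, h2, rfl⟩ := mem_image.1 hg
        obtain ⟨ω', -, rfl⟩ := mem_image.1 h2
        simp only [π, if_neg hv]

theorem card_pet (h : M.Hyp) :
    M.γ * M.θ ^ 2 / 64 * M.n * (M.Δ : ℝ) ^ (M.e + 2) * M.D1 * M.D2 ≤
      ((M.Ob.filter fun ω => IsPetal M.U0 M.Q (M.Fib ω) ω.1).card : ℝ) := by
  have e1 := card_Ob h
  have e2 : (((M.Ob.filter fun ω => ¬ IsPetal M.U0 M.Q (M.Fib ω) ω.1).card : ℕ) : ℝ) ≤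
      (M.n : ℝ) ^ M.UR.card * (M.D1 * M.Δ * (M.D2 * M.Δ)) * sunC M.u M.Q := by
    exact_mod_cast card_nonpet h
  have e3 : ((M.Ob.filter fun ω => IsPetal M.U0 M.Q (M.Fib ω) ω.1).card : ℝ) +
      (M.Ob.filter fun ω => ¬ IsPetal M.U0 M.Q (M.Fib ω) ω.1).card = M.Ob.card := by
    exact_mod_cast card_filter_add_card_filter_not _
  have e4 := mul_le_mul_of_nonneg_right h.hsl
    (by positivity : (0 : ℝ) ≤ M.n * (M.D1 * M.Δ * (M.D2 * M.Δ)))
  rw [← Nat.sub_add_cancel (one_le_UR h), pow_succ] at e2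
  rw [pow_add] at e1 ⊢
  linarith

end MD

end Pool.Agent.Work.MP_054302_co.X
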