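import Pool.Agent.Work.MP_054302_co.X.M0

namespace Pool.Agent.Work.MP_054302_co.X

open Finset Function
open scoped Classical

namespace MD

variable {V : Type} [Fintype V] [DecidableEq V] {M : MD V}

/-- A label whose values on `P` are all different cannot have two neighbours fixed on `P`. -/
lemma no_cherry (h : M.Hyp) {φ : Lb → V} (hφ : φ ∈ M.GH) (P : Finset (Lb → V))
    (hP : ∀ ψ ∈ P, ψ ∈ M.GH) (hQ : M.Q ≤ P.card) {w x x' : Lb} (hw : w ∈ M.U) (hx : x ∈ M.U)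
    (hx' : x' ∈ M.U) (hne : x ≠ x') (h1 : adj M.N M.r w x) (h2 : adj M.N M.r w x')
    (hfix : ∀ ψ ∈ P, ψ x = φ x ∧ ψ x' = φ x')
    (hdiff : ∀ ψ ∈ P, ∀ ψ' ∈ P, ψ ≠ ψ' → ψ w ≠ ψ' w) : False := by
  refine (M.mem_GH.1 hφ).2.2.2.1 x hx w hw x' hx' h1 h2 ⟨fun e => hne (gh_inj hφ hx hx' e), ?_⟩
  refine hQ.trans (card_le_card_of_injOn (fun ψ => ψ w) (fun ψ hψ => ?_) fun ψ hψ ψ' hψ' e => ?_)
  · have k := hom_adj h (M.mem_GH.1 (hP ψ hψ)).1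
    have k1 := k w hw x hx h1
    have k2 := k w hw x' hx' h2
    rw [(hfix ψ hψ).1] at k1
    rw [(hfix ψ hψ).2] at k2
    exact mem_coe.2 (mem_inter.2 ⟨mem_nbr.2 k1.symm, mem_nbr.2 k2.symm⟩)
  · by_contra n
    exact hdiff ψ hψ ψ' hψ' n e

/-- Kernel analysis. Some `c i` is outside the kernel `K` (else a mid outside `K` has both
neighbours fixed); `s` is the least such index, `t` the largest index with `c s, ..., c t` outside
`K`; a mid next to such a `c i` is outside `K` (cherry `y i`, `c i`, mid). -/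
theorem out_of_pet (h : M.Hyp) {ω : (Lb → V) × (((Lb → V) × V) × ((Lb → V) × V))}
    (hω : ω ∈ M.Ob) (hp : IsPetal M.U0 M.Q (M.Fib ω) ω.1) : ∃ s t, M.Out ω s t := by
  obtain ⟨K, hK, hKne, P, hPF, -, hQ, hfix, hdiff⟩ := hp
  have hb := h.hb
  have hb' := h.hb'
  have mU : ∀ v, v ∈ M.U ↔ IsReal M.N M.r v ∧ 2 * M.b ≤ pos v ∧ pos v ≤ 2 * M.b' := fun v => mem_Seg
  have mU0 : ∀ v, v ∈ M.U0 ↔ v ∈ M.U ∧ isRoot v = false := fun v => mem_filter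
  have fx : ∀ v ∈ M.U, v ∈ K ∨ isRoot v = true → ∀ ψ ∈ P, ψ v = ω.1 v := fun v hv k ψ hψ =>
    k.elim (hfix ψ hψ v) fun k => (M.mem_Fib.1 (hPF hψ)).2.2 v (mem_filter.2 ⟨hv, k⟩)
  have ch : ∀ w ∈ M.U, isRoot w = false → w ∉ K → ∀ x ∈ M.U, ∀ x' ∈ M.U, x ≠ x' →
      adj M.N M.r w x → adj M.N M.r w x' → x ∈ K ∨ isRoot x = true → x' ∈ K ∨ isRoot x' = true →
      False := fun w hw r n x hx x' hx' hne h1 h2 k1 k2 =>
    no_cherry h (M.mem_Ob.1 hω).1 P (fun ψ hψ => (M.mem_Fib.1 (hPF hψ)).1) hQ hw hx hx' hne h1 h2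
      (fun ψ hψ => ⟨fx x hx k1 ψ hψ, fx x' hx' k2 ψ hψ⟩) fun ψ hψ ψ' hψ' e =>
        hdiff ψ hψ ψ' hψ' e w ((mU0 w).2 ⟨hw, r⟩) n w ((mU0 w).2 ⟨hw, r⟩) n
  have ex : ∃ i, M.b ≤ i ∧ i ≤ M.b' ∧ Lb.c i ∉ K := by
    by_contra n
    have al : ∀ i, M.b ≤ i → i ≤ M.b' → Lb.c i ∈ K := fun i h1 h2 => by
      by_contra k
      exact n ⟨i, h1, h2, k⟩
    obtain ⟨v, hv, hvK⟩ := exists_of_ssubset (Finset.ssubset_iff_subset_ne.2 ⟨hK, hKne⟩)
    obtain ⟨hv, hr⟩ := (mU0 v).1 hv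
    obtain ⟨h1, h2, h3⟩ := (mU v).1 hv
    cases v with
    | c i => exact hvK (al i (by simp only [pos] at h2; omega) (by simp only [pos] at h3; omega))
    | y i => cases hr
    | z i j => cases hr
    | m i =>
      simp only [pos, IsReal] at h1 h2 h3
      exact ch _ hv hr hvK (Lb.c i) (c_mem_U h (by omega) (by omega)) (Lb.c (i + 1))
        (c_mem_U h (by omega) (by omega)) (by simp) (.inr ⟨.inl rfl, h1⟩) (.inr ⟨.inr rfl, h1⟩)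
        (.inl (al _ (by omega) (by omega))) (.inl (al _ (by omega) (by omega)))
    | a i j =>
      exact ch _ hv hr hvK (Lb.c i)
        (c_mem_U h (by simp only [pos] at h2; omega) (by simp only [pos] at h3; omega)) (Lb.z i j)
        ((mU _).2 ⟨h1, h2, h3⟩) (by simp) (.inr ⟨rfl, h1⟩) (.inr ⟨rfl, rfl, h1⟩)
        (.inl (al _ (by simp only [pos] at h2; omega) (by simp only [pos] at h3; omega))) (.inr rfl)
  obtain ⟨s, ⟨s1, s2, s3⟩, s4⟩ : ∃ s, (M.b ≤ s ∧ s ≤ M.b' ∧ Lb.c s ∉ K) ∧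
      ∀ i < s, ¬ (M.b ≤ i ∧ i ≤ M.b' ∧ Lb.c i ∉ K) :=
    ⟨Nat.find ex, Nat.find_spec ex, fun i hi => Nat.find_min ex hi⟩
  have ex' : ∃ t, s ≤ t ∧ (t = M.b' ∨ Lb.c (t + 1) ∈ K) := ⟨M.b', s2, .inl rfl⟩
  obtain ⟨t, ⟨t1, t2⟩, t3⟩ : ∃ t, (s ≤ t ∧ (t = M.b' ∨ Lb.c (t + 1) ∈ K)) ∧
      ∀ i < t, ¬ (s ≤ i ∧ (i = M.b' ∨ Lb.c (i + 1) ∈ K)) :=
    ⟨Nat.find ex', Nat.find_spec ex', fun i hi => Nat.find_min ex' hi⟩
  have t4 : t ≤ M.b' := by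
    by_contra n
    exact t3 M.b' (by omega) ⟨s2, .inl rfl⟩
  have cK : ∀ i, s ≤ i → i ≤ t → Lb.c i ∉ K := fun i h1 h2 k => by
    rcases h1.eq_or_lt with rfl | h1
    · exact s3 k
    · obtain ⟨j, rfl⟩ : ∃ j, i = j + 1 := ⟨i - 1, by omega⟩
      exact t3 j (by omega) ⟨by omega, .inr k⟩
  have nb : ∀ i, s ≤ i → i ≤ t → ∀ v ∈ M.U, isRoot v = false → adj M.N M.r (Lb.c i) v → v ∉ K :=
    fun i h1 h2 v hv r k hk =>
      ch _ (c_mem_U h (by omega) (by omega)) rfl (cK i h1 h2) (Lb.y i)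
        (y_mem_U h (by omega) (by omega)) v hv (by rintro rfl; cases r)
        (.inl ⟨rfl, by omega, by omega⟩) k (.inr rfl) (.inl hk)
  have J : ∀ v ∈ M.Jt s t, v ∈ M.U0 ∧ v ∉ K := fun v hv => by
    obtain ⟨hv, hr⟩ := mem_filter.1 hv
    have hU := mid_sub h s1 t1 t4 hv
    refine ⟨(mU0 v).2 ⟨hU, hr⟩, ?_⟩
    obtain ⟨h1, h2, h3⟩ := (mem_Mid (by omega)).1 hv
    cases v with
    | c i => simp only [pos] at h2 h3; exact cK i (by omega) (by omega)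
    | y i => cases hr
    | z i j => cases hr
    | m i =>
      simp only [pos] at h2 h3
      by_cases k : s ≤ i
      · exact nb i k (by omega) _ hU hr (.inl ⟨.inl rfl, h1⟩)
      · exact nb (i + 1) (by omega) (by omega) _ hU hr (.inl ⟨.inr rfl, h1⟩)
    | a i j =>
      simp only [pos] at h2 h3
      exact nb i (by omega) (by omega) _ hU hr (.inl ⟨rfl, h1⟩)
  refine ⟨s, t, s1, t1, t4, P, hPF, hQ, fun ψ hψ => ⟨fun n => hfix ψ hψ _ ?_,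
    fun n => hfix ψ hψ _ (t2.resolve_left n)⟩, fun ψ hψ ψ' hψ' e v hv w hw =>
      hdiff ψ hψ ψ' hψ' e v (J v hv).1 (J v hv).2 w (J w hw).1 (J w hw).2⟩
  by_contra k
  exact s4 (s - 1) (by omega) ⟨by omega, by omega, k⟩

end MD

end Pool.Agent.Work.MP_054302_co.X
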