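import Pool.Agent.Work.MP_054302_co.X.M0

namespace Pool.Agent.Work.MP_054302_co.X

open Finset Function
open scoped Classical

namespace MD

variable {V : Type} [Fintype V] [DecidableEq V] {M : MD V}

lemma M5_symm {S : V → Finset V} {x y : V} (h : Sep S x y) : Sep S y x :=
  ⟨h.1.symm, h.2.2, h.2.1⟩

lemma M5_adm (h : M.Hyp) {ω : (Lb → V) × (((Lb → V) × V) × ((Lb → V) × V))} (hω : ω ∈ M.Ob) :
    admR M.N M.r M.S M.a M.b (ω.1 (Lb.y M.b)) ω.2.1.1 ∧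
      admL M.N M.r M.S M.b' M.c (ω.1 (Lb.y M.b')) ω.2.2.1 :=
  ⟨h.l1.adm _ _ (M.mem_Dl.1 (M.mem_Ob.1 hω).2).1, h.l2.adm _ _ (M.mem_Dl.1 (M.mem_Ob.1 hω).2).2.1⟩

lemma M5_U {v : Lb} (hv : v ∈ M.U) : 2 * M.b ≤ pos v ∧ pos v ≤ 2 * M.b' := (mem_Seg.1 hv).2

lemma M5_root {a b : ℕ} {v : Lb} (hv : v ∈ Lab M.N M.r a b) : isRoot v = true := by
  rcases mem_Lab.1 hv with rfl | rfl | hv
  exacts [rfl, rfl, hv.2.1]

lemma M5_iota (h : M.Hyp) {s t : ℕ} (hs : M.b ≤ s) (hst : s ≤ t) (ht : t ≤ M.b') {v : Lb}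
    (hv : v ∈ Lab M.N M.r (M.a' s) (M.c' t)) :
    (M.iota s t v ∈ Lab M.N M.r M.a M.b ∧ pos (M.iota s t v) < 2 * M.b ∧ s = M.b) ∨
      M.iota s t v ∈ M.Mid s t ∨
      (M.iota s t v ∈ Lab M.N M.r M.b' M.c ∧ 2 * M.b' < pos (M.iota s t v) ∧ t = M.b') := by
  have h1 := h.hab
  have h2 := h.hb
  have h3 := h.hb'
  have h4 := h.hbc
  unfold iota
  split_ifs with c1 c2
  · refine Or.inr (Or.inl ((mem_Mid (by omega)).2 ?_))
    have := c1.1
    simp only [IsReal, pos]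
    omega
  · refine Or.inr (Or.inl ((mem_Mid (by omega)).2 ?_))
    have := c2.1
    simp only [IsReal, pos]
    omega
  · rcases mem_Lab.1 hv with e | e | ⟨e1, e2, e3, e4⟩
    · by_cases c : s = M.b
      · rw [a', if_pos c] at e
        exact Or.inl ⟨mem_Lab.2 (Or.inl e), by rw [e, pos]; omega, c⟩
      · rw [a', if_neg c] at e
        exact absurd ⟨c, e⟩ c1
    · by_cases c : t = M.b'
      · rw [c', if_pos c] at e
        exact Or.inr (Or.inr ⟨mem_Lab.2 (Or.inr (Or.inl e)), by rw [e, pos]; omega, c⟩)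
      · rw [c', if_neg c] at e
        exact absurd ⟨c, e⟩ c2
    · have e5 : (s = M.b ∧ 2 * M.a < pos v) ∨ (s ≠ M.b ∧ 2 * (s - 1) < pos v) := by
        unfold a' at e3
        split_ifs at e3 with c
        exacts [Or.inl ⟨c, e3⟩, Or.inr ⟨c, e3⟩]
      have e6 : (t = M.b' ∧ pos v < 2 * M.c) ∨ (t ≠ M.b' ∧ pos v < 2 * (t + 1)) := by
        unfold c' at e4
        split_ifs at e4 with c
        exacts [Or.inl ⟨c, e4⟩, Or.inr ⟨c, e4⟩]
      by_cases d1 : pos v < 2 * M.b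
      · exact Or.inl ⟨mem_Lab.2 (Or.inr (Or.inr ⟨e1, e2, by omega, d1⟩)), d1, by omega⟩
      by_cases d2 : 2 * M.b' < pos v
      · exact Or.inr (Or.inr ⟨mem_Lab.2 (Or.inr (Or.inr ⟨e1, e2, d2, by omega⟩)), d2, by omega⟩)
      exact Or.inr (Or.inl ((mem_Mid (by omega)).2 ⟨e1, by omega, by omega⟩))

lemma M5_inj (h : M.Hyp) {s t : ℕ} (hs : M.b ≤ s) (hst : s ≤ t) {u v : Lb}
    (hu : isRoot u = true) (hv : isRoot v = true) (e : M.iota s t u = M.iota s t v) : u = v := by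
  have h2 := h.hb
  unfold iota at e
  split_ifs at e with c1 c2 c3 c4 c5 c6 c7 c8
  · rw [c1.2, c2.2]
  · injection e with e
    omega
  · rw [← e] at hv
    exact absurd hv (by simp [isRoot])
  · injection e with e
    omega
  · rw [c4.2, c6.2]
  · rw [← e] at hv
    exact absurd hv (by simp [isRoot])
  · rw [e] at hu
    exact absurd hu (by simp [isRoot])
  · rw [e] at hu
    exact absurd hu (by simp [isRoot])
  · exact e

/-- On `Lab a b` the map `Phi` is the first stem, on `U` it is `ω.1`, on `Lab b' c` the second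
stem (admissibility identifies the values at `y b` and `y b'`). -/
lemma phi_vals (h : M.Hyp) {ω : (Lb → V) × (((Lb → V) × V) × ((Lb → V) × V))} (hω : ω ∈ M.Ob) :
    (∀ v ∈ Lab M.N M.r M.a M.b, M.Phi ω v = ω.2.1.1 v) ∧ (∀ v ∈ M.U, M.Phi ω v = ω.1 v) ∧
      ∀ v ∈ Lab M.N M.r M.b' M.c, M.Phi ω v = ω.2.2.1 v := by
  have h1 := h.hab
  have h2 := h.hbb
  have h4 := h.hbc
  obtain ⟨a1, a2⟩ := M5_adm h hω
  refine ⟨fun v hv => ?_, fun v hv => ?_, fun v hv => ?_⟩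
  · rcases mem_Lab.1 hv with rfl | rfl | ⟨-, -, -, e⟩
    · exact if_pos (by rw [pos]; omega)
    · rw [Phi, if_neg (by rw [pos]; omega), if_pos (by rw [pos]; omega), a1.1]
    · exact if_pos e
  · have := M5_U hv
    rw [Phi, if_neg (by omega), if_pos this.2]
  · rcases mem_Lab.1 hv with rfl | rfl | ⟨-, -, e, -⟩
    · rw [Phi, if_neg (by rw [pos]; omega), if_pos (by rw [pos]), a2.1]
    · rw [Phi, if_neg (by rw [pos]; omega), if_neg (by rw [pos]; omega)]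
    · rw [Phi, if_neg (by omega), if_neg (by omega)]

/-- Inside a stem: admissibility. Inside `U`: `Av`. Stem against `U`: `Av` and `Cmp`, for the
label `y b` resp. `y b'` admissibility. Stem against stem: `Cmp`. -/
lemma phi_sep (h : M.Hyp) {ω : (Lb → V) × (((Lb → V) × V) × ((Lb → V) × V))} (hω : ω ∈ M.Ob) :
    PSep M.S (Lab M.N M.r M.a M.b ∪ M.U ∪ Lab M.N M.r M.b' M.c) (M.Phi ω) := by
  obtain ⟨a1, a2⟩ := M5_adm h hω
  obtain ⟨p1, p2, p3⟩ := phi_vals h hω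
  obtain ⟨hG, hD⟩ := M.mem_Ob.1 hω
  have hA := (M.mem_GH.1 hG).2.2.2.2
  obtain ⟨l1, l2, -, -, -, -, c1, c2, c3⟩ := M.mem_Dl.1 hD
  have yb := y_mem_U h le_rfl h.hbb
  have yb' := y_mem_U h h.hbb le_rfl
  have m1 : ∀ u ∈ Lab M.N M.r M.a M.b, u ≠ Lb.y M.b → ω.2.1.1 u ∈ M.s1 ω.2.1.1 := fun u hu e =>
    mem_image_of_mem _ (mem_erase.2 ⟨e, hu⟩)
  have m2 : ∀ u ∈ Lab M.N M.r M.b' M.c, u ≠ Lb.y M.b' → ω.2.2.1 u ∈ M.s2 ω.2.2.1 := fun u hu e =>
    mem_image_of_mem _ (mem_erase.2 ⟨e, hu⟩)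
  have nh : ∀ (A : Finset V) (x y : V), x ∉ M.hat A → y ∈ A → x ≠ y ∧ x ∉ M.S y :=
    fun A x y hx hy => ⟨fun e => hx (mem_hat.2 ⟨y, hy, Or.inl e⟩),
      fun e => hx (mem_hat.2 ⟨y, hy, Or.inr e⟩)⟩
  have uu : ∀ u ∈ M.U, ∀ v ∈ M.U, u ≠ v → ω.1 v ≠ ω.1 u ∧ ω.1 v ∉ M.S (ω.1 u) :=
    fun u hu v hv e => nh {ω.1 u} _ _
      (fun z => hA u hu v hv e (mem_union_left _ (mem_union_left _ z))) (mem_singleton_self _)
  have k1 : ∀ u ∈ Lab M.N M.r M.a M.b, ∀ v ∈ M.U, u ≠ v → u ≠ Lb.y M.b →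
      Sep M.S (M.Phi ω u) (M.Phi ω v) := fun u hu v hv e e' => by
    by_cases c : v = Lb.y M.b
    · have hv' : v ∈ Lab M.N M.r M.a M.b := mem_Lab.2 (Or.inr (Or.inl c))
      rw [p1 u hu, p1 v hv']
      exact a1.2 u hu v hv' e
    · have z := nh (M.s1 ω.2.1.1) (ω.1 v) _ (fun z => hA _ yb v hv (Ne.symm c)
        (mem_union_left _ (mem_union_right _ (mem_biUnion.2 ⟨_, l1, z⟩)))) (m1 u hu e')
      rw [p1 u hu, p2 v hv]
      exact ⟨z.1.symm, disjoint_left.1 (c1 v hv).1 (m1 u hu e'), z.2⟩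
  have k2 : ∀ u ∈ Lab M.N M.r M.b' M.c, ∀ v ∈ M.U, u ≠ v → u ≠ Lb.y M.b' →
      Sep M.S (M.Phi ω u) (M.Phi ω v) := fun u hu v hv e e' => by
    by_cases c : v = Lb.y M.b'
    · have hv' : v ∈ Lab M.N M.r M.b' M.c := mem_Lab.2 (Or.inl c)
      rw [p3 u hu, p3 v hv']
      exact a2.2 u hu v hv' e
    · have z := nh (M.s2 ω.2.2.1) (ω.1 v) _ (fun z => hA _ yb' v hv (Ne.symm c)
        (mem_union_right _ (mem_biUnion.2 ⟨_, l2, z⟩))) (m2 u hu e')
      rw [p3 u hu, p2 v hv]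
      exact ⟨z.1.symm, disjoint_left.1 (c1 v hv).2 (m2 u hu e'), z.2⟩
  have k3 : ∀ u ∈ Lab M.N M.r M.a M.b, ∀ v ∈ Lab M.N M.r M.b' M.c, u ≠ Lb.y M.b →
      v ≠ Lb.y M.b' → Sep M.S (M.Phi ω u) (M.Phi ω v) := fun u hu v hv e e' => by
    have z := nh _ _ _ (disjoint_left.1 c2 (m1 u hu e)) (m2 v hv e')
    rw [p1 u hu, p3 v hv]
    exact ⟨z.1, z.2, (nh _ _ _ (disjoint_left.1 c3 (m2 v hv e')) (m1 u hu e)).2⟩
  have cl : ∀ u ∈ Lab M.N M.r M.a M.b ∪ M.U ∪ Lab M.N M.r M.b' M.c,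
      (u ∈ Lab M.N M.r M.a M.b ∧ u ≠ Lb.y M.b) ∨ u ∈ M.U ∨
        (u ∈ Lab M.N M.r M.b' M.c ∧ u ≠ Lb.y M.b') := fun u hu => by
    by_cases c : u ∈ M.U
    · exact Or.inr (Or.inl c)
    rcases mem_union.1 hu with hu | hu
    · exact Or.inl ⟨(mem_union.1 hu).resolve_right c, fun e => c (e ▸ yb)⟩
    · exact Or.inr (Or.inr ⟨hu, fun e => c (e ▸ yb')⟩)
  intro u hu v hv e
  rcases cl u hu with hu | hu | hu <;> rcases cl v hv with hv | hv | hv
  · rw [p1 u hu.1, p1 v hv.1]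
    exact a1.2 u hu.1 v hv.1 e
  · exact k1 u hu.1 v hv e hu.2
  · exact k3 u hu.1 v hv.1 hu.2 hv.2
  · exact M5_symm (k1 v hv.1 u hu e.symm hv.2)
  · rw [p2 u hu, p2 v hv]
    exact ⟨(uu u hu v hv e).1.symm, (uu v hv u hu e.symm).2, (uu u hu v hv e).2⟩
  · exact M5_symm (k2 v hv.1 u hu e.symm hv.2)
  · exact M5_symm (k3 v hv.1 u hu.1 hv.2 hu.2)
  · exact k2 u hu.1 v hv e hu.2
  · rw [p3 u hu.1, p3 v hv.1]
    exact a2.2 u hu.1 v hv.1 e

/-- `iota` maps the new label set injectively into the old ones. -/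
theorem wn_sep (h : M.Hyp) {ω : (Lb → V) × (((Lb → V) × V) × ((Lb → V) × V))} (hω : ω ∈ M.Ob)
    {s t : ℕ} (hs : M.b ≤ s) (hst : s ≤ t) (ht : t ≤ M.b') :
    PSep M.S (Lab M.N M.r (M.a' s) (M.c' t)) (M.wn ω s t) := by
  have k : ∀ v ∈ Lab M.N M.r (M.a' s) (M.c' t),
      M.iota s t v ∈ Lab M.N M.r M.a M.b ∪ M.U ∪ Lab M.N M.r M.b' M.c := fun v hv => by
    rcases M5_iota h hs hst ht hv with e | e | e
    · exact mem_union_left _ (mem_union_left _ e.1)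
    · exact mem_union_left _ (mem_union_right _ (mid_sub h hs hst ht e))
    · exact mem_union_right _ e.1
  exact fun u hu v hv e => phi_sep h hω _ (k u hu) _ (k v hv)
    fun z => e (M5_inj h hs hst (M5_root hu) (M5_root hv) z)

theorem pt_mem (h : M.Hyp) {ω : (Lb → V) × (((Lb → V) × V) × ((Lb → V) × V))} (hω : ω ∈ M.Ob)
    {s t : ℕ} (hs : M.b ≤ s) (hst : s ≤ t) (ht : t ≤ M.b') :
    ((M.pt ω s t).1, M.wn ω s t (Lb.y (M.a' s))) ∈ M.H ∧
      ((M.pt ω s t).2, M.wn ω s t (Lb.y (M.c' t))) ∈ M.H := by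
  have h1 := h.hab
  have h2 := h.hb
  have h3 := h.hb'
  have h4 := h.hbc
  obtain ⟨p1, p2, p3⟩ := phi_vals h hω
  obtain ⟨hG, hD⟩ := M.mem_Ob.1 hω
  have hE := (mem_Hom.1 (M.mem_GH.1 hG).1).2.2
  obtain ⟨-, -, d1, -, d2, -⟩ := M.mem_Dl.1 hD
  constructor
  · change ((if s = M.b then ω.2.1.2 else ω.1 (Lb.c (s - 1))), _) ∈ M.H
    by_cases c : s = M.b
    · rw [a', wn, iota, if_pos c, if_pos c, if_neg fun z => z.1 c,
        if_neg fun z => by have := Lb.y.inj z.2; omega, p1 _ (mem_Lab.2 (Or.inl rfl))]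
      exact d1
    · have m := m_mem_U h (i := s - 1) (by omega) (by omega)
      rw [a', wn, iota, if_neg c, if_neg c, if_pos ⟨c, rfl⟩, p2 _ m]
      exact hE _ (c_mem_U h (by omega) (by omega)) _ m ⟨Or.inl rfl, by omega, by omega⟩
  · change ((if t = M.b' then ω.2.2.2 else ω.1 (Lb.c (t + 1))), _) ∈ M.H
    by_cases c : t = M.b'
    · rw [c', wn, iota, if_pos c, if_pos c, if_neg fun z => by have := Lb.y.inj z.2; omega,
        if_neg fun z => z.1 c, p3 _ (mem_Lab.2 (Or.inr (Or.inl rfl)))]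
      exact d2
    · have m := m_mem_U h (i := t) (by omega) (by omega)
      rw [c', wn, iota, if_neg c, if_neg c, if_neg fun z => by have := Lb.y.inj z.2; omega,
        if_pos ⟨c, rfl⟩, p2 _ m]
      exact hE _ (c_mem_U h (by omega) (by omega)) _ m ⟨Or.inr rfl, by omega, by omega⟩

/-- The key determines the new labelling on the new label set. -/
theorem wn_of_key (h : M.Hyp) {ω ω' : (Lb → V) × (((Lb → V) × V) × ((Lb → V) × V))}
    {s t : ℕ} (hs : M.b ≤ s) (hst : s ≤ t) (ht : t ≤ M.b') (hk : M.key ω' s t = M.key ω s t) :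
    ∀ v ∈ Lab M.N M.r (M.a' s) (M.c' t), M.wn ω' s t v = M.wn ω s t v := by
  intro v hv
  have h2 := h.hbb
  simp only [key, Prod.mk.injEq] at hk
  obtain ⟨k1, k2, k3⟩ := hk
  unfold wn Phi
  rcases M5_iota h hs hst ht hv with e | e | e
  · rw [if_pos e.2.2, if_pos e.2.2] at k2
    rw [if_pos e.2.1, if_pos e.2.1, k2]
  · have z := M5_U (mid_sub h hs hst ht e)
    have k := congrFun k1 (M.iota s t v)
    rw [if_pos e, if_pos e] at k
    have z' := not_lt.2 z.1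
    rw [if_neg z', if_neg z', if_pos z.2, if_pos z.2, k]
  · rw [if_pos e.2.2, if_pos e.2.2] at k3
    have z := not_le.2 e.2.1
    have z' : ¬ pos (M.iota s t v) < 2 * M.b := by omega
    rw [if_neg z', if_neg z', if_neg z, if_neg z, k3]

end MD

end Pool.Agent.Work.MP_054302_co.X
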