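import Pool.Agent.Work.MP_054302_co.X.M0

namespace Pool.Agent.Work.MP_054302_co.X

open Finset Function
open scoped Classical

namespace MD

variable {V : Type} [Fintype V] [DecidableEq V] {M : MD V}

lemma M6_root_pos {N : ℕ} {r : ℕ → ℕ} {u v : Lb} (h : adj N r u v) (hv : isRoot v = true) :
    pos u = pos v := by
  rcases h with h | h <;> cases u <;> cases v <;> simp_all [Ed, isRoot, pos]

lemma M6_mem_Jt {s t : ℕ} (hs : 1 ≤ s) {v : Lb} : v ∈ M.Jt s t ↔ (IsReal M.N M.r v ∧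
    (2 * s ≤ pos v ∨ (s ≠ M.b ∧ 2 * s ≤ pos v + 1)) ∧
    (pos v ≤ 2 * t ∨ (t ≠ M.b' ∧ pos v ≤ 2 * t + 1))) ∧ isRoot v = false := by
  rw [Jt, mem_filter, mem_Mid hs]

lemma M6_mem_ite {p : Prop} [Decidable p] {A : Finset Lb} {v : Lb} :
    v ∈ (if p then A else ∅) ↔ p ∧ v ∈ A := by
  by_cases hp : p
  · simp only [hp, if_true, true_and]
  · simp only [hp, if_false, false_and, notMem_empty]

lemma M6_a' (M : MD V) (s : ℕ) :
    (s = M.b ∧ M.a' s = M.a) ∨ (s ≠ M.b ∧ M.a' s = s - 1) := by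
  by_cases hs : s = M.b
  · exact Or.inl ⟨hs, if_pos hs⟩
  · exact Or.inr ⟨hs, if_neg hs⟩

lemma M6_c' (M : MD V) (t : ℕ) :
    (t = M.b' ∧ M.c' t = M.c) ∨ (t ≠ M.b' ∧ M.c' t = t + 1) := by
  by_cases ht : t = M.b'
  · exact Or.inl ⟨ht, if_pos ht⟩
  · exact Or.inr ⟨ht, if_neg ht⟩

lemma nn_split (h : M.Hyp) {s t : ℕ} (hs : M.b ≤ s) (hst : s ≤ t) (ht : t ≤ M.b') :
    Nn M.N M.r (M.a' s) (M.c' t) =
      ((if s = M.b then Nn M.N M.r M.a M.b else ∅) ∪
        (if t = M.b' then Nn M.N M.r M.b' M.c else ∅)) ∪ M.Jt s t := by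
  have h1 := h.hab
  have h2 := h.hb
  have h3 := h.hbc
  have h4 := M6_a' M s
  have h5 := M6_c' M t
  ext v
  rw [mem_union, mem_union, M6_mem_ite, M6_mem_ite, M6_mem_Jt (by omega), mem_Nn, mem_Nn, mem_Nn]
  constructor
  · rintro ⟨k1, k2, k3, k4⟩
    by_cases l1 : s = M.b ∧ pos v < 2 * M.b
    · exact Or.inl (Or.inl ⟨l1.1, k1, k2, by omega, l1.2⟩)
    · by_cases l2 : t = M.b' ∧ 2 * M.b' < pos v
      · exact Or.inl (Or.inr ⟨l2.1, k1, k2, l2.2, by omega⟩)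
      · exact Or.inr ⟨⟨k1, by omega, by omega⟩, k2⟩
  · rintro ((⟨k0, k1, k2, k3, k4⟩ | ⟨k0, k1, k2, k3, k4⟩) | ⟨⟨k1, k3, k4⟩, k2⟩)
    · exact ⟨k1, k2, by omega, by omega⟩
    · exact ⟨k1, k2, by omega, by omega⟩
    · exact ⟨k1, k2, by omega, by omega⟩

lemma M6_avoid {P : Finset (Lb → V)} {J : Finset Lb} {Z : Finset V} (hc : Z.card < P.card)
    (hd : ∀ ψ ∈ P, ∀ ψ' ∈ P, ψ ≠ ψ' → ∀ v ∈ J, ∀ w ∈ J, ψ v ≠ ψ' w) :
    ∃ ψ ∈ P, ∀ v ∈ J, ψ v ∉ Z := by
  by_contra hn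
  have hx : ∀ ψ : Lb → V, ∃ v : Lb, ψ ∈ P → v ∈ J ∧ ψ v ∈ Z := fun ψ => by
    by_cases hψ : ψ ∈ P
    · by_contra k
      exact hn ⟨ψ, hψ, fun v hv hz => k ⟨v, fun _ => ⟨hv, hz⟩⟩⟩
    · exact ⟨Lb.c 0, fun k => absurd k hψ⟩
  choose f hf using hx
  obtain ⟨ψ, h1, ψ', h2, h3, h4⟩ := exists_ne_map_eq_of_card_lt_of_maps_to hc
    (f := fun ψ => ψ (f ψ)) fun ψ hψ => (hf ψ hψ).2
  exact hd ψ h1 ψ' h2 h3 _ (hf ψ h1).1 _ (hf ψ' h2).1 h4

lemma M6_upd_root {w : Lb → V} {i j : ℕ} {x y : V} {v : Lb} (hv : isRoot v = true) :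
    update (update w (Lb.c i) x) (Lb.c j) y v = w v := by
  have k : ∀ l, v ≠ Lb.c l := fun l e => by
    rw [e] at hv
    exact Bool.noConfusion hv
  rw [update_of_ne (k j), update_of_ne (k i)]

lemma M6_upd_left {w : Lb → V} {i j : ℕ} {x y : V} (hij : i < j) :
    update (update w (Lb.c i) x) (Lb.c j) y (Lb.c i) = x := by
  rw [update_of_ne (fun e => hij.ne (Lb.c.inj e)), update_self]

lemma M6_wn (ω : (Lb → V) × (((Lb → V) × V) × ((Lb → V) × V))) {s t : ℕ} {v : Lb}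
    (h1 : 2 * M.a' s < pos v) (h2 : pos v < 2 * M.c' t) : M.wn ω s t v = M.Phi ω v := by
  have h4 := M6_a' M s
  have h5 := M6_c' M t
  have k1 : ¬ (s ≠ M.b ∧ v = Lb.y (s - 1)) := fun k => by
    have : pos v = 2 * (s - 1) := by rw [k.2]; rfl
    have := k.1
    omega
  have k2 : ¬ (t ≠ M.b' ∧ v = Lb.y (t + 1)) := fun k => by
    have : pos v = 2 * (t + 1) := by rw [k.2]; rfl
    have := k.1
    omega
  rw [wn, iota, if_neg k1, if_neg k2]

/-- `rob_ext` with `J = Jt s t`: given `Z`, some `ψ ∈ P` avoids `Z` on `Jt` because `B < Q`; put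
`g' = ψ` on `Jt`. The two old pieces are robust over `g'` by `mem_Dl` for `ψ`, `rob_congr`,
`nn_boundary`, `rob_mono`, and are joined by `rob_union` (no edges between them: `adj_pos`). -/
theorem good_of_out (h : M.Hyp) {ω : (Lb → V) × (((Lb → V) × V) × ((Lb → V) × V))}
    (hω : ω ∈ M.Ob) {s t : ℕ} (ho : M.Out ω s t) :
    Good M.N M.r M.G M.B (M.a' s) (M.c' t) (M.wn ω s t) (M.pt ω s t).1 (M.pt ω s t).2 := by
  obtain ⟨hs, hst, ht, P, hP, hQ, hk, hd⟩ := ho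
  have h1 := h.hab
  have h2 := h.hb
  have h3 := h.hbc
  have h3' := h.hb'
  have h4 := M6_a' M s
  have h5 := M6_c' M t
  have hs1 : 1 ≤ s := by omega
  have hac : M.a' s < M.c' t := by omega
  have hsp := nn_split h hs hst ht
  have pc : ∀ i, pos (Lb.c i) = 2 * i := fun _ => rfl
  unfold Good
  generalize hg : update (update (M.wn ω s t) (Lb.c (M.a' s)) (M.pt ω s t).1) (Lb.c (M.c' t))
    (M.pt ω s t).2 = g
  have gL : g (Lb.c (M.a' s)) = (M.pt ω s t).1 := by rw [← hg, M6_upd_left hac]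
  have gR : g (Lb.c (M.c' t)) = (M.pt ω s t).2 := by rw [← hg, update_self]
  have gT : ∀ v, isRoot v = true → 2 * M.a' s < pos v → pos v < 2 * M.c' t → g v = M.Phi ω v :=
    fun v k1 k2 k3 => by rw [← hg, M6_upd_root k1, M6_wn ω k2 k3]
  generalize hS1 : (if s = M.b then Nn M.N M.r M.a M.b else ∅) = S1 at hsp
  generalize hS2 : (if t = M.b' then Nn M.N M.r M.b' M.c else ∅) = S2 at hsp
  have m1 : ∀ v, v ∈ S1 ↔ s = M.b ∧ v ∈ Nn M.N M.r M.a M.b := fun v => by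
    rw [← hS1, M6_mem_ite]
  have m2 : ∀ v, v ∈ S2 ↔ t = M.b' ∧ v ∈ Nn M.N M.r M.b' M.c := fun v => by
    rw [← hS2, M6_mem_ite]
  have p1 : ∀ v ∈ S1, pos v < 2 * M.b := fun v hv => (mem_Nn.1 ((m1 v).1 hv).2).2.2.2
  have p2 : ∀ v ∈ S2, 2 * M.b' < pos v := fun v hv => (mem_Nn.1 ((m2 v).1 hv).2).2.2.1
  have JU : ∀ v ∈ M.Jt s t, v ∈ M.U := fun v hv => mid_sub h hs hst ht (mem_filter.1 hv).1
  have pJ : ∀ v ∈ M.Jt s t, 2 * M.b ≤ pos v ∧ pos v ≤ 2 * M.b' := fun v hv =>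
    (mem_Seg.1 (JU v hv)).2
  have cJt : ∀ i, s ≤ i → i ≤ t → Lb.c i ∈ M.Jt s t := fun i k1 k2 => (M6_mem_Jt hs1).2
    ⟨⟨⟨by omega, by omega⟩, by rw [pc]; omega, by rw [pc]; omega⟩, rfl⟩
  have d1 : Disjoint S1 (M.Jt s t) := disjoint_left.2 fun v k1 k2 => by
    have := p1 v k1
    have := pJ v k2
    omega
  have d2 : Disjoint S2 (M.Jt s t) := disjoint_left.2 fun v k1 k2 => by
    have := p2 v k1
    have := pJ v k2
    omega
  have cJ : (M.Jt s t).card + S1.card ≤ M.u := by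
    rw [← card_union_of_disjoint d1.symm]
    refine card_le_card fun v hv => mem_VT.2 ?_
    rcases mem_union.1 hv with hv | hv
    · exact (mem_Seg.1 (JU v hv)).1
    · exact (mem_Nn.1 ((m1 v).1 hv).2).1
  rw [hsp]
  refine rob_ext adj_symm (disjoint_union_left.2 ⟨d1, d2⟩) fun Z hZ => ?_
  obtain ⟨ψ, hψ, hz⟩ := M6_avoid (lt_of_le_of_lt hZ (lt_of_lt_of_le h.hQ hQ)) hd
  obtain ⟨f1, f2, f3⟩ := M.mem_Fib.1 (hP hψ)
  obtain ⟨-, -, -, e1, -, e2, -⟩ := M.mem_Dl.1 f2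
  obtain ⟨kL, kR⟩ := hk ψ hψ
  obtain ⟨g', gJ, gN⟩ : ∃ g' : Lb → V, (∀ v ∈ M.Jt s t, g' v = ψ v) ∧
      ∀ v, v ∉ M.Jt s t → g' v = g v :=
    ⟨fun v => if v ∈ M.Jt s t then ψ v else g v, fun v hv => if_pos hv, fun v hv => if_neg hv⟩
  have rJ : ∀ v, isRoot v = true → v ∉ M.Jt s t := fun v k1 k2 => by
    rw [(mem_filter.1 k2).2] at k1
    exact Bool.noConfusion k1
  refine ⟨g', gN, fun u hu v hv e => ?_, fun v hv => ?_, fun u hu v hv e => ?_, ?_⟩
  · rw [gJ u hu, gJ v hv] at e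
    exact gh_inj f1 (JU u hu) (JU v hv) e
  · rw [gJ v hv]
    exact hz v hv
  · have key : v ∈ M.U ∧ g' v = ψ v := by
      by_cases hvJ : v ∈ M.Jt s t
      · exact ⟨JU v hvJ, gJ v hvJ⟩
      · have q1 := adj_pos e
        have q2 := pJ u hu
        rw [gN v hvJ]
        rcases nn_boundary (a := M.a' s) (b := M.c' t) (by rw [hsp]; exact mem_union_right _ hu)
          (by rw [hsp, mem_union, not_or]; exact ⟨hv, hvJ⟩) e with k | k | ⟨k1, k2, k3, k4⟩
        · rw [k, pc] at q1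
          have l1 : s ≠ M.b ∧ M.a' s = s - 1 := by omega
          rw [k, gL, l1.2, kL l1.1]
          exact ⟨c_mem_U h (by omega) (by omega), if_neg l1.1⟩
        · rw [k, pc] at q1
          have l1 : t ≠ M.b' ∧ M.c' t = t + 1 := by omega
          rw [k, gR, l1.2, kR l1.1]
          exact ⟨c_mem_U h (by omega) (by omega), if_neg l1.1⟩
        · have q3 := M6_root_pos e k2
          have vU : v ∈ M.U := mem_Seg.2 ⟨k1, by omega, by omega⟩
          rw [gT v k2 k3 k4, f3 v (mem_filter.2 ⟨vU, k2⟩), Phi, if_neg (by omega),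
            if_pos (by omega)]
          exact ⟨vU, rfl⟩
    rw [gJ u hu, key.2]
    exact hom_adj h (M.mem_GH.1 f1).1 u (JU u hu) v key.1 e
  · refine rob_union (disjoint_left.2 fun v k1 k2 => ?_) (fun u hu v hv => ?_) ?_ ?_
    · have := p1 v k1
      have := p2 v k2
      omega
    · have := p1 u hu
      have := p2 v hv
      constructor <;> intro e <;> have := adj_pos e <;> omega
    · by_cases l1 : s = M.b
      · have l2 : M.a' s = M.a := if_pos l1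
        rw [← hS1, if_pos l1]
        refine rob_mono (by have := h.hB1; omega) (rob_congr (fun u hu v hv e => ?_) e1)
        rcases nn_boundary hu hv e with k | k | ⟨k1, k2, k3, k4⟩
        · rw [k, M6_upd_left h1, gN _ fun l => by have := pJ _ l; rw [pc] at this; omega, ← l2, gL]
          exact (if_pos l1).symm
        · rw [k, update_self, gJ _ (cJt M.b l1.le (by omega))]
        · rw [M6_upd_root k2, gN v (rJ v k2), gT v k2 (by omega) (by omega), Phi, if_pos k4]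
      · rw [← hS1, if_neg l1]
        exact rob_empty _ _
    · by_cases l1 : t = M.b'
      · have l2 : M.c' t = M.c := if_pos l1
        rw [← hS2, if_pos l1]
        refine rob_mono (by have := h.hB2; omega) (rob_congr (fun u hu v hv e => ?_) e2)
        rcases nn_boundary hu hv e with k | k | ⟨k1, k2, k3, k4⟩
        · rw [k, M6_upd_left h3, gJ _ (cJt M.b' (by omega) l1.ge)]
        · rw [k, update_self, gN _ fun l => by have := pJ _ l; rw [pc] at this; omega, ← l2, gR]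
          exact (if_pos l1).symm
        · rw [M6_upd_root k2, gN v (rJ v k2), gT v k2 (by omega) (by omega), Phi,
            if_neg (by omega), if_neg (by omega)]
      · rw [← hS2, if_neg l1]
        exact rob_empty _ _

end MD

end Pool.Agent.Work.MP_054302_co.X
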