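import Pool.Agent.Work.MP_054302_co.X.M0

namespace Pool.Agent.Work.MP_054302_co.X

open Finset Function
open scoped Classical

namespace MD

variable {V : Type} [Fintype V] [DecidableEq V] {M : MD V}

lemma M7_c_mem (h : M.Hyp) {s t : ℕ} (hs : M.b ≤ s) (hst : s ≤ t) (ht : t ≤ M.b') :
    Lb.c s ∈ M.Mid s t := by
  have h1 := h.hb
  have h2 := h.hb'
  refine (mem_Mid (by omega)).2 ⟨⟨by omega, by omega⟩, Or.inl ?_, Or.inl ?_⟩
  · exact le_rfl
  · exact Nat.mul_le_mul_left 2 hst

lemma M7_y_mem (h : M.Hyp) {s t i : ℕ} (hs : M.b ≤ s) (hsi : s ≤ i) (hit : i ≤ t)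
    (ht : t ≤ M.b') : Lb.y i ∈ M.Mid s t := by
  have h1 := h.hb
  have h2 := h.hb'
  refine (mem_Mid (by omega)).2 ⟨⟨by omega, by omega⟩, Or.inl ?_, Or.inl ?_⟩
  · exact Nat.mul_le_mul_left 2 hsi
  · exact Nat.mul_le_mul_left 2 hit

lemma M7_left_not (h : M.Hyp) {s t : ℕ} (hs : M.b ≤ s) : Lb.c (s - 1) ∉ M.Mid s t := by
  have h1 := h.hb
  intro hm
  have h2 := ((mem_Mid (by omega)).1 hm).2.1
  have h3 : pos (Lb.c (s - 1)) = 2 * (s - 1) := rfl
  rw [h3] at h2
  omega

lemma M7_right_not (h : M.Hyp) {s t : ℕ} (hs : M.b ≤ s) : Lb.c (t + 1) ∉ M.Mid s t := by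
  have h1 := h.hb
  intro hm
  have h2 := ((mem_Mid (by omega)).1 hm).2.2
  have h3 : pos (Lb.c (t + 1)) = 2 * (t + 1) := rfl
  rw [h3] at h2
  omega

lemma M7_half (h : M.Hyp) (Ls : Finset (Lb → V)) (D : ℕ) (hD : Ls.card ≤ D) (l : Lb) :
    (Ls.biUnion fun w => (nbX M.H (w l)).image (Prod.mk w)).card ≤ D * M.Δ := by
  refine (card_biUnion_le_card_mul _ _ M.Δ fun w _ => card_image_le.trans ?_).trans
    (Nat.mul_le_mul_right _ hD)
  exact (host_deg_le h.hdeg (fun p hp => (h.host.sub p hp).1) _).1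

lemma M7_mem_half {Ls : Finset (Lb → V)} {l : Lb} {δ : (Lb → V) × V} (h1 : δ.1 ∈ Ls)
    (h2 : (δ.2, δ.1 l) ∈ M.H) :
    δ ∈ Ls.biUnion fun w => (nbX M.H (w l)).image (Prod.mk w) :=
  mem_biUnion.2 ⟨δ.1, h1, mem_image.2 ⟨δ.2, mem_nbX.2 h2, rfl⟩⟩

lemma M7_fibre {α β γ : Type} (K : Finset (α × β × γ)) (f : α) (A : Finset β) (B : Finset γ)
    (hK : ∀ k ∈ K, k.1 = f → k.2.1 ∈ A ∧ k.2.2 ∈ B) :
    (K.filter fun k => k.1 = f).card ≤ A.card * B.card := by
  rw [← card_product]
  refine card_le_card_of_injOn Prod.snd (fun k hk => ?_) fun k hk k' hk' e => ?_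
  · have hk' := mem_filter.1 (mem_coe.1 hk)
    exact mem_coe.2 (mem_product.2 (hK k hk'.1 hk'.2))
  · exact Prod.ext ((mem_filter.1 (mem_coe.1 hk)).2.trans (mem_filter.1 (mem_coe.1 hk')).2.symm) e

/-- First components: `ext_ub'` on `Mid` with `S = {c s}` and `T = Xs`. Given the first component,
the second lies in `L1` of its value at `y b` if `s = b` and is constant otherwise; same for the
third. -/
theorem card_keys (h : M.Hyp) {s t : ℕ} (hs : M.b ≤ s) (hst : s ≤ t) (ht : t ≤ M.b') :
    (M.Ob.image fun ω => M.key ω s t).card ≤ M.n * M.Δ ^ ((M.Mid s t).card - 1) *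
      (if s = M.b then M.D1 else 1) * (if t = M.b' then M.D2 else 1) := by
  have hc := M7_c_mem h hs hst ht
  have hsub := mid_sub h hs hst ht
  have h1 : ((M.Ob.image fun ω => M.key ω s t).image Prod.fst).card ≤
      M.n * M.Δ ^ ((M.Mid s t).card - 1) := by
    have key : ∀ f ∈ (M.Ob.image fun ω => M.key ω s t).image Prod.fst,
        ∃ φ ∈ Hom M.N M.r M.H M.Xs M.Ys M.U M.v0,
          f = fun v => if v ∈ M.Mid s t then φ v else M.v0 := by
      intro f hf
      obtain ⟨k, hk, rfl⟩ := mem_image.1 hf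
      obtain ⟨ω, hω, rfl⟩ := mem_image.1 hk
      exact ⟨ω.1, (M.mem_GH.1 (M.mem_Ob.1 hω).1).1, rfl⟩
    have h2 := ext_ub' h.hdeg (conn_Mid h hs hst ht) (singleton_subset_iff.2 hc)
      (singleton_nonempty _) ((M.Ob.image fun ω => M.key ω s t).image Prod.fst)
      (fun f hf u hu v hv huv => by
        obtain ⟨φ, hφ, rfl⟩ := key f hf
        simp only [hu, hv, if_true]
        exact hom_adj h hφ u (hsub hu) v (hsub hv) huv)
      (fun f hf g hg v hv => by
        obtain ⟨φ, -, rfl⟩ := key f hf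
        obtain ⟨ψ, -, rfl⟩ := key g hg
        simp only [hv, if_false])
      (fun f => f (Lb.c s)) (M.Xs ∪ M.Ys)
      (fun f hf => by
        obtain ⟨φ, hφ, rfl⟩ := key f hf
        simp only [hc, if_true]
        exact hom_mem h hφ _ (hsub hc))
      (fun f _ g _ e v hv => by rw [mem_singleton.1 hv]; exact e)
    rw [card_singleton] at h2
    exact h2.trans (Nat.mul_le_mul_right _ (card_union_le _ _))
  have h3 := card_le_mul_card_image (f := Prod.fst) (M.Ob.image fun ω => M.key ω s t)
    ((if s = M.b then M.D1 else 1) * (if t = M.b' then M.D2 else 1)) fun f _ => by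
      refine (M7_fibre _ f (if s = M.b then M.L1 (f (Lb.y M.b)) else {fun _ => M.v0})
        (if t = M.b' then M.L2 (f (Lb.y M.b')) else {fun _ => M.v0}) fun k hk e => ?_).trans
        (Nat.mul_le_mul ?_ ?_)
      · obtain ⟨ω, hω, rfl⟩ := mem_image.1 hk
        have hd := M.mem_Dl.1 (M.mem_Ob.1 hω).2
        rw [← e]
        constructor
        · by_cases hb : s = M.b
          · have hy : Lb.y M.b ∈ M.Mid s t := M7_y_mem h hs hb.le (hb ▸ hst) ht
            simp only [key, if_pos hb, if_pos hy]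
            exact hd.1
          · simp only [key, if_neg hb, mem_singleton]
        · by_cases hb : t = M.b'
          · have hy : Lb.y M.b' ∈ M.Mid s t := M7_y_mem h hs (hb ▸ hst) hb.ge ht
            simp only [key, if_pos hb, if_pos hy]
            exact hd.2.1
          · simp only [key, if_neg hb, mem_singleton]
      · split_ifs
        · exact h.l1.card_le _
        · exact (card_singleton _).le
      · split_ifs
        · exact h.l2.card_le _
        · exact (card_singleton _).le
  refine h3.trans ?_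
  rw [mul_comm, mul_assoc (M.n * _)]
  exact Nat.mul_le_mul_right _ h1

/-- The set on which maps with equal key and boundary pair agree. -/
lemma card_fix (h : M.Hyp) {s t : ℕ} (hs : M.b ≤ s) (hst : s ≤ t) (ht : t ≤ M.b') :
    ∃ S : Finset Lb, S ⊆ M.U ∧ S.Nonempty ∧
      S.card = (M.Mid s t).card + (if s = M.b then 0 else 1) + (if t = M.b' then 0 else 1) ∧
      1 ≤ (M.Mid s t).card ∧
      ∀ v ∈ S, v ∈ M.Mid s t ∨ (s ≠ M.b ∧ v = Lb.c (s - 1)) ∨ (t ≠ M.b' ∧ v = Lb.c (t + 1)) := by
  have hc := M7_c_mem h hs hst ht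
  have hsub := mid_sub h hs hst ht
  have hl := M7_left_not (t := t) h hs
  have hr := M7_right_not (t := t) h hs
  have h1 : 1 ≤ (M.Mid s t).card := card_pos.2 ⟨_, hc⟩
  by_cases e1 : s = M.b
  · by_cases e2 : t = M.b'
    · exact ⟨M.Mid s t, hsub, ⟨_, hc⟩, by rw [if_pos e1, if_pos e2]; rfl, h1,
        fun v hv => Or.inl hv⟩
    · refine ⟨insert (Lb.c (t + 1)) (M.Mid s t),
        insert_subset (c_mem_U h (by omega) (by omega)) hsub, insert_nonempty _ _, ?_, h1,
        fun v hv => ?_⟩
      · rw [card_insert_of_notMem hr, if_pos e1, if_neg e2]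
      · rcases mem_insert.1 hv with hv | hv
        · exact Or.inr (Or.inr ⟨e2, hv⟩)
        · exact Or.inl hv
  · by_cases e2 : t = M.b'
    · refine ⟨insert (Lb.c (s - 1)) (M.Mid s t),
        insert_subset (c_mem_U h (by omega) (by omega)) hsub, insert_nonempty _ _, ?_, h1,
        fun v hv => ?_⟩
      · rw [card_insert_of_notMem hl, if_neg e1, if_pos e2]
      · rcases mem_insert.1 hv with hv | hv
        · exact Or.inr (Or.inl ⟨e1, hv⟩)
        · exact Or.inl hv
    · have hn : Lb.c (t + 1) ∉ insert (Lb.c (s - 1)) (M.Mid s t) := by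
        rw [mem_insert, not_or]
        refine ⟨fun e => ?_, hr⟩
        have := Lb.c.inj e
        omega
      refine ⟨insert (Lb.c (t + 1)) (insert (Lb.c (s - 1)) (M.Mid s t)),
        insert_subset (c_mem_U h (by omega) (by omega))
          (insert_subset (c_mem_U h (by omega) (by omega)) hsub), insert_nonempty _ _, ?_, h1,
        fun v hv => ?_⟩
      · rw [card_insert_of_notMem hn, card_insert_of_notMem hl, if_neg e1, if_neg e2]
      · rcases mem_insert.1 hv with hv | hv
        · exact Or.inr (Or.inr ⟨e2, hv⟩)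
        · rcases mem_insert.1 hv with hv | hv
          · exact Or.inr (Or.inl ⟨e1, hv⟩)
          · exact Or.inl hv

/-- First components: `ext_ub` with the set of `card_fix`. Given the first component, the left
half of the decoration is determined if `s = b` and has at most `D1 Δ` values otherwise. -/
theorem card_mult (h : M.Hyp) {s t : ℕ} (hs : M.b ≤ s) (hst : s ≤ t) (ht : t ≤ M.b')
    (ω : (Lb → V) × (((Lb → V) × V) × ((Lb → V) × V))) :
    (M.Ob.filter fun ω' => M.key ω' s t = M.key ω s t ∧ M.pt ω' s t = M.pt ω s t).card ≤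
      M.Δ ^ (M.U.card - ((M.Mid s t).card + (if s = M.b then 0 else 1) +
        (if t = M.b' then 0 else 1))) *
      (if s = M.b then 1 else M.D1 * M.Δ) * (if t = M.b' then 1 else M.D2 * M.Δ) := by
  obtain ⟨S, hSU, hSne, hScard, -, hSmem⟩ := card_fix h hs hst ht
  rw [← hScard]
  obtain ⟨T, hT⟩ : ∃ T, T = M.Ob.filter fun ω' =>
      M.key ω' s t = M.key ω s t ∧ M.pt ω' s t = M.pt ω s t := ⟨_, rfl⟩
  have hTm : ∀ ω' ∈ T, ω' ∈ M.Ob ∧ M.key ω' s t = M.key ω s t ∧ M.pt ω' s t = M.pt ω s t :=
    fun ω' hω' => by rw [hT] at hω'; exact mem_filter.1 hω'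
  rw [← hT]
  have hfix : ∀ ω' ∈ T, ∀ v ∈ S, ω'.1 v = ω.1 v := by
    intro ω' hω' v hv
    obtain ⟨-, hk, hp⟩ := hTm ω' hω'
    rcases hSmem v hv with hv | ⟨e, hv⟩ | ⟨e, hv⟩
    · have := congrFun (congrArg Prod.fst hk) v
      simpa only [key, if_pos hv] using this
    · have := congrArg Prod.fst hp
      rw [hv]
      simpa only [pt, if_neg e] using this
    · have := congrArg Prod.snd hp
      rw [hv]
      simpa only [pt, if_neg e] using this
  have hhom : ∀ ω' ∈ T, ω'.1 ∈ Hom M.N M.r M.H M.Xs M.Ys M.U M.v0 := fun ω' hω' =>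
    (M.mem_GH.1 (M.mem_Ob.1 (hTm ω' hω').1).1).1
  have h1 : (T.image Prod.fst).card ≤ M.Δ ^ (M.U.card - S.card) :=
    ext_ub h.hdeg (conn_U h) hSU hSne _
      (fun f hf => by
        obtain ⟨ω', hω', rfl⟩ := mem_image.1 hf
        exact hom_adj h (hhom ω' hω'))
      (fun f hf g hg v hv => by
        obtain ⟨ω', hω', rfl⟩ := mem_image.1 hf
        obtain ⟨ω'', hω'', rfl⟩ := mem_image.1 hg
        rcases hv with hv | hv
        · rw [hfix ω' hω' v hv, hfix ω'' hω'' v hv]
        · rw [(mem_Hom.1 (hhom ω' hω')).1 v hv, (mem_Hom.1 (hhom ω'' hω'')).1 v hv])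
  have h3 := card_le_mul_card_image (f := Prod.fst) T
    ((if s = M.b then 1 else M.D1 * M.Δ) * (if t = M.b' then 1 else M.D2 * M.Δ)) fun f _ => by
      refine (M7_fibre T f
        (if s = M.b then {ω.2.1} else (M.L1 (f (Lb.y M.b))).biUnion fun w =>
          (nbX M.H (w (Lb.y M.a))).image (Prod.mk w))
        (if t = M.b' then {ω.2.2} else (M.L2 (f (Lb.y M.b'))).biUnion fun w =>
          (nbX M.H (w (Lb.y M.c))).image (Prod.mk w)) fun k hk e => ?_).trans
        (Nat.mul_le_mul ?_ ?_)
      · obtain ⟨hω, hkey, hp⟩ := hTm k hk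
        have hd := M.mem_Dl.1 (M.mem_Ob.1 hω).2
        rw [← e]
        constructor
        · by_cases hb : s = M.b
          · have e1 := congrArg (fun x => x.2.1) hkey
            have e2 := congrArg Prod.fst hp
            simp only [key, if_pos hb] at e1
            simp only [pt, if_pos hb] at e2
            rw [if_pos hb, mem_singleton]
            exact Prod.ext e1 e2
          · rw [if_neg hb]
            exact M7_mem_half hd.1 hd.2.2.1
        · by_cases hb : t = M.b'
          · have e1 := congrArg (fun x => x.2.2) hkey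
            have e2 := congrArg Prod.snd hp
            simp only [key, if_pos hb] at e1
            simp only [pt, if_pos hb] at e2
            rw [if_pos hb, mem_singleton]
            exact Prod.ext e1 e2
          · rw [if_neg hb]
            exact M7_mem_half hd.2.1 hd.2.2.2.2.1
      · split_ifs
        · exact (card_singleton _).le
        · exact M7_half h _ _ (h.l1.card_le _) _
      · split_ifs
        · exact (card_singleton _).le
        · exact M7_half h _ _ (h.l2.card_le _) _
  refine h3.trans ?_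
  rw [mul_comm, mul_assoc (M.Δ ^ _)]
  exact Nat.mul_le_mul_right _ h1

end MD

end Pool.Agent.Work.MP_054302_co.X
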