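import Pool.Agent.Work.MP_054302_co.X.M3
import Pool.Agent.Work.MP_054302_co.X.M4
import Pool.Agent.Work.MP_054302_co.X.M5
import Pool.Agent.Work.MP_054302_co.X.M6
import Pool.Agent.Work.MP_054302_co.X.M7

namespace Pool.Agent.Work.MP_054302_co.X

open Finset Function
open scoped Classical

namespace MD

variable {V : Type} [Fintype V] [DecidableEq V] {M : MD V}

lemma M8_prod (n Δ D1 D2 e m u : ℕ) (P Q : Prop) [Decidable P] [Decidable Q] (hm : 1 ≤ m)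
    (hu : e + 1 = u) (hle : m + (if P then 0 else 1) + (if Q then 0 else 1) ≤ u) :
    n * Δ ^ (m - 1) * (if P then D1 else 1) * (if Q then D2 else 1) *
      (Δ ^ (u - (m + (if P then 0 else 1) + (if Q then 0 else 1))) *
        (if P then 1 else D1 * Δ) * (if Q then 1 else D2 * Δ)) = n * Δ ^ e * D1 * D2 := by
  obtain ⟨k, rfl⟩ := Nat.exists_eq_add_of_le' hm
  obtain ⟨j, hj⟩ := Nat.exists_eq_add_of_le hle
  rw [hj, Nat.add_sub_cancel_left, Nat.add_sub_cancel]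
  by_cases hP : P <;> by_cases hQ : Q <;> simp only [hP, hQ, if_true, if_false] at hj ⊢
  · obtain rfl : e = k + j := by omega
    ring
  · obtain rfl : e = k + j + 1 := by omega
    ring
  · obtain rfl : e = k + j + 1 := by omega
    ring
  · obtain rfl : e = k + j + 2 := by omega
    ring

/-- `key_pigeon` with `card_keys`, `card_mult` (the product of the two bounds is
`n Δ^e D1 D2` by `card_fix`), then `wn_of_key`, `good_congr`, `pt_mem`, `good_of_out`, `wn_sep`. -/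
lemma heavy_of_class (h : M.Hyp) {s t : ℕ}
    (C : Finset ((Lb → V) × (((Lb → V) × V) × ((Lb → V) × V)))) (hC : C ⊆ M.Ob)
    (hne : C.Nonempty) (ho : ∀ ω ∈ C, M.Out ω s t) (thr : ℝ)
    (hthr : thr * (M.n * (M.Δ : ℝ) ^ M.e * M.D1 * M.D2) ≤ C.card) :
    Heavy M.N M.r M.G M.H M.S M.B thr (M.a' s) (M.c' t) := by
  obtain ⟨ω0, hω0⟩ := hne
  obtain ⟨hs, hst, ht, -⟩ := ho ω0 hω0
  obtain ⟨S, hSU, -, hSc, hm, -⟩ := card_fix h hs hst ht
  have hU := (card_U h).2.2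
  have hle := card_le_card hSU
  have hprod := M8_prod M.n M.Δ M.D1 M.D2 M.e (M.Mid s t).card M.U.card (s = M.b) (t = M.b')
    hm hU (hSc ▸ hle)
  obtain ⟨ω, hω, hk⟩ := key_pigeon C (fun ω => M.key ω s t) (fun ω => M.pt ω s t) _ _ thr
    ⟨ω0, hω0⟩
    (le_trans (card_le_card fun x hx => by
      simp only [mem_image] at hx ⊢
      obtain ⟨y, hy, e⟩ := hx
      exact ⟨y, hC hy, e⟩) (card_keys h hs hst ht))
    (fun ω _ => le_trans (card_le_card fun x hx => by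
      simp only [mem_filter] at hx ⊢
      exact ⟨hC hx.1, hx.2⟩) (card_mult h hs hst ht ω))
    (by
      rw [← Nat.cast_mul, hprod]
      push_cast
      exact hthr)
  refine ⟨M.wn ω s t, wn_sep h (hC hω) hs hst ht, hk.trans (Nat.cast_le.2 (card_le_card ?_))⟩
  intro p hp
  simp only [mem_image, mem_filter] at hp
  obtain ⟨ω', hω', rfl⟩ := hp
  have hw := wn_of_key h hs hst ht hω'.2
  have hp' := pt_mem h (hC hω'.1) hs hst ht
  rw [mem_gpairs, ← hw _ (mem_Lab.2 (Or.inl rfl)), ← hw _ (mem_Lab.2 (Or.inr (Or.inl rfl)))]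
  exact ⟨hp'.1, hp'.2, good_congr hw (good_of_out h (hC hω'.1) (ho ω' hω'.1))⟩

/-- Merge step: pigeonhole the petals over the at most `N^2` outcomes in `Icc 1 N × Icc 1 N`. -/
theorem merge (h : M.Hyp) : ∃ s t, M.b ≤ s ∧ s ≤ t ∧ t ≤ M.b' ∧
    Heavy M.N M.r M.G M.H M.S M.B (M.γ * M.θ ^ 2 / (64 * (M.N : ℝ) ^ 2) * (M.Δ : ℝ) ^ 2)
      (M.a' s) (M.c' t) := by
  have hp := card_pet h
  obtain ⟨hD1, hD2, hn, hγ⟩ := pos_D h
  have hθ := h.hθ.1
  have hN : 0 < M.N := lt_of_lt_of_le h.hb (h.hbb.trans h.hb')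
  have hΔ := h.hΔ
  generalize hP : (M.Ob.filter fun ω => IsPetal M.U0 M.Q (M.Fib ω) ω.1) = P at hp
  have hPO : ∀ ω ∈ P, ω ∈ M.Ob ∧ ∃ s t, M.Out ω s t := fun ω hω => by
    rw [← hP, mem_filter] at hω
    exact ⟨hω.1, out_of_pet h hω.1 hω.2⟩
  have hI : (Icc 1 M.N ×ˢ Icc 1 M.N).Nonempty :=
    ⟨(1, 1), mem_product.2 ⟨mem_Icc.2 ⟨le_rfl, hN⟩, mem_Icc.2 ⟨le_rfl, hN⟩⟩⟩
  obtain ⟨q, -, hq⟩ := (Icc 1 M.N ×ˢ Icc 1 M.N).exists_max_image
    (fun q => (P.filter fun ω => M.Out ω q.1 q.2).card) hI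
  have h1 : P ⊆ (Icc 1 M.N ×ˢ Icc 1 M.N).biUnion fun q => P.filter fun ω => M.Out ω q.1 q.2 := by
    intro ω hω
    obtain ⟨s, t, hst⟩ := (hPO ω hω).2
    have a1 := h.hb
    have a2 := h.hb'
    have a3 := hst.1
    have a4 := hst.2.1
    have a5 := hst.2.2.1
    exact mem_biUnion.2 ⟨(s, t), mem_product.2 ⟨mem_Icc.2 ⟨by omega, by omega⟩,
      mem_Icc.2 ⟨by omega, by omega⟩⟩, mem_filter.2 ⟨hω, hst⟩⟩
  have h2 := (card_le_card h1).trans (card_biUnion_le_card_mul _ _ _ hq)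
  rw [card_product, Nat.card_Icc, Nat.add_sub_cancel] at h2
  generalize hC : (P.filter fun ω => M.Out ω q.1 q.2) = C at h2
  have hCO : ∀ ω ∈ C, ω ∈ M.Ob ∧ M.Out ω q.1 q.2 := fun ω hω => by
    rw [← hC, mem_filter] at hω
    exact ⟨(hPO ω hω.1).1, hω.2⟩
  have h3 : (P.card : ℝ) ≤ M.N * M.N * C.card := by exact_mod_cast h2
  have hN' : (0 : ℝ) < M.N := Nat.cast_pos.2 hN
  have h4 : M.γ * M.θ ^ 2 / (64 * (M.N : ℝ) ^ 2) * (M.Δ : ℝ) ^ 2 *
      (M.n * (M.Δ : ℝ) ^ M.e * M.D1 * M.D2) ≤ C.card := by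
    refine le_of_mul_le_mul_left (le_trans (le_of_eq ?_) (hp.trans h3)) (mul_pos hN' hN')
    field_simp
    ring
  have hne : C.Nonempty := by
    have h5 : (0 : ℝ) < C.card := lt_of_lt_of_le (by positivity) h4
    exact card_pos.1 (Nat.cast_pos.1 h5)
  obtain ⟨ω, hω⟩ := hne
  have ho := (hCO ω hω).2
  exact ⟨q.1, q.2, ho.1, ho.2.1, ho.2.2.1, heavy_of_class h C (fun ω hω => (hCO ω hω).1) ⟨ω, hω⟩
    (fun ω hω => (hCO ω hω).2) _ h4⟩

end MD

end Pool.Agent.Work.MP_054302_co.X
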