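import Pool.Agent.Work.MP_054302_co.X.Defs

namespace Pool.Agent.Work.MP_054302_co.X

open Finset Function
open scoped Classical

/-- Data of one merge step. -/
structure MD (V : Type) where
  N : ℕ
  r : ℕ → ℕ
  G : SimpleGraph V
  Δ : ℕ
  H : Finset (V × V)
  Xs : Finset V
  Ys : Finset V
  S : V → Finset V
  a : ℕ
  b : ℕ
  b' : ℕ
  c : ℕ
  B : ℕ
  B1 : ℕ
  B2 : ℕ
  Q : ℕ
  D1 : ℕ
  D2 : ℕ
  s : ℕ
  θ : ℝ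
  θ1 : ℝ
  θ2 : ℝ
  κ : ℝ
  β : ℝ
  θi : ℝ
  L1 : V → Finset (Lb → V)
  L2 : V → Finset (Lb → V)
  v0 : V

namespace MD

variable {V : Type} [Fintype V] [DecidableEq V] (M : MD V)

/-- The stretch. -/
def U : Finset Lb := Seg M.N M.r (2 * M.b) (2 * M.b')
/-- Its non-roots. -/
def U0 : Finset Lb := M.U.filter fun v => isRoot v = false
/-- Its roots. -/
def UR : Finset Lb := M.U.filter fun v => isRoot v = true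
/-- Size of the tree. -/
def u : ℕ := (VT M.N M.r).card
/-- Number of edges of the stretch. -/
def e : ℕ := M.U.card - 1
/-- Size of the host. -/
def n : ℕ := M.Xs.card + M.Ys.card
/-- Basic density constant. -/
noncomputable def γ : ℝ := M.κ ^ (M.u + 1)
/-- A set with the stored sets of its members. -/
def hat (A : Finset V) : Finset V := A.biUnion fun x => insert x (M.S x)
/-- Support of a stem of the left piece. -/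
def s1 (w : Lb → V) : Finset V := suppR M.N M.r M.a M.b w
/-- Support of a stem of the right piece. -/
def s2 (w : Lb → V) : Finset V := suppL M.N M.r M.b' M.c w
/-- Weight of a stem of the left piece. -/
noncomputable def w1 (w : Lb → V) (x : V) : ℕ := wtR M.N M.r M.G M.H M.B1 M.a M.b w x
/-- Weight of a stem of the right piece. -/
noncomputable def w2 (w : Lb → V) (x : V) : ℕ := wtL M.N M.r M.G M.H M.B2 M.b' M.c w x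
/-- Vertices to be avoided. -/
def Av (x : V) : Finset V :=
  M.hat {x} ∪ (M.L1 x).biUnion (fun w => M.hat (M.s1 w)) ∪
    (M.L2 x).biUnion fun w => M.hat (M.s2 w)
/-- Bound for the size of `Av`. -/
def s0 : ℕ := (1 + M.s) * (1 + (M.D1 + M.D2) * (M.u + 2))

/-- Numerical and structural hypotheses. -/
structure Hyp : Prop where
  hab : M.a < M.b
  hb : 1 ≤ M.b
  hbb : M.b ≤ M.b'
  hb' : M.b' ≤ M.N
  hbc : M.b' < M.c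
  hc : M.c ≤ M.N + 1
  hΔ : 0 < M.Δ
  hdeg : ∀ v, (nbr M.G v).card ≤ M.Δ
  hκ : 0 < M.κ ∧ M.κ ≤ 1
  host : Host M.G M.H M.Xs M.Ys (M.κ * M.Δ)
  hS : ∀ y, (M.S y).card ≤ M.s
  hθ : 0 < M.θ ∧ M.θ ≤ M.θ1 ∧ M.θ ≤ M.θ2
  hB1 : M.B + M.u ≤ M.B1
  hB2 : M.B + M.u ≤ M.B2
  l1 : Lists M.H M.Δ M.θ1 M.D1 M.β (admR M.N M.r M.S M.a M.b) M.s1 M.w1 M.L1
  l2 : Lists M.H M.Δ M.θ2 M.D2 M.β (admL M.N M.r M.S M.b' M.c) M.s2 M.w2 M.L2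
  hβ : M.β ≤ M.γ / 20
  hcher : ∀ v, ((jpairs M.G M.Q (nbr M.G v)).card : ℝ) ≤ M.θi * (M.Δ : ℝ) ^ 2
  hθi : (M.u : ℝ) ^ 3 * M.θi ≤ M.γ / 20
  hAv : (M.u : ℝ) ^ 2 * M.s0 ≤ M.γ / 20 * M.Δ
  hX1 : 16 * ((M.u : ℝ) * M.s + (M.u + 2) * (1 + M.s)) ≤ M.θ ^ 2 * M.D1
  hX2 : 16 * ((M.u : ℝ) * M.s + (M.u + 2) * (1 + M.s)) ≤ M.θ ^ 2 * M.D2
  hQ : M.B < M.Q
  hsl : (sunC M.u M.Q : ℝ) * (M.n : ℝ) ^ (M.UR.card - 1) ≤ M.γ * M.θ ^ 2 / 64 * (M.Δ : ℝ) ^ M.e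

/-- Good homomorphisms of the stretch. -/
noncomputable def GH : Finset (Lb → V) :=
  (Hom M.N M.r M.H M.Xs M.Ys M.U M.v0).filter fun φ =>
    M.θ1 / 2 * M.D1 * M.Δ ≤ (∑ w ∈ M.L1 (φ (Lb.y M.b)), (M.w1 w (φ (Lb.c M.b)) : ℝ)) ∧
    M.θ2 / 2 * M.D2 * M.Δ ≤ (∑ w ∈ M.L2 (φ (Lb.y M.b')), (M.w2 w (φ (Lb.c M.b')) : ℝ)) ∧
    (∀ x ∈ M.U, ∀ w ∈ M.U, ∀ x' ∈ M.U, adj M.N M.r w x → adj M.N M.r w x' →
      ¬ Jp M.G M.Q (φ x) (φ x')) ∧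
    ∀ v ∈ M.U, ∀ v' ∈ M.U, v ≠ v' → φ v' ∉ M.Av (φ v)

lemma mem_GH {φ : Lb → V} : φ ∈ M.GH ↔ φ ∈ Hom M.N M.r M.H M.Xs M.Ys M.U M.v0 ∧
    M.θ1 / 2 * M.D1 * M.Δ ≤ (∑ w ∈ M.L1 (φ (Lb.y M.b)), (M.w1 w (φ (Lb.c M.b)) : ℝ)) ∧
    M.θ2 / 2 * M.D2 * M.Δ ≤ (∑ w ∈ M.L2 (φ (Lb.y M.b')), (M.w2 w (φ (Lb.c M.b')) : ℝ)) ∧
    (∀ x ∈ M.U, ∀ w ∈ M.U, ∀ x' ∈ M.U, adj M.N M.r w x → adj M.N M.r w x' →
      ¬ Jp M.G M.Q (φ x) (φ x')) ∧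
    ∀ v ∈ M.U, ∀ v' ∈ M.U, v ≠ v' → φ v' ∉ M.Av (φ v) := by
  simp only [GH, mem_filter]

/-- Compatibility of two stems with `φ` and with each other. -/
def Cmp (φ w w' : Lb → V) : Prop :=
  (∀ v ∈ M.U, Disjoint (M.s1 w) (M.S (φ v)) ∧ Disjoint (M.s2 w') (M.S (φ v))) ∧
    Disjoint (M.s1 w) (M.hat (M.s2 w')) ∧ Disjoint (M.s2 w') (M.hat (M.s1 w))

/-- The decorations `((w1, cL), (w2, cR))` of `φ`. -/
noncomputable def Dl (φ : Lb → V) : Finset (((Lb → V) × V) × ((Lb → V) × V)) :=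
  ((M.L1 (φ (Lb.y M.b)) ×ˢ univ) ×ˢ (M.L2 (φ (Lb.y M.b')) ×ˢ univ)).filter fun δ =>
    (δ.1.2, δ.1.1 (Lb.y M.a)) ∈ M.H ∧
    Good M.N M.r M.G M.B1 M.a M.b δ.1.1 δ.1.2 (φ (Lb.c M.b)) ∧
    (δ.2.2, δ.2.1 (Lb.y M.c)) ∈ M.H ∧
    Good M.N M.r M.G M.B2 M.b' M.c δ.2.1 (φ (Lb.c M.b')) δ.2.2 ∧ M.Cmp φ δ.1.1 δ.2.1

lemma mem_Dl {φ : Lb → V} {δ : ((Lb → V) × V) × ((Lb → V) × V)} : δ ∈ M.Dl φ ↔
    δ.1.1 ∈ M.L1 (φ (Lb.y M.b)) ∧ δ.2.1 ∈ M.L2 (φ (Lb.y M.b')) ∧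
    (δ.1.2, δ.1.1 (Lb.y M.a)) ∈ M.H ∧
    Good M.N M.r M.G M.B1 M.a M.b δ.1.1 δ.1.2 (φ (Lb.c M.b)) ∧
    (δ.2.2, δ.2.1 (Lb.y M.c)) ∈ M.H ∧
    Good M.N M.r M.G M.B2 M.b' M.c δ.2.1 (φ (Lb.c M.b')) δ.2.2 ∧ M.Cmp φ δ.1.1 δ.2.1 := by
  simp only [Dl, mem_filter, mem_product, mem_univ, and_true, and_assoc]

/-- Objects: a good homomorphism with a decoration. -/
noncomputable def Ob : Finset ((Lb → V) × (((Lb → V) × V) × ((Lb → V) × V))) :=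
  M.GH.biUnion fun φ => (M.Dl φ).image (Prod.mk φ)

lemma mem_Ob {ω : (Lb → V) × (((Lb → V) × V) × ((Lb → V) × V))} :
    ω ∈ M.Ob ↔ ω.1 ∈ M.GH ∧ ω.2 ∈ M.Dl ω.1 := by
  simp only [Ob, mem_biUnion, mem_image]
  constructor
  · rintro ⟨φ, h1, δ, h2, rfl⟩
    exact ⟨h1, h2⟩
  · rintro ⟨h1, h2⟩
    exact ⟨ω.1, h1, ω.2, h2, rfl⟩

/-- The homomorphisms with the same datum as `ω`. -/
noncomputable def Fib (ω : (Lb → V) × (((Lb → V) × V) × ((Lb → V) × V))) : Finset (Lb → V) :=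
  M.GH.filter fun ψ => ω.2 ∈ M.Dl ψ ∧ ∀ v ∈ M.UR, ψ v = ω.1 v

lemma mem_Fib {ω : (Lb → V) × (((Lb → V) × V) × ((Lb → V) × V))} {ψ : Lb → V} :
    ψ ∈ M.Fib ω ↔ ψ ∈ M.GH ∧ ω.2 ∈ M.Dl ψ ∧ ∀ v ∈ M.UR, ψ v = ω.1 v := by
  simp only [Fib, mem_filter]

/-- The middle part of the stretch for the outcome `(s,t)`. -/
def Mid (s t : ℕ) : Finset Lb :=
  Seg M.N M.r (if s = M.b then 2 * s else 2 * s - 1) (if t = M.b' then 2 * t else 2 * t + 1)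
/-- Its non-roots. -/
def Jt (s t : ℕ) : Finset Lb := (M.Mid s t).filter fun v => isRoot v = false
/-- New left end. -/
def a' (s : ℕ) : ℕ := if s = M.b then M.a else s - 1
/-- New right end. -/
def c' (t : ℕ) : ℕ := if t = M.b' then M.c else t + 1

/-- The outcome `(s,t)` of the sunflower analysis. -/
def Out (ω : (Lb → V) × (((Lb → V) × V) × ((Lb → V) × V))) (s t : ℕ) : Prop :=
  M.b ≤ s ∧ s ≤ t ∧ t ≤ M.b' ∧ ∃ P : Finset (Lb → V), P ⊆ M.Fib ω ∧ M.Q ≤ P.card ∧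
    (∀ ψ ∈ P, (s ≠ M.b → ψ (Lb.c (s - 1)) = ω.1 (Lb.c (s - 1))) ∧
      (t ≠ M.b' → ψ (Lb.c (t + 1)) = ω.1 (Lb.c (t + 1)))) ∧
    ∀ ψ ∈ P, ∀ ψ' ∈ P, ψ ≠ ψ' → ∀ v ∈ M.Jt s t, ∀ w ∈ M.Jt s t, ψ v ≠ ψ' w

/-- The glued labelling. -/
def Phi (ω : (Lb → V) × (((Lb → V) × V) × ((Lb → V) × V))) (v : Lb) : V :=
  if pos v < 2 * M.b then ω.2.1.1 v else if pos v ≤ 2 * M.b' then ω.1 v else ω.2.2.1 v

/-- Relabelling of the two new anchors. -/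
def iota (s t : ℕ) (v : Lb) : Lb :=
  if s ≠ M.b ∧ v = Lb.y (s - 1) then Lb.m (s - 1)
  else if t ≠ M.b' ∧ v = Lb.y (t + 1) then Lb.m t else v

/-- The labelling of the new piece. -/
def wn (ω : (Lb → V) × (((Lb → V) × V) × ((Lb → V) × V))) (s t : ℕ) (v : Lb) : V :=
  M.Phi ω (M.iota s t v)

/-- The boundary pair of the new piece. -/
def pt (ω : (Lb → V) × (((Lb → V) × V) × ((Lb → V) × V))) (s t : ℕ) : V × V :=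
  (if s = M.b then ω.2.1.2 else ω.1 (Lb.c (s - 1)),
    if t = M.b' then ω.2.2.2 else ω.1 (Lb.c (t + 1)))

/-- The key of an object. -/
def key (ω : (Lb → V) × (((Lb → V) × V) × ((Lb → V) × V))) (s t : ℕ) :
    (Lb → V) × (Lb → V) × (Lb → V) :=
  (fun v => if v ∈ M.Mid s t then ω.1 v else M.v0,
    if s = M.b then ω.2.1.1 else fun _ => M.v0, if t = M.b' then ω.2.2.1 else fun _ => M.v0)

end MD

end Pool.Agent.Work.MP_054302_co.X
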