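import Pool.Agent.Work.MP_054302_co.X.TermA
import Pool.Agent.Work.MP_054302_co.X.Clean
import Pool.Agent.Work.MP_054302_co.X.Tree

namespace Pool.Agent.Work.MP_054302_co.X

open Finset Function
open scoped Classical

/-- One step of the sweep: `term_zs`, `term_y`, a subset `Γ0` of size exactly `P`, `term_next`.
Take `P = ⌈2 p / η⌉₊ + 1` and `δ = η / (2 * 2 ^ P)`; note `η ≤ 1` because `U0` is nonempty. -/
lemma term_step (η : ℝ) (hη : 0 < η) (u p : ℕ) : ∃ δ : ℝ, 0 < δ ∧ δ ≤ η ∧ ∃ Q0 D0 : ℕ,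
    ∀ (V : Type) [Fintype V] [DecidableEq V] (G : SimpleGraph V) (Δ Q : ℕ) (U0 A F : Finset V)
      (k : ℕ), Q0 ≤ Q → D0 ≤ Δ → (∀ v, (nbr G v).card ≤ Δ) → U0.card ≤ Δ →
      (∀ x ∈ U0, η * Δ ≤ ((U0.filter fun x' => Jp G Q x x').card : ℝ)) →
      A ⊆ U0 → δ * Δ ≤ A.card → F.card ≤ u → k ≤ u →
      ∃ (y : V) (zs : ℕ → V) (Γ A' : Finset V), y ∉ F ∧ Set.InjOn zs (range k) ∧
        (∀ j < k, zs j ∉ F ∧ zs j ≠ y) ∧ Γ ⊆ A ∧ p ≤ Γ.card ∧
        (∀ x ∈ Γ, G.Adj x y ∧ ∀ j < k, Jp G Q x (zs j)) ∧ A' ⊆ U0 ∧ δ * Δ ≤ A'.card ∧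
        ∀ x ∈ Γ, ∀ x' ∈ A', Jp G Q x x' := by
  set P : ℕ := ⌈2 * (p : ℝ) / η⌉₊ + 1 with hP
  have hδ : 0 < η / (2 * 2 ^ P) := by positivity
  set δ : ℝ := η / (2 * 2 ^ P) with hδd
  have hδ1 : 0 < δ * (η / 2) ^ u := by positivity
  refine ⟨δ, hδ, div_le_self hη.le ?_, ⌈P / (δ * (η / 2) ^ u * η)⌉₊ + 2 * u + 1,
    ⌈4 * (u : ℝ) / η⌉₊ + 1, ?_⟩
  · have : (1 : ℝ) ≤ 2 ^ P := one_le_pow₀ (by norm_num)
    linarith
  intro V _ _ G Δ Q U0 A F k hQ hD hdeg hU hmin hA hAc hF hk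
  have hΔ : 0 < Δ := by omega
  have hΔ' : (0 : ℝ) < Δ := by exact_mod_cast hΔ
  have hne : A.Nonempty := by
    rw [← card_pos]
    exact_mod_cast (mul_pos hδ hΔ').trans_le hAc
  have hη1 : η ≤ 1 := by
    obtain ⟨x, hx⟩ := hne
    have h1 : ((U0.filter fun x' => Jp G Q x x').card : ℝ) ≤ Δ := by
      exact_mod_cast (card_filter_le _ _).trans hU
    have h2 := (hmin x (hA hx)).trans h1
    nlinarith
  have hFu : (F.card : ℝ) ≤ u := by exact_mod_cast hF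
  have hku : (k : ℝ) ≤ u := by exact_mod_cast hk
  have h4 : 4 * (u : ℝ) / η ≤ Δ :=
    (Nat.le_ceil _).trans (by exact_mod_cast (Nat.le_succ _).trans hD)
  rw [div_le_iff₀ hη] at h4
  obtain ⟨zs, A1, z1, z2, z3, z4, z5⟩ := term_zs hη hΔ hU hmin hA hne k (F := F) (by linarith)
  have a1 : δ * (η / 2) ^ u * Δ ≤ A1.card := by
    have e1 : (η / 2) ^ u ≤ (η / 2) ^ k := pow_le_pow_of_le_one (by positivity) (by linarith) hk
    calc δ * (η / 2) ^ u * Δ = (η / 2) ^ u * (δ * Δ) := by ring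
      _ ≤ (η / 2) ^ k * A.card := by gcongr
      _ ≤ _ := z4
  have f1 : ((F ∪ (range k).image zs).card : ℝ) ≤ 2 * u := by
    have e1 := (card_union_le F ((range k).image zs)).trans
      (Nat.add_le_add hF (card_image_le.trans ((card_range k).le.trans hk)))
    exact_mod_cast e1.trans (two_mul u).ge
  have q1 : (P : ℝ) < δ * (η / 2) ^ u * η * ((Q : ℝ) - (F ∪ (range k).image zs).card) := by
    have e1 : ((⌈P / (δ * (η / 2) ^ u * η)⌉₊ + 2 * u + 1 : ℕ) : ℝ) ≤ Q := by exact_mod_cast hQ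
    have e2 := Nat.le_ceil (P / (δ * (η / 2) ^ u * η))
    push_cast at e1
    rw [← div_lt_iff₀' (mul_pos hδ1 hη)]
    linarith
  obtain ⟨y, y1, y2⟩ := term_y hdeg hη hδ1 hΔ hU hmin (z3.trans hA) a1 q1
  obtain ⟨Γ0, g1, g2⟩ := exists_subset_card_eq y2
  have g3 : Γ0 ⊆ A1 := g1.trans (filter_subset _ _)
  have p1 : 2 * (p : ℝ) ≤ η * Γ0.card := by
    have e1 := Nat.le_ceil (2 * (p : ℝ) / η)
    rw [div_le_iff₀ hη] at e1
    rw [g2, hP]
    push_cast
    linarith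
  obtain ⟨Γ, A', n1, n2, n3, n4, n5⟩ := term_next hη hΔ hU hmin (g3.trans (z3.trans hA))
    (card_pos.1 (by omega)) p1
  rw [g2] at n4
  refine ⟨y, zs, Γ, A', fun h => y1 (mem_union_left _ h), z1, fun j hj => ⟨z2 j hj, fun h =>
    y1 (mem_union_right _ (mem_image.2 ⟨j, mem_range.2 hj, h⟩))⟩, n1.trans (g3.trans z3), n2,
    fun x hx => ⟨(mem_filter.1 (g1 (n1 hx))).2, z5 x (g3 (n1 hx))⟩, n3, n4, n5⟩

variable {V : Type} [Fintype V] [DecidableEq V] {G : SimpleGraph V} {N : ℕ} {r : ℕ → ℕ}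

/-- Candidates for the mids. -/
noncomputable def TermB_cand (G : SimpleGraph V) (g : Lb → V) : Lb → Finset V
  | .m i => nbr G (g (.c i)) ∩ nbr G (g (.c (i + 1)))
  | .a i j => nbr G (g (.c i)) ∩ nbr G (g (.z i j))
  | _ => ∅

/-- New values for the roots at position `i`. -/
def TermB_upd (w : Lb → V) (i : ℕ) (y : V) (zs : ℕ → V) : Lb → V
  | .y j => if j = i then y else w (.y j)
  | .z j l => if j = i then zs l else w (.z j l)
  | v => w v

lemma TermB_inj {w : Lb → V} {i : ℕ} {y : V} {zs : ℕ → V}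
    (h1 : Set.InjOn w ((RT N r).filter fun v => pos v ≤ 2 * i))
    (s1 : y ∉ ((RT N r).filter fun v => pos v ≤ 2 * i).image w)
    (s2 : Set.InjOn zs (range (r (i + 1))))
    (s3 : ∀ j < r (i + 1), zs j ∉ ((RT N r).filter fun v => pos v ≤ 2 * i).image w ∧ zs j ≠ y) :
    Set.InjOn (TermB_upd w (i + 1) y zs) ((RT N r).filter fun v => pos v ≤ 2 * (i + 1)) := by
  have h : ∀ v ∈ (RT N r).filter fun v => pos v ≤ 2 * (i + 1),
      (v ∈ (RT N r).filter (fun v => pos v ≤ 2 * i) ∧ TermB_upd w (i + 1) y zs v = w v) ∨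
      (v = Lb.y (i + 1) ∧ TermB_upd w (i + 1) y zs v = y) ∨
      ∃ j < r (i + 1), v = Lb.z (i + 1) j ∧ TermB_upd w (i + 1) y zs v = zs j := by
    intro v hv
    obtain ⟨e1, e2⟩ := mem_filter.1 hv
    obtain ⟨e3, e4⟩ := mem_RT.1 e1
    cases v <;> simp only [isRoot, Bool.false_eq_true] at e4
    · rename_i j
      by_cases hj : j = i + 1
      · exact Or.inr (Or.inl ⟨by rw [hj], if_pos hj⟩)
      · exact Or.inl ⟨mem_filter.2 ⟨e1, by simp only [pos] at e2 ⊢; omega⟩, if_neg hj⟩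
    · rename_i j l
      by_cases hj : j = i + 1
      · exact Or.inr (Or.inr ⟨l, hj ▸ e3.2.2, by rw [hj], if_pos hj⟩)
      · exact Or.inl ⟨mem_filter.2 ⟨e1, by simp only [pos] at e2 ⊢; omega⟩, if_neg hj⟩
  intro v hv v' hv' he
  rcases h v hv with ⟨a1, a2⟩ | ⟨a1, a2⟩ | ⟨j, a0, a1, a2⟩ <;>
    rcases h v' hv' with ⟨b1, b2⟩ | ⟨b1, b2⟩ | ⟨l, b0, b1, b2⟩ <;> rw [a2, b2] at he
  · exact h1 a1 b1 he
  · exact (s1 (mem_image.2 ⟨v, a1, he⟩)).elim
  · exact ((s3 l b0).1 (mem_image.2 ⟨v, a1, he⟩)).elim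
  · exact (s1 (mem_image.2 ⟨v', b1, he.symm⟩)).elim
  · rw [a1, b1]
  · exact ((s3 l b0).2 he.symm).elim
  · exact ((s3 j a0).1 (mem_image.2 ⟨v', b1, he.symm⟩)).elim
  · exact ((s3 j a0).2 he).elim
  · rw [a1, b1, s2 (mem_coe.2 (mem_range.2 a0)) (mem_coe.2 (mem_range.2 b0)) he]

/-- Write the non-roots as (mids) ∪ (branch vertices); `rob_ext` with `sdr` for the branch
vertices, `rob_indep` for the mids with the common neighbourhoods as candidates. -/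
lemma term_final {B Q : ℕ} (w : Lb → V) (Γ : ℕ → Finset V) (hw : Set.InjOn w (RT N r))
    (hΓ : ∀ i, 1 ≤ i → i ≤ N → B + (VT N r).card ≤ (Γ i).card ∧
      ∀ x ∈ Γ i, G.Adj x (w (Lb.y i)) ∧ ∀ j < r i, Jp G Q x (w (Lb.z i j)))
    (hJ : ∀ i, 1 ≤ i → i < N → ∀ x ∈ Γ i, ∀ x' ∈ Γ (i + 1), Jp G Q x x')
    (hQ : B + 2 * (VT N r).card ≤ Q) : Full N r G B := by
  refine ⟨w, hw, ?_⟩
  set S := (NR N r).filter fun v => isX v = false with hS
  set J := (NR N r).filter fun v => isX v = true with hJd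
  have mS : ∀ v, v ∈ S ↔ (IsReal N r v ∧ isRoot v = false) ∧ isX v = false := fun v => by
    rw [hS, mem_filter, mem_NR]
  have mJ : ∀ v, v ∈ J ↔ (IsReal N r v ∧ isRoot v = false) ∧ isX v = true := fun v => by
    rw [hJd, mem_filter, mem_NR]
  have cS : S.card ≤ (VT N r).card :=
    card_le_card ((filter_subset _ _).trans (filter_subset _ _))
  have cJ : J.card ≤ (VT N r).card :=
    card_le_card ((filter_subset _ _).trans (filter_subset _ _))
  have hU : NR N r = S ∪ J := by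
    ext v
    rw [mem_union, mS, mJ, mem_NR]
    cases isX v <;> simp
  rw [hU]
  refine rob_ext adj_symm (disjoint_left.2 fun v h1 h2 => ?_) fun Z hZ => ?_
  · have := ((mS v).1 h1).2.symm.trans ((mJ v).1 h2).2
    simp at this
  obtain ⟨g, g1, g2, g3⟩ := sdr J (fun v => Γ (pos v / 2)) Z w fun v hv => by
    obtain ⟨⟨h1, h2⟩, h3⟩ := (mJ v).1 hv
    cases v <;> simp [isX, isRoot] at h2 h3
    have := (hΓ _ h1.1 h1.2).1
    simp only [pos, Nat.mul_div_cancel_left _ (two_pos)]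
    omega
  have gc : ∀ i, 1 ≤ i → i ≤ N → g (Lb.c i) ∈ Γ i := fun i h1 h2 => by
    have := (g3 (Lb.c i) ((mJ _).2 ⟨⟨⟨h1, h2⟩, rfl⟩, rfl⟩)).1
    simpa [pos] using this
  have gy : ∀ i, g (Lb.y i) = w (Lb.y i) := fun i => g1 _ fun h => by
    simpa [isRoot] using ((mJ _).1 h).1.2
  have gz : ∀ i j, g (Lb.z i j) = w (Lb.z i j) := fun i j => g1 _ fun h => by
    simpa [isRoot] using ((mJ _).1 h).1.2
  refine ⟨g, g1, g2, fun v hv => (g3 v hv).2, fun v hv v' hv' ha => ?_,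
    rob_indep (TermB_cand G g) (fun v hv v' hv' ha => ?_) (fun v hv => ?_) fun v hv x hx v' ha => ?_⟩
  · obtain ⟨⟨h1, h2⟩, h3⟩ := (mJ v).1 hv
    have hr := (adj_real ha).2
    rw [mS] at hv'
    cases v <;> simp [isX, isRoot] at h2 h3
    cases v' <;> simp [isX, isRoot, hr] at hv' <;> simp [adj, Ed] at ha
    obtain ⟨rfl, h4, h5⟩ := ha
    rw [gy]
    exact ((hΓ _ h4 h5).2 _ (gc _ h4 h5)).1
  · rcases ha with ha | ha
    · have := (ed_side ha).1.symm.trans ((mS v).1 hv).2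
      simp at this
    · have := (ed_side ha).1.symm.trans ((mS v').1 hv').2
      simp at this
  · obtain ⟨⟨h1, h2⟩, h3⟩ := (mS v).1 hv
    refine le_trans (by omega : _ ≤ Q) ?_
    cases v <;> simp [isX, isRoot] at h2 h3
    · exact (hJ _ h1.1 h1.2 _ (gc _ h1.1 h1.2.le) _ (gc _ (by omega) h1.2)).2
    · rw [TermB_cand, gz]
      exact (((hΓ _ h1.1 h1.2.1).2 _ (gc _ h1.1 h1.2.1)).2 _ h1.2.2).2
  · obtain ⟨⟨h1, h2⟩, h3⟩ := (mS v).1 hv
    cases v <;> simp [isX, isRoot] at h2 h3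
    · simp only [TermB_cand, mem_inter, mem_nbr] at hx
      cases v' <;> simp [adj, Ed] at ha
      rcases ha.1 with rfl | rfl
      · exact hx.1.symm
      · exact hx.2.symm
    · simp only [TermB_cand, mem_inter, mem_nbr] at hx
      cases v' <;> simp [adj, Ed] at ha
      · rw [ha.1]
        exact hx.1.symm
      · rw [ha.1, ha.2.1]
        exact hx.2.symm

/-- Terminal lemma, section 2: `clean_sym` with `lam = θ Δ / 2`, then `term_step` for
`i = 1, ..., N` (invariant: roots of positions `≤ i` chosen injectively, sets `Γ`, a set `A` of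
size `δ Δ` heavy to `Γ i`), then `term_final`. -/
theorem terminal (N : ℕ) (r : ℕ → ℕ) (θ : ℝ) (hθ : 0 < θ) (B : ℕ) : ∃ Q0 D0 : ℕ,
    ∀ (V : Type) [Fintype V] [DecidableEq V] (G : SimpleGraph V) (Δ Q : ℕ) (U : Finset V),
      Q0 ≤ Q → D0 ≤ Δ → (∀ v, (nbr G v).card ≤ Δ) → U.card ≤ Δ →
      θ * (Δ : ℝ) ^ 2 ≤ (jpairs G Q U).card → Full N r G B := by
  obtain ⟨δ, hδ, hδη, Q0, D0, hst⟩ := term_step (θ / 2) (half_pos hθ) (VT N r).card
    (B + (VT N r).card)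
  refine ⟨Q0 + B + 2 * (VT N r).card, D0 + 1, fun V _ _ G Δ Q U hQ hD hdeg hU hJ => ?_⟩
  have hΔ : (0 : ℝ) < Δ := by exact_mod_cast (show 0 < Δ by omega)
  have hne : U.Nonempty := by
    have h1 : 0 < (jpairs G Q U).card := by exact_mod_cast (by positivity : (0 : ℝ) < _).trans_le hJ
    obtain ⟨q, hq⟩ := card_pos.1 h1
    exact ⟨_, (mem_jpairs.1 hq).1⟩
  obtain ⟨U0, u1, ⟨v0, u2⟩, u3⟩ := clean_sym (Jp G Q)
    (fun x x' h => ⟨h.1.symm, by rw [inter_comm]; exact h.2⟩) (fun x h => h.1 rfl) U hne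
    (lam := θ / 2 * Δ) (by positivity) (by
      have h1 : (U.card : ℝ) ≤ Δ := by exact_mod_cast hU
      refine le_trans ?_ hJ
      nlinarith [mul_le_mul_of_nonneg_left h1 (mul_pos hθ hΔ).le])
  have hU0 : U0.card ≤ Δ := (card_le_card u1).trans hU
  have key : ∀ i, i ≤ N → ∃ (w : Lb → V) (Γ : ℕ → Finset V) (A : Finset V),
      Set.InjOn w ((RT N r).filter fun v => pos v ≤ 2 * i) ∧
      (∀ k, 1 ≤ k → k ≤ i → B + (VT N r).card ≤ (Γ k).card ∧
        ∀ x ∈ Γ k, G.Adj x (w (Lb.y k)) ∧ ∀ j < r k, Jp G Q x (w (Lb.z k j))) ∧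
      (∀ k, 1 ≤ k → k < i → ∀ x ∈ Γ k, ∀ x' ∈ Γ (k + 1), Jp G Q x x') ∧ A ⊆ U0 ∧
      δ * Δ ≤ A.card ∧ (1 ≤ i → ∀ x ∈ Γ i, ∀ x' ∈ A, Jp G Q x x') := by
    intro i
    induction i with
    | zero =>
      refine fun _ => ⟨fun _ => v0, fun _ => ∅, U0, fun v hv => ?_, by omega, by omega,
        Subset.rfl, ?_, by omega⟩
      · obtain ⟨h1, h2⟩ := mem_filter.1 (mem_coe.1 hv)
        obtain ⟨h3, h4⟩ := mem_RT.1 h1
        cases v <;> simp [isRoot, pos, IsReal] at h2 h3 h4 <;> omega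
      · refine (mul_le_mul_of_nonneg_right hδη hΔ.le).trans ((u3 v0 u2).trans ?_)
        exact_mod_cast card_filter_le _ _
    | succ i ih =>
      intro hi
      obtain ⟨w, Γ, A, h1, h2, h3, h4, h5, h6⟩ := ih (by omega)
      have hr : r (i + 1) ≤ (VT N r).card := by
        have e1 := card_VT (N := N) (r := r) (by omega)
        have e2 := single_le_sum (f := r) (fun _ _ => Nat.zero_le _)
          (mem_Icc.2 ⟨by omega, hi⟩ : i + 1 ∈ Icc 1 N)
        omega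
      obtain ⟨y, zs, Γ', A', s1, s2, s3, s4, s5, s6, s7, s8, s9⟩ := hst V G Δ Q U0 A
        (((RT N r).filter fun v => pos v ≤ 2 * i).image w) (r (i + 1)) (by omega) (by omega) hdeg
        hU0 u3 h4 h5
        (card_image_le.trans (card_le_card ((filter_subset _ _).trans (filter_subset _ _)))) hr
      refine ⟨TermB_upd w (i + 1) y zs, update Γ (i + 1) Γ', A', TermB_inj h1 s1 s2 s3,
        fun k k1 k2 => ?_, fun k k1 k2 => ?_, s7, s8, fun _ => by rwa [update_self]⟩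
      · rcases k2.eq_or_lt with rfl | k3
        · simpa only [update_self, TermB_upd, if_true] using And.intro s5 s6
        · simpa only [update_of_ne k3.ne, TermB_upd, if_neg k3.ne] using h2 k k1 (by omega)
      · rw [update_of_ne k2.ne]
        rcases (Nat.lt_succ_iff.1 k2).eq_or_lt with rfl | k3
        · rw [update_self]
          exact fun x hx x' hx' => h6 k1 x hx x' (s4 hx')
        · rw [update_of_ne (by omega)]
          exact h3 k k1 k3
  obtain ⟨w, Γ, A, h1, h2, h3, -⟩ := key N le_rfl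
  refine term_final w Γ (h1.mono fun v hv => mem_coe.2 (mem_filter.2 ⟨hv, ?_⟩)) h2 h3 (by omega)
  obtain ⟨h4, h5⟩ := mem_RT.1 hv
  cases v <;> simp [isRoot, pos, IsReal] at h4 h5 ⊢ <;> omega

end Pool.Agent.Work.MP_054302_co.X
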