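import Pool.Agent.Work.MP_054302_co.X.Items
import Pool.Agent.Work.MP_054302_co.X.Homog
import Pool.Agent.Work.MP_054302_co.X.TermB
import Pool.Agent.Work.MP_054302_co.X.M8

namespace Pool.Agent.Work.MP_054302_co.X

open Finset Function
open scoped Classical

/-- Items: left end, right end, view, level. -/
def Itm (N : ℕ) : Finset (ℕ × ℕ × Bool × ℕ) :=
  (range (N + 2) ×ˢ range (N + 2) ×ˢ (univ : Finset Bool) ×ˢ range (N + 1)).filter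
    fun i => i.1 < i.2.1

lemma mem_Itm {N : ℕ} {i : ℕ × ℕ × Bool × ℕ} :
    i ∈ Itm N ↔ i.1 < i.2.1 ∧ i.2.1 ≤ N + 1 ∧ i.2.2.2 ≤ N := by
  simp only [Itm, mem_filter, mem_product, mem_range, mem_univ, true_and]
  omega

section

variable {V : Type} [Fintype V] [DecidableEq V]

/-- Union of the stored sets of level at least `k`. -/
def Sk (N : ℕ) (Sx : ℕ × ℕ × Bool × ℕ → V → Finset V) (k : ℕ) (y : V) : Finset V :=
  ((Itm N).filter fun i => k ≤ i.2.2.2).biUnion fun i => Sx i y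

lemma Sk_anti {N : ℕ} {Sx : ℕ × ℕ × Bool × ℕ → V → Finset V} {k k' : ℕ} (h : k ≤ k') (y : V) :
    Sk N Sx k' y ⊆ Sk N Sx k y := by
  intro x hx
  simp only [Sk, mem_biUnion, mem_filter] at hx ⊢
  obtain ⟨i, ⟨h1, h2⟩, h3⟩ := hx
  exact ⟨i, ⟨h1, h.trans h2⟩, h3⟩

lemma Sk_mono {N : ℕ} {S S' : ℕ × ℕ × Bool × ℕ → V → Finset V} (h : ∀ j y, S j y ⊆ S' j y)
    (k : ℕ) (y : V) : Sk N S k y ⊆ Sk N S' k y := by
  intro x hx
  simp only [Sk, mem_biUnion] at hx ⊢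
  obtain ⟨i, h1, h3⟩ := hx
  exact ⟨i, h1, h i y h3⟩

lemma own_sub {N : ℕ} {Sx : ℕ × ℕ × Bool × ℕ → V → Finset V} {i : ℕ × ℕ × Bool × ℕ}
    (hi : i ∈ Itm N) (y : V) : Sx i y ⊆ Sk N Sx i.2.2.2 y := by
  intro x hx
  simp only [Sk, mem_biUnion, mem_filter]
  exact ⟨i, ⟨hi, le_rfl⟩, hx⟩

lemma Sk_card {N v0 : ℕ} {Sx : ℕ × ℕ × Bool × ℕ → V → Finset V} {Dk : ℕ → ℕ} (hD : Antitone Dk)
    (h : ∀ i y, (Sx i y).card ≤ v0 * Dk i.2.2.2) (k : ℕ) (y : V) :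
    (Sk N Sx k y).card ≤ (Itm N).card * (v0 * Dk k) := by
  refine (card_biUnion_le_card_mul _ _ (v0 * Dk k) ?_).trans ?_
  · intro i hi
    exact (h i y).trans (Nat.mul_le_mul_left _ (hD (mem_filter.1 hi).2))
  · exact Nat.mul_le_mul_right _ (card_filter_le _ _)

/-- Admissibility for an item. -/
def iAdm (N : ℕ) (r : ℕ → ℕ) (i : ℕ × ℕ × Bool × ℕ) (Sx : ℕ × ℕ × Bool × ℕ → V → Finset V) :
    V → (Lb → V) → Prop :=
  cond i.2.2.1 (admR N r (Sk N Sx (i.2.2.2 + 1)) i.1 i.2.1)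
    (admL N r (Sk N Sx (i.2.2.2 + 1)) i.1 i.2.1)

/-- Support for an item. -/
def iSupp (N : ℕ) (r : ℕ → ℕ) (i : ℕ × ℕ × Bool × ℕ) : (Lb → V) → Finset V :=
  cond i.2.2.1 (suppR N r i.1 i.2.1) (suppL N r i.1 i.2.1)

/-- Weight for an item. -/
noncomputable def iWt (N : ℕ) (r : ℕ → ℕ) (G : SimpleGraph V) (Bk : ℕ → ℕ)
    (i : ℕ × ℕ × Bool × ℕ) (H : Finset (V × V)) : (Lb → V) → V → ℕ :=
  cond i.2.2.1 (wtR N r G H (Bk i.2.2.2) i.1 i.2.1) (wtL N r G H (Bk i.2.2.2) i.1 i.2.1)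

/-- The homogeneity lemma for the items of the tree. -/
lemma homog_items (N : ℕ) (r : ℕ → ℕ) {G : SimpleGraph V} {Δ : ℕ} (hΔ : 0 < Δ)
    (hdeg : ∀ v, (nbr G v).card ≤ Δ) (κ β th : ℕ → ℝ) (Dk Bk : ℕ → ℕ) (hD : Antitone Dk)
    (hth : ∀ k, 0 < th k) (h2 : ∀ k ≤ N, 2 ≤ th k * Dk k)
    (hκ : ∀ t, 0 < κ t ∧ 0 < β t ∧ κ (t + 1) ≤ β t * κ t / 2)
    {H0 : Finset (V × V)} {V' : Finset V} (h0 : Host G H0 V' V' (κ 0 * Δ)) :
    ∃ t ≤ (Itm N).card, ∃ (H : Finset (V × V)) (Xs Ys : Finset V), Xs ⊆ V' ∧ Ys ⊆ V' ∧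
      Host G H Xs Ys (κ t * Δ) ∧ ∃ S : ℕ → V → Finset V, (∀ k k' y, k ≤ k' → S k' y ⊆ S k y) ∧
      (∀ k y, (S k y).card ≤ (Itm N).card * (((VT N r).card + 2) * Dk k)) ∧
      ∀ a b k, a < b → b ≤ N + 1 → k ≤ N →
        Heavy N r G H (S k) (Bk k) (th k * (Δ : ℝ) ^ 2) a b →
        (∃ Ls, Lists H Δ (th k) (Dk k) (β t) (admR N r (S (k + 1)) a b) (suppR N r a b)
          (wtR N r G H (Bk k) a b) Ls) ∧
        ∃ Ls, Lists H Δ (th k) (Dk k) (β t) (admL N r (S (k + 1)) a b) (suppL N r a b)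
          (wtL N r G H (Bk k) a b) Ls := by
  obtain ⟨t, ht, H, Xs, Ys, hX, hY, hH, Sx, hSx, hd⟩ := homog (σ := Lb → V) hΔ hdeg (Itm N)
    (fun i => th i.2.2.2) (fun i => Dk i.2.2.2) ((VT N r).card + 2) (iSupp N r) (iAdm N r)
    (iWt N r G Bk) κ β (fun i hi => ⟨hth _, h2 _ (mem_Itm.1 hi).2.2⟩)
    (by
      rintro ⟨a, b, v, k⟩ hi S y s -
      have := supp_card (N := N) (r := r) (mem_Itm.1 hi).1 s
      cases v
      · exact this.2.2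
      · exact ⟨this.1, this.2.1⟩)
    (by
      rintro ⟨a, b, v, k⟩ hi S S' hS y s h
      cases v
      · exact ⟨h.1, psep_mono (Sk_mono hS _) h.2⟩
      · exact ⟨h.1, psep_mono (Sk_mono hS _) h.2⟩)
    (by
      rintro ⟨a, b, v, k⟩ hi H hH s x
      cases v
      · exact (wt_le hdeg hH _ _ _ _ _).2
      · exact (wt_le hdeg hH _ _ _ _ _).1)
    (by
      rintro ⟨a, b, v, k⟩ hi H H' hH s x
      cases v
      · exact (wt_mono hH _ _ _ _ _).2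
      · exact (wt_mono hH _ _ _ _ _).1)
    hκ h0
  refine ⟨t, ht, H, Xs, Ys, hX, hY, hH, Sk N Sx, fun k k' y h => Sk_anti h y,
    Sk_card hD hSx, ?_⟩
  intro a b k hab hb hk hv
  constructor
  · have hi : (a, b, true, k) ∈ Itm N := mem_Itm.2 ⟨hab, hb, hk⟩
    rcases hd _ hi with h | h
    · exact absurd h (not_lt_R (Sk_anti (Nat.le_succ k)) (own_sub hi) hv)
    · exact h
  · have hi : (a, b, false, k) ∈ Itm N := mem_Itm.2 ⟨hab, hb, hk⟩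
    rcases hd _ hi with h | h
    · exact absurd h (not_lt_L (Sk_anti (Nat.le_succ k)) (own_sub hi) hv)
    · exact h

end

theorem full_of_regular (N : ℕ) (r : ℕ → ℕ) (α : ℝ) (hN : 1 ≤ N) (hα : 0 < α)
    (hs : Slack N r α) (B : ℕ) (κ0 : ℝ) (h0 : 0 < κ0) (h1 : κ0 ≤ 1) :
    ∃ (C : ℝ) (D0 : ℕ), 0 < C ∧ ∀ (V : Type) [Fintype V] [DecidableEq V] (G : SimpleGraph V)
      (Δ : ℕ) (V' : Finset V) (H0 : Finset (V × V)), (∀ v, (nbr G v).card ≤ Δ) →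
      Host G H0 V' V' (κ0 * Δ) → D0 ≤ Δ → C * (V'.card : ℝ) ^ α ≤ Δ → Full N r G B := by
  obtain ⟨u, hu⟩ : ∃ u, u = (VT N r).card := ⟨_, rfl⟩
  obtain ⟨Mi, hMi⟩ : ∃ Mi, Mi = (Itm N).card := ⟨_, rfl⟩
  obtain ⟨κ, β, th, Dk, hκ0, hκ, hκa, hth0, hth, htha, hths, hDa, hD2, hDX⟩ :=
    params N u Mi κ0 h0 h1 hN
  have hu1 : 1 ≤ u := by
    have := card_VT (r := r) hN
    omega
  have huR : (0 : ℝ) < u := by exact_mod_cast hu1
  have hγ : 0 < κ Mi ^ (u + 1) := pow_pos (hκ Mi).1 _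
  obtain ⟨θi, hθi⟩ : ∃ θi : ℝ, θi = κ Mi ^ (u + 1) / (20 * (u : ℝ) ^ 3) := ⟨_, rfl⟩
  have hθi0 : 0 < θi := by rw [hθi]; positivity
  obtain ⟨Q0, D0, hterm⟩ := terminal N r θi hθi0 B
  obtain ⟨Q, hQ0, hQ1⟩ : ∃ Q, Q0 ≤ Q ∧ B + N * u < Q := ⟨Q0 + (B + N * u + 1), by omega, by omega⟩
  obtain ⟨s, hsdef⟩ : ∃ s, s = Mi * ((u + 2) * Dk 0) := ⟨_, rfl⟩
  obtain ⟨K, hK⟩ : ∃ K : ℝ, K = (sunC u Q : ℝ) * 64 / (κ Mi ^ (u + 1) * th N ^ 2) := ⟨_, rfl⟩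
  have hthN := hth N
  have hK0 : 0 ≤ K := by rw [hK]; positivity
  obtain ⟨D1, hD1⟩ := exists_nat_ge
    (20 * (u : ℝ) ^ 2 * ((1 + s) * (1 + (Dk 0 + Dk 0) * (u + 2)) : ℕ) / κ Mi ^ (u + 1))
  obtain ⟨D2, hD2'⟩ := exists_nat_ge ((2 * (s : ℝ) + 2) / κ Mi)
  refine ⟨1 + K * 2 ^ u, D0 + D1 + D2 + 1, by positivity, ?_⟩
  intro V _ _ G Δ V' H0 hdeg hH0 hΔ hC
  by_contra hF
  have hΔ0 : 0 < Δ := by omega
  have hΔR : (0 : ℝ) < Δ := by exact_mod_cast hΔ0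
  have hcher : ∀ v, ((jpairs G Q (nbr G v)).card : ℝ) ≤ θi * (Δ : ℝ) ^ 2 := by
    intro v
    by_contra hc
    exact hF (hterm V G Δ Q (nbr G v) hQ0 (by omega) hdeg (hdeg v) (not_le.1 hc).le)
  obtain ⟨t, ht, H, Xs, Ys, hX, hY, hH, S, hSa, hSc, hL⟩ := homog_items N r hΔ0 hdeg κ β th Dk
    (fun k => B + (N - k) * u) hDa hth hD2
    (fun t => ⟨(hκ t).1, (hκ t).2.2.1, (hκ t).2.2.2.1⟩) (by rw [hκ0]; exact hH0)
  rw [← hMi] at ht hSc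
  rw [← hu] at hSc
  have hκt : κ Mi ≤ κ t := hκa ht
  have hγt : κ Mi ^ (u + 1) ≤ κ t ^ (u + 1) := pow_le_pow_left₀ (hκ Mi).1.le hκt _
  obtain ⟨p0, hp0⟩ := hH0.ne
  have hV' : 1 ≤ V'.card := card_pos.2 ⟨p0.1, (hH0.sub p0 hp0).2.1⟩
  have hD1Δ : (D1 : ℝ) ≤ Δ := by exact_mod_cast (by omega : D1 ≤ Δ)
  have hD2Δ : (D2 : ℝ) ≤ Δ := by exact_mod_cast (by omega : D2 ≤ Δ)
  have hbase : ∀ a, Nn N r a (a + 1) = ∅ →
      Heavy N r G H (S 0) (B + (N - 0) * u) (th 0 * (Δ : ℝ) ^ 2) a (a + 1) := by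
    intro a ha
    refine heavy_base hdeg hH (mul_pos (hκ t).1 hΔR).le (S 0) s (by rw [hsdef]; exact hSc 0) ?_
      _ a ha ?_
    · have h3 : 2 * (s : ℝ) + 2 ≤ Δ * κ Mi := (div_le_iff₀ (hκ Mi).1).1 (hD2'.trans hD2Δ)
      nlinarith
    · rw [mul_pow]
      exact mul_le_mul_of_nonneg_right
        (hth0.trans (pow_le_pow_left₀ (hκ Mi).1.le hκt _)) (by positivity)
  have hfin := merge_ind N hN (fun a b k => ∃ k', k' ≤ k ∧ k' ≤ N ∧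
      Heavy N r G H (S k') (B + (N - k') * u) (th k' * (Δ : ℝ) ^ 2) a b)
    (fun a b k k' hk ⟨j, h1, h2⟩ => ⟨j, h1.trans hk, h2⟩) ?_
    ⟨0, le_rfl, Nat.zero_le _, hbase 0 nn_first⟩ ⟨0, le_rfl, Nat.zero_le _, hbase N nn_last⟩
  · obtain ⟨k, -, -, hk⟩ := hfin
    exact hF (full_of_heavy (mul_pos (hth k) (by positivity)) (Nat.le_add_right _ _) hk)
  rintro a b b' c k hab hb hbb hb' hbc hc hk ⟨k1, hk1, hk1N, hv1⟩ ⟨k2, hk2, hk2N, hv2⟩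
  obtain ⟨L1, hL1⟩ := (hL a b k1 hab (by omega) hk1N hv1).1
  obtain ⟨L2, hL2⟩ := (hL b' c k2 hbc hc hk2N hv2).2
  have hBk : ∀ j, j ≤ k → B + (N - (k + 1)) * u + u ≤ B + (N - j) * u := by
    intro j hj
    have : (N - (k + 1) + 1) * u ≤ (N - j) * u := Nat.mul_le_mul_right _ (by omega)
    rw [add_mul, one_mul] at this
    omega
  have hXk : ∀ j, j ≤ k → 16 * ((u : ℝ) * (Mi * ((u + 2) * Dk (k + 1)) : ℕ) +
      (u + 2) * (1 + (Mi * ((u + 2) * Dk (k + 1)) : ℕ))) ≤ th k ^ 2 * Dk j := by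
    intro j hj
    refine (hDX k hk).trans (mul_le_mul_of_nonneg_left ?_ (by positivity))
    exact_mod_cast hDa hj
  let M : MD V := ⟨N, r, G, Δ, H, Xs, Ys, S (k + 1), a, b, b', c, B + (N - (k + 1)) * u,
    B + (N - k1) * u, B + (N - k2) * u, Q, Dk k1, Dk k2, Mi * ((u + 2) * Dk (k + 1)), th k, th k1,
    th k2, κ t, β t, θi, L1, L2, p0.1⟩
  have hMu : M.u = u := hu.symm
  have hMγ : M.γ = κ t ^ (u + 1) := by
    show κ t ^ (M.u + 1) = _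
    rw [hMu]
  have hM : M.Hyp := by
    refine ⟨hab, hb, hbb, hb', hbc, hc, hΔ0, hdeg, ⟨(hκ t).1, (hκ t).2.1⟩, hH, hSc (k + 1),
      ⟨hth k, htha hk1, htha hk2⟩, ?_, ?_, ?_, ?_, ?_, hcher, ?_, ?_, ?_, ?_, ?_, ?_⟩
    · rw [hMu]; exact hBk k1 hk1
    · rw [hMu]; exact hBk k2 hk2
    · exact lists_mono (fun y w h => ⟨h.1, psep_mono (fun y => hSa _ _ y (by omega)) h.2⟩) hL1
    · exact lists_mono (fun y w h => ⟨h.1, psep_mono (fun y => hSa _ _ y (by omega)) h.2⟩) hL2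
    · rw [hMγ]; exact (hκ t).2.2.2.2
    · rw [hMu, hMγ]
      show (u : ℝ) ^ 3 * θi ≤ _
      have : (u : ℝ) ^ 3 * θi = κ Mi ^ (u + 1) / 20 := by
        rw [hθi]; field_simp
      rw [this]
      linarith
    · rw [hMu, hMγ]
      have h3 : M.s0 ≤ (1 + s) * (1 + (Dk 0 + Dk 0) * (u + 2)) := by
        show (1 + Mi * ((u + 2) * Dk (k + 1))) * (1 + (Dk k1 + Dk k2) * (M.u + 2)) ≤ _
        rw [hMu, hsdef]
        have e1 := hDa (Nat.zero_le (k + 1))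
        have e2 := hDa (Nat.zero_le k1)
        have e3 := hDa (Nat.zero_le k2)
        gcongr
      have h4 : (M.s0 : ℝ) ≤ ((1 + s) * (1 + (Dk 0 + Dk 0) * (u + 2)) : ℕ) := by exact_mod_cast h3
      have h5 := (div_le_iff₀ hγ).1 (hD1.trans hD1Δ)
      have h6 : (u : ℝ) ^ 2 * M.s0 ≤
          (u : ℝ) ^ 2 * ((1 + s) * (1 + (Dk 0 + Dk 0) * (u + 2)) : ℕ) := by gcongr
      have h7 : (Δ : ℝ) * κ Mi ^ (u + 1) ≤ Δ * κ t ^ (u + 1) := by gcongr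
      show _ ≤ _ * (Δ : ℝ)
      linarith
    · rw [hMu]; exact hXk k1 hk1
    · rw [hMu]; exact hXk k2 hk2
    · show B + (N - (k + 1)) * u < Q
      have : (N - (k + 1)) * u ≤ N * u := Nat.mul_le_mul_right _ (by omega)
      omega
    · rw [hMu, hMγ]
      have c1 := card_seg (r := r) hb hbb hb'
      have c2 := card_seg_root (r := r) hb hbb hb'
      have c3 : (Seg N r (2 * b) (2 * b')).card ≤ u := by
        rw [hu]; exact card_filter_le _ _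
      have c4 : ((Seg N r (2 * b) (2 * b')).filter fun v => isRoot v = true).card ≤
          (Seg N r (2 * b) (2 * b')).card := card_filter_le _ _
      have hUR : M.UR.card = (b' + 1 - b) + ∑ i ∈ Icc b b', r i := c2
      have he : M.e + 2 = 3 * (b' + 1 - b) + 2 * ∑ i ∈ Icc b b', r i := by
        show (Seg N r (2 * b) (2 * b')).card - 1 + 2 = _
        omega
      have hsl := hs b b' hb hbb hb'
      have h3 : K * (M.n : ℝ) ^ (M.UR.card - 1) ≤ (Δ : ℝ) ^ M.e := by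
        refine slack_pow (u := u) (m := V'.card) hα (by omega) (by omega) ?_ hV' ?_ hK0 ?_ ?_ hC
        · have e1 : ((M.UR.card - 1 : ℕ) : ℝ) =
              ((b' + 1 - b : ℕ) : ℝ) + (∑ i ∈ Icc b b', r i : ℕ) - 1 := by
            rw [Nat.cast_sub (by omega), hUR]; push_cast; ring
          have e2 : (M.e : ℝ) =
              3 * ((b' + 1 - b : ℕ) : ℝ) - 2 + 2 * (∑ i ∈ Icc b b', r i : ℕ) := by
            have : ((M.e + 2 : ℕ) : ℝ) =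
                ((3 * (b' + 1 - b) + 2 * ∑ i ∈ Icc b b', r i : ℕ) : ℝ) := by rw [he]
            rw [Nat.cast_add, Nat.cast_add, Nat.cast_mul, Nat.cast_mul] at this
            push_cast at this ⊢
            linarith
          rw [e1, e2]; exact hsl
        · show Xs.card + Ys.card ≤ _
          have := card_le_card hX
          have := card_le_card hY
          omega
        · have : 0 ≤ K * 2 ^ u := by positivity
          linarith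
        · linarith
      have h4 : (sunC u Q : ℝ) = κ Mi ^ (u + 1) * th N ^ 2 / 64 * K := by
        rw [hK]; field_simp
      have h5 : th N ^ 2 ≤ th k ^ 2 := pow_le_pow_left₀ hthN.le (htha hk.le) _
      show (sunC u Q : ℝ) * _ ≤ κ t ^ (u + 1) * th k ^ 2 / 64 * (Δ : ℝ) ^ M.e
      rw [h4, mul_assoc]
      have := (hκ t).1
      gcongr
  obtain ⟨s', t', g1, g2, g3, g4⟩ := MD.merge hM
  refine ⟨s', t', g1, g2, g3, k + 1, le_rfl, hk, heavy_mono ?_ g4⟩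
  rw [hMγ]
  show _ ≤ κ t ^ (u + 1) * th k ^ 2 / (64 * (N : ℝ) ^ 2) * (Δ : ℝ) ^ 2
  refine mul_le_mul_of_nonneg_right ((hths k).trans ?_) (by positivity)
  gcongr

end Pool.Agent.Work.MP_054302_co.X
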