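import Pool.Agent.Work.MP_054302_co.X.Defs

namespace Pool.Agent.Work.MP_054302_co.X

open Finset Function
open scoped Classical

variable {V : Type} [Fintype V] [DecidableEq V] {G : SimpleGraph V} {Δ Q : ℕ}

omit [Fintype V] [DecidableEq V] in
lemma TermA_dc (A T : Finset V) (R : V → V → Prop) :
    ∑ z ∈ T, ((A.filter fun x => R x z).card : ℝ) =
      ∑ x ∈ A, ((T.filter fun z => R x z).card : ℝ) := by
  simp only [Finset.card_filter, Nat.cast_sum]
  exact Finset.sum_comm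

omit [Fintype V] in
lemma TermA_sdiff (S F : Finset V) : (S.card : ℝ) - F.card ≤ ((S \ F).card : ℝ) := by
  have h : S.card ≤ (S \ F).card + F.card := Finset.card_le_card_sdiff_add_card
  have h' : (S.card : ℝ) ≤ ((S \ F).card : ℝ) + F.card := by exact_mod_cast h
  linarith

/-- One far root: the sum over `z ∈ U0 \ F` of the number of `x ∈ A` with `Jp x z` is at least
`A.card (η Δ - F.card) ≥ A.card η Δ / 2`, and there are at most `Δ` such `z`. -/
lemma term_z {U0 A F : Finset V} {η : ℝ} (hη : 0 < η) (hΔ : 0 < Δ) (hU : U0.card ≤ Δ)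
    (hmin : ∀ x ∈ U0, η * Δ ≤ ((U0.filter fun x' => Jp G Q x x').card : ℝ))
    (hA : A ⊆ U0) (hne : A.Nonempty) (hF : (F.card : ℝ) ≤ η * Δ / 2) :
    ∃ z ∈ U0, z ∉ F ∧ η / 2 * A.card ≤ ((A.filter fun x => Jp G Q x z).card : ℝ) := by
  by_contra hcon
  have hlt : ∀ z ∈ U0 \ F, ((A.filter fun x => Jp G Q x z).card : ℝ) < η / 2 * A.card := by
    intro z hz
    rw [Finset.mem_sdiff] at hz
    by_contra h
    exact hcon ⟨z, hz.1, hz.2, not_lt.mp h⟩
  have hΔ' : (0 : ℝ) < Δ := by exact_mod_cast hΔ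
  have hAc : (0 : ℝ) < A.card := by exact_mod_cast hne.card_pos
  have hlow : (A.card : ℝ) * (η * Δ / 2) ≤
      ∑ z ∈ U0 \ F, ((A.filter fun x => Jp G Q x z).card : ℝ) := by
    rw [TermA_dc A (U0 \ F) (fun x z => Jp G Q x z), ← nsmul_eq_mul]
    apply Finset.card_nsmul_le_sum
    intro x hx
    have h1 := hmin x (hA hx)
    have h2 := TermA_sdiff (U0.filter fun x' => Jp G Q x x') F
    have h3 : (U0.filter fun x' => Jp G Q x x') \ F = (U0 \ F).filter fun z => Jp G Q x z := by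
      ext z
      simp only [Finset.mem_sdiff, Finset.mem_filter]
      tauto
    rw [h3] at h2
    linarith
  have hpos : (0 : ℝ) < (A.card : ℝ) * (η * Δ / 2) := by positivity
  have hT : (U0 \ F).Nonempty := by
    rw [Finset.nonempty_iff_ne_empty]
    intro h
    rw [h, Finset.sum_empty] at hlow
    linarith
  have hup := Finset.sum_lt_sum_of_nonempty hT hlt
  rw [Finset.sum_const, nsmul_eq_mul] at hup
  have hc : (((U0 \ F).card : ℕ) : ℝ) ≤ Δ := by
    exact_mod_cast (Finset.card_le_card Finset.sdiff_subset).trans hU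
  have h4 : (((U0 \ F).card : ℕ) : ℝ) * (η / 2 * A.card) ≤ Δ * (η / 2 * A.card) :=
    mul_le_mul_of_nonneg_right hc (by positivity)
  have h5 : (Δ : ℝ) * (η / 2 * A.card) = A.card * (η * Δ / 2) := by ring
  linarith

/-- Iterate `term_z`. -/
lemma term_zs {U0 A F : Finset V} {η : ℝ} (hη : 0 < η) (hΔ : 0 < Δ) (hU : U0.card ≤ Δ)
    (hmin : ∀ x ∈ U0, η * Δ ≤ ((U0.filter fun x' => Jp G Q x x').card : ℝ))
    (hA : A ⊆ U0) (hne : A.Nonempty) (k : ℕ) (hF : (F.card : ℝ) + k ≤ η * Δ / 2) :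
    ∃ (zs : ℕ → V) (A' : Finset V), Set.InjOn zs (range k) ∧ (∀ j < k, zs j ∉ F) ∧ A' ⊆ A ∧
      (η / 2) ^ k * A.card ≤ (A'.card : ℝ) ∧ ∀ x ∈ A', ∀ j < k, Jp G Q x (zs j) := by
  induction k with
  | zero =>
    obtain ⟨x, hx⟩ := hne
    exact ⟨fun _ => x, A, by simp, by simp, subset_rfl, by simp, by simp⟩
  | succ k ih =>
    have hk : ((k + 1 : ℕ) : ℝ) = k + 1 := by push_cast; ring
    rw [hk] at hF
    obtain ⟨zs, A', hinj, hzF, hA', hc, hJ⟩ := ih (by linarith)
    have hAc : (0 : ℝ) < A.card := by exact_mod_cast hne.card_pos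
    have hA'pos : (0 : ℝ) < A'.card := lt_of_lt_of_le (by positivity) hc
    have hne' : A'.Nonempty := Finset.card_pos.mp (by exact_mod_cast hA'pos)
    have hF' : (((F ∪ (range k).image zs).card : ℕ) : ℝ) ≤ η * Δ / 2 := by
      have h1 : (F ∪ (range k).image zs).card ≤ F.card + k :=
        (Finset.card_union_le _ _).trans
          (Nat.add_le_add_left (Finset.card_image_le.trans (by simp)) _)
      have h2 : (((F ∪ (range k).image zs).card : ℕ) : ℝ) ≤ F.card + k := by exact_mod_cast h1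
      linarith
    obtain ⟨z, -, hz, hcz⟩ := term_z hη hΔ hU hmin (hA'.trans hA) hne' hF'
    rw [Finset.mem_union, not_or] at hz
    have hzne : ∀ j < k, zs j ≠ z := fun j hj h =>
      hz.2 (Finset.mem_image.mpr ⟨j, Finset.mem_range.mpr hj, h⟩)
    refine ⟨fun j => if j = k then z else zs j, A'.filter fun x => Jp G Q x z, ?_, ?_,
      (Finset.filter_subset _ _).trans hA', ?_, ?_⟩
    · intro i hi j hj hij
      have hi' : i < k + 1 := Finset.mem_range.mp (Finset.mem_coe.mp hi)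
      have hj' : j < k + 1 := Finset.mem_range.mp (Finset.mem_coe.mp hj)
      by_cases h1 : i = k
      · by_cases h2 : j = k
        · rw [h1, h2]
        · simp only [h1, h2, if_true, if_false] at hij
          exact absurd hij.symm (hzne j (by omega))
      · by_cases h2 : j = k
        · simp only [h1, h2, if_true, if_false] at hij
          exact absurd hij (hzne i (by omega))
        · simp only [h1, h2, if_false] at hij
          exact hinj (Finset.mem_coe.mpr (Finset.mem_range.mpr (by omega)))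
            (Finset.mem_coe.mpr (Finset.mem_range.mpr (by omega))) hij
    · intro j hj
      by_cases h1 : j = k
      · simp only [h1, if_true]
        exact hz.1
      · simp only [h1, if_false]
        exact hzF j (by omega)
    · have h1 : η / 2 * ((η / 2) ^ k * A.card) ≤ η / 2 * A'.card :=
        mul_le_mul_of_nonneg_left hc (by positivity)
      have h2 : (η / 2) ^ (k + 1) * A.card = η / 2 * ((η / 2) ^ k * A.card) := by ring
      linarith
    · intro x hx j hj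
      rw [Finset.mem_filter] at hx
      by_cases h1 : j = k
      · simp only [h1, if_true]
        exact hx.2
      · simp only [h1, if_false]
        exact hJ x hx.1 j (by omega)

/-- A near root: count triples `x ∈ A`, `x' ∈ U0`, `Jp x x'`, `y` a common neighbour outside `F`.
There are at least `A.card η Δ (Q - F.card)`, and at most `P ∑ y, card (nbr y ∩ U0) ≤ P Δ^2` if
every `y ∉ F` has fewer than `P` neighbours in `A`. -/
lemma term_y (hdeg : ∀ v, (nbr G v).card ≤ Δ) {U0 A F : Finset V} {η δ : ℝ} {P : ℕ}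
    (hη : 0 < η) (hδ : 0 < δ) (hΔ : 0 < Δ) (hU : U0.card ≤ Δ)
    (hmin : ∀ x ∈ U0, η * Δ ≤ ((U0.filter fun x' => Jp G Q x x').card : ℝ))
    (hA : A ⊆ U0) (hAc : δ * Δ ≤ A.card) (hQ : (P : ℝ) < δ * η * ((Q : ℝ) - F.card)) :
    ∃ y, y ∉ F ∧ P ≤ (A.filter fun x => G.Adj x y).card := by
  by_contra hcon
  have hle : ∀ y ∈ (univ : Finset V) \ F, ((A.filter fun x => G.Adj x y).card : ℝ) ≤ P := by
    intro y hy
    rw [Finset.mem_sdiff] at hy
    have h : ¬ P ≤ (A.filter fun x => G.Adj x y).card := fun h => hcon ⟨y, hy.2, h⟩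
    exact_mod_cast (not_le.mp h).le
  have hΔ' : (0 : ℝ) < Δ := by exact_mod_cast hΔ
  have hP0 : (0 : ℝ) ≤ P := Nat.cast_nonneg P
  have hQF : (0 : ℝ) < (Q : ℝ) - F.card := by
    by_contra h
    have h1 : δ * η * ((Q : ℝ) - F.card) ≤ 0 :=
      mul_nonpos_of_nonneg_of_nonpos (by positivity) (not_lt.mp h)
    linarith
  have hlow : (A.card : ℝ) * (η * Δ * ((Q : ℝ) - F.card)) ≤
      ∑ x ∈ A, ∑ x' ∈ U0, ((((nbr G x ∩ nbr G x') \ F).card : ℕ) : ℝ) := by
    rw [← nsmul_eq_mul]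
    apply Finset.card_nsmul_le_sum
    intro x hx
    have h1 := hmin x (hA hx)
    have h2 : ((U0.filter fun x' => Jp G Q x x').card : ℝ) * ((Q : ℝ) - F.card) ≤
        ∑ x' ∈ U0.filter (fun x' => Jp G Q x x'),
          ((((nbr G x ∩ nbr G x') \ F).card : ℕ) : ℝ) := by
      rw [← nsmul_eq_mul]
      apply Finset.card_nsmul_le_sum
      intro x' hx'
      have h3 : (Q : ℝ) ≤ (nbr G x ∩ nbr G x').card := by
        exact_mod_cast (Finset.mem_filter.mp hx').2.2
      have h4 := TermA_sdiff (nbr G x ∩ nbr G x') F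
      linarith
    have h3 : ∑ x' ∈ U0.filter (fun x' => Jp G Q x x'),
          ((((nbr G x ∩ nbr G x') \ F).card : ℕ) : ℝ) ≤
        ∑ x' ∈ U0, ((((nbr G x ∩ nbr G x') \ F).card : ℕ) : ℝ) :=
      Finset.sum_le_sum_of_subset_of_nonneg (Finset.filter_subset _ _)
        (fun _ _ _ => Nat.cast_nonneg _)
    have h4 : η * Δ * ((Q : ℝ) - F.card) ≤
        ((U0.filter fun x' => Jp G Q x x').card : ℝ) * ((Q : ℝ) - F.card) :=
      mul_le_mul_of_nonneg_right h1 hQF.le
    linarith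
  have hmid : ∑ x ∈ A, ∑ x' ∈ U0, ((((nbr G x ∩ nbr G x') \ F).card : ℕ) : ℝ) =
      ∑ x' ∈ U0, ∑ y ∈ nbr G x' \ F, ((A.filter fun x => G.Adj x y).card : ℝ) := by
    rw [Finset.sum_comm]
    apply Finset.sum_congr rfl
    intro x' _
    rw [TermA_dc A (nbr G x' \ F) (fun x y => G.Adj x y)]
    apply Finset.sum_congr rfl
    intro x _
    have h : (nbr G x ∩ nbr G x') \ F = (nbr G x' \ F).filter fun y => G.Adj x y := by
      ext y
      simp only [Finset.mem_sdiff, Finset.mem_filter, Finset.mem_inter, mem_nbr]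
      tauto
    rw [h]
  have hup : ∑ x' ∈ U0, ∑ y ∈ nbr G x' \ F, ((A.filter fun x => G.Adj x y).card : ℝ) ≤
      (Δ : ℝ) * (Δ * P) := by
    have h1 : ∑ x' ∈ U0, ∑ y ∈ nbr G x' \ F, ((A.filter fun x => G.Adj x y).card : ℝ) ≤
        (U0.card : ℝ) * (Δ * P) := by
      rw [← nsmul_eq_mul]
      apply Finset.sum_le_card_nsmul
      intro x' _
      have h2 : ∑ y ∈ nbr G x' \ F, ((A.filter fun x => G.Adj x y).card : ℝ) ≤
          (((nbr G x' \ F).card : ℕ) : ℝ) * P := by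
        rw [← nsmul_eq_mul]
        apply Finset.sum_le_card_nsmul
        intro y hy
        exact hle y (Finset.mem_sdiff.mpr ⟨Finset.mem_univ y, (Finset.mem_sdiff.mp hy).2⟩)
      have h3 : (((nbr G x' \ F).card : ℕ) : ℝ) ≤ Δ := by
        exact_mod_cast (Finset.card_le_card Finset.sdiff_subset).trans (hdeg x')
      exact h2.trans (mul_le_mul_of_nonneg_right h3 hP0)
    have h2 : (U0.card : ℝ) ≤ Δ := by exact_mod_cast hU
    exact h1.trans (mul_le_mul_of_nonneg_right h2 (by positivity))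
  have h1 : δ * Δ * (η * Δ * ((Q : ℝ) - F.card)) ≤ A.card * (η * Δ * ((Q : ℝ) - F.card)) :=
    mul_le_mul_of_nonneg_right hAc (by positivity)
  have h2 : (Δ : ℝ) * Δ * P < Δ * Δ * (δ * η * ((Q : ℝ) - F.card)) :=
    mul_lt_mul_of_pos_left hQ (by positivity)
  have h3 : δ * Δ * (η * Δ * ((Q : ℝ) - F.card)) = Δ * Δ * (δ * η * ((Q : ℝ) - F.card)) := by
    ring
  have h4 : (Δ : ℝ) * (Δ * P) = Δ * Δ * P := by ring
  linarith

/-- At least `η Δ / 2` vertices of `U0` have `p` heavy partners in `Γ0`; pigeonhole on the set of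
partners, a subset of `Γ0`. -/
lemma term_next {U0 Γ0 : Finset V} {η : ℝ} {p : ℕ} (hη : 0 < η) (hΔ : 0 < Δ) (hU : U0.card ≤ Δ)
    (hmin : ∀ x ∈ U0, η * Δ ≤ ((U0.filter fun x' => Jp G Q x x').card : ℝ))
    (hΓ : Γ0 ⊆ U0) (hne : Γ0.Nonempty) (hP : 2 * (p : ℝ) ≤ η * Γ0.card) :
    ∃ Γ A' : Finset V, Γ ⊆ Γ0 ∧ p ≤ Γ.card ∧ A' ⊆ U0 ∧
      η / (2 * 2 ^ Γ0.card) * Δ ≤ (A'.card : ℝ) ∧ ∀ x ∈ Γ, ∀ x' ∈ A', Jp G Q x x' := by
  have hΔ' : (0 : ℝ) < Δ := by exact_mod_cast hΔ
  have hg : (0 : ℝ) < Γ0.card := by exact_mod_cast hne.card_pos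
  obtain ⟨B, hB⟩ : ∃ B : Finset V,
      B = U0.filter fun x' => p ≤ (Γ0.filter fun x => Jp G Q x x').card := ⟨_, rfl⟩
  have hlow : (Γ0.card : ℝ) * (η * Δ) ≤
      ∑ x' ∈ U0, ((Γ0.filter fun x => Jp G Q x x').card : ℝ) := by
    rw [TermA_dc Γ0 U0 (fun x z => Jp G Q x z), ← nsmul_eq_mul]
    apply Finset.card_nsmul_le_sum
    intro x hx
    exact hmin x (hΓ hx)
  have hup : ∑ x' ∈ U0, ((Γ0.filter fun x => Jp G Q x x').card : ℝ) ≤
      ∑ x' ∈ U0, ((if x' ∈ B then (Γ0.card : ℝ) else 0) + p) := by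
    apply Finset.sum_le_sum
    intro x' hx'
    by_cases h : x' ∈ B
    · have h1 : ((Γ0.filter fun x => Jp G Q x x').card : ℝ) ≤ Γ0.card := by
        exact_mod_cast Finset.card_filter_le _ _
      have h2 : (0 : ℝ) ≤ p := Nat.cast_nonneg p
      rw [if_pos h]
      linarith
    · have h1 : ¬ p ≤ (Γ0.filter fun x => Jp G Q x x').card := fun h1 =>
        h (hB ▸ Finset.mem_filter.mpr ⟨hx', h1⟩)
      have h2 : ((Γ0.filter fun x => Jp G Q x x').card : ℝ) ≤ p := by
        exact_mod_cast (not_le.mp h1).le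
      rw [if_neg h]
      linarith
  have hBU : B ⊆ U0 := hB ▸ Finset.filter_subset _ _
  rw [Finset.sum_add_distrib, Finset.sum_ite_mem, Finset.inter_eq_right.mpr hBU, Finset.sum_const,
    Finset.sum_const, nsmul_eq_mul, nsmul_eq_mul] at hup
  have hU' : (U0.card : ℝ) ≤ Δ := by exact_mod_cast hU
  have h1 : (U0.card : ℝ) * p ≤ Δ * p := mul_le_mul_of_nonneg_right hU' (Nat.cast_nonneg p)
  have h2 : (Δ : ℝ) * (2 * p) ≤ Δ * (η * Γ0.card) := mul_le_mul_of_nonneg_left hP hΔ'.le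
  have hBc : η * Δ / 2 ≤ (B.card : ℝ) := by
    have h3 : η * Δ / 2 * Γ0.card ≤ (B.card : ℝ) * Γ0.card := by linarith
    exact le_of_mul_le_mul_right h3 hg
  have hmaps : ∀ x' ∈ B, (Γ0.filter fun x => Jp G Q x x') ∈ Γ0.powerset := fun x' _ =>
    Finset.mem_powerset.mpr (Finset.filter_subset _ _)
  have hb : Γ0.powerset.card • (η / (2 * 2 ^ Γ0.card) * Δ) ≤ (B.card : ℝ) := by
    rw [Finset.card_powerset, nsmul_eq_mul]
    have h3 : ((2 ^ Γ0.card : ℕ) : ℝ) * (η / (2 * 2 ^ Γ0.card) * Δ) = η * Δ / 2 := by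
      push_cast
      field_simp
    rw [h3]
    exact hBc
  obtain ⟨Γ, hΓm, hfib⟩ := Finset.exists_le_card_fiber_of_nsmul_le_card_of_maps_to hmaps
    ⟨∅, Finset.empty_mem_powerset _⟩ hb
  have hfpos : (0 : ℝ) < ((B.filter fun x' => (Γ0.filter fun x => Jp G Q x x') = Γ).card : ℝ) :=
    lt_of_lt_of_le (by positivity) hfib
  obtain ⟨x0, hx0⟩ : (B.filter fun x' => (Γ0.filter fun x => Jp G Q x x') = Γ).Nonempty :=
    Finset.card_pos.mp (by exact_mod_cast hfpos)
  rw [Finset.mem_filter] at hx0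
  refine ⟨Γ, B.filter fun x' => (Γ0.filter fun x => Jp G Q x x') = Γ,
    Finset.mem_powerset.mp hΓm, ?_, (Finset.filter_subset _ _).trans hBU, hfib, ?_⟩
  · have h3 := hx0.1
    rw [hB, Finset.mem_filter] at h3
    rw [← hx0.2]
    exact h3.2
  · intro x hx x' hx'
    rw [Finset.mem_filter] at hx'
    rw [← hx'.2, Finset.mem_filter] at hx
    exact hx.2

end Pool.Agent.Work.MP_054302_co.X
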