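import Pool.Agent.Work.MP_054302_co.X.Tree

namespace Pool.Agent.Work.MP_054302_co.X

open Finset Function
open scoped Classical

variable {N : ℕ} {r : ℕ → ℕ} {p : ℕ}

lemma mem_TpS {x : Lb × ℕ} :
    x ∈ TpS N r p ↔ IsReal N r x.1 ∧ x.2 < p ∧ (isRoot x.1 = true → x.2 = 0) := by
  simp only [TpS, mem_filter, mem_product, mem_VT, mem_range, and_assoc]

lemma TpF_roots {u v : Lb} (h : adj N r u v) (hu : isRoot u = true) : isRoot v = false := by
  cases u <;> cases v <;> simp_all [adj, Ed, isRoot]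

lemma TpF_adj {x x' : TpS N r p} (h : adj N r x.1.1 x'.1.1)
    (h2 : x.1.2 = x'.1.2 ∨ isRoot x.1.1 = true ∨ isRoot x'.1.1 = true) : (Tp N r p).Adj x x' := by
  rw [Tp, SimpleGraph.fromRel_adj]
  refine ⟨?_, Or.inl ⟨h, h2⟩⟩
  rintro rfl
  exact adj_irrefl _ h

lemma TpF_of_adj {x x' : TpS N r p} (h : (Tp N r p).Adj x x') : adj N r x.1.1 x'.1.1 ∧
    (x.1.2 = x'.1.2 ∨ isRoot x.1.1 = true ∨ isRoot x'.1.1 = true) := by
  rw [Tp, SimpleGraph.fromRel_adj] at h
  rcases h.2 with h | h
  · exact h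
  · refine ⟨adj_symm _ _ h.1, ?_⟩
    rcases h.2 with h | h | h
    · exact Or.inl h.symm
    · exact Or.inr (Or.inr h)
    · exact Or.inr (Or.inl h)

lemma TpF_copies {V : Type} [DecidableEq V] {G : SimpleGraph V} {w : Lb → V}
    (h : Rob (adj N r) G ((p + 1) * (VT N r).card) (NR N r) w) (k : ℕ) (hk : k ≤ p) :
    ∃ F : ℕ → Lb → V, ∀ i < k, (∀ v, v ∉ NR N r → F i v = w v) ∧ Set.InjOn (F i) (NR N r) ∧
      (∀ v ∈ NR N r, F i v ∉ (RT N r).image w) ∧
      (∀ u ∈ NR N r, ∀ v, adj N r u v → G.Adj (F i u) (F i v)) ∧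
      ∀ j < i, ∀ u ∈ NR N r, ∀ v ∈ NR N r, F i u ≠ F j v := by
  induction k with
  | zero => exact ⟨fun _ => w, fun i hi => absurd hi (Nat.not_lt_zero i)⟩
  | succ k ih =>
    obtain ⟨F, hF⟩ := ih (Nat.le_of_succ_le hk)
    have h1 : (RT N r).card ≤ (VT N r).card := card_filter_le _ _
    have h2 : (NR N r).card ≤ (VT N r).card := card_filter_le _ _
    have h3 : ((range k).biUnion fun j => (NR N r).image (F j)).card ≤ k * (VT N r).card := by
      refine card_biUnion_le.trans ?_
      refine (sum_le_card_nsmul _ _ (VT N r).card fun j _ => card_image_le.trans h2).trans ?_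
      simp
    have h4 : ((RT N r).image w ∪ (range k).biUnion fun j => (NR N r).image (F j)).card ≤
        (p + 1) * (VT N r).card := by
      refine (card_union_le _ _).trans ?_
      have h5 : ((RT N r).image w).card ≤ (VT N r).card := card_image_le.trans h1
      have h6 : k * (VT N r).card ≤ p * (VT N r).card :=
        Nat.mul_le_mul_right _ (Nat.le_of_succ_le hk)
      rw [Nat.add_mul, Nat.one_mul]
      omega
    obtain ⟨f, hf1, hf2, hf3, hf4⟩ := h _ h4
    refine ⟨update F k f, fun i hi => ?_⟩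
    rcases Nat.lt_succ_iff_lt_or_eq.1 hi with hi | rfl
    · obtain ⟨a1, a2, a3, a4, a5⟩ := hF i hi
      rw [update_of_ne hi.ne]
      refine ⟨a1, a2, a3, a4, fun j hj => ?_⟩
      rw [update_of_ne (hj.trans hi).ne]
      exact a5 j hj
    · rw [update_self]
      refine ⟨hf1, hf2, fun v hv hm => hf3 v hv (mem_union_left _ hm), hf4, fun j hj => ?_⟩
      rw [update_of_ne hj.ne]
      intro u hu v hv he
      refine hf3 u hu (mem_union_right _ (mem_biUnion.2 ⟨j, mem_range.2 hj, ?_⟩))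
      exact mem_image.2 ⟨v, hv, he.symm⟩

/-- The parent of a vertex, towards `c 1`. -/
def TpF_par : Lb → Lb
  | .c i => .m (i - 1)
  | .y i => .c i
  | .m i => .c i
  | .a i _ => .c i
  | .z i j => .a i j

/-- The rank of a vertex. -/
def TpF_rk : Lb → ℕ
  | .c i => 2 * i
  | .y i => 2 * i + 1
  | .m i => 2 * i + 1
  | .a i _ => 2 * i + 1
  | .z i _ => 2 * i + 2

lemma TpF_par_root (v : Lb) : isRoot (TpF_par v) = false := by
  cases v <;> rfl

lemma TpF_par_spec {v : Lb} (hv : IsReal N r v) (hc : v ≠ Lb.c 1) :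
    adj N r v (TpF_par v) ∧ TpF_rk (TpF_par v) < TpF_rk v := by
  cases v with
  | c i =>
    have h1 : i ≠ 1 := fun h => hc (by rw [h])
    simp only [IsReal] at hv
    simp only [adj, Ed, TpF_par, TpF_rk, or_false]
    omega
  | y i =>
    simp only [IsReal] at hv
    simp only [adj, Ed, TpF_par, TpF_rk, false_or, true_and]
    omega
  | m i =>
    simp only [IsReal] at hv
    simp only [adj, Ed, TpF_par, TpF_rk, false_or, true_or, true_and]
    omega
  | a i j =>
    simp only [IsReal] at hv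
    simp only [adj, Ed, TpF_par, TpF_rk, false_or, true_and]
    omega
  | z i j =>
    simp only [IsReal] at hv
    simp only [adj, Ed, TpF_par, TpF_rk, or_false, true_and]
    omega

lemma TpF_par_mem {v : Lb} {i : ℕ} (hv : IsReal N r v) (hc : v ≠ Lb.c 1) (hi : i < p) :
    (TpF_par v, i) ∈ TpS N r p :=
  mem_TpS.2 ⟨(adj_real (TpF_par_spec hv hc).1).2, hi, fun h => by
    rw [TpF_par_root] at h
    exact absurd h (by decide)⟩

lemma TpF_cp_mem {v : Lb} {i : ℕ} (hv : IsReal N r v) (hi : i < p) :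
    (v, if isRoot v = true then 0 else i) ∈ TpS N r p :=
  mem_TpS.2 ⟨hv, by
    dsimp only
    split_ifs
    · omega
    · exact hi, fun h => if_pos h⟩

/-- Choose `p` copies one after the other, each avoiding the roots and the earlier copies; send
`(v, i)` to the value of copy `i` at `v`. Two roots are never adjacent. -/
theorem tp_contained {V : Type} [Fintype V] [DecidableEq V] {G : SimpleGraph V}
    (h : Full N r G ((p + 1) * (VT N r).card)) : (Tp N r p).IsContained G := by
  obtain ⟨w, hw, hR⟩ := h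
  obtain ⟨F, hF⟩ := TpF_copies hR p le_rfl
  have hroot : ∀ (v : Lb) (i : ℕ), i < p → isRoot v = true → F i v = w v := fun v i hi hv =>
    (hF i hi).1 v fun h => by
      have := (mem_NR.1 h).2
      rw [hv] at this
      exact absurd this (by decide)
  have key : ∀ x x' : TpS N r p, isRoot x.1.1 = false → adj N r x.1.1 x'.1.1 →
      (x.1.2 = x'.1.2 ∨ isRoot x'.1.1 = true) → G.Adj (F x.1.2 x.1.1) (F x'.1.2 x'.1.1) := by
    intro x x' h1 h2 h3
    have hx := mem_TpS.1 x.2
    have hx' := mem_TpS.1 x'.2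
    have h4 := (hF _ hx.2.1).2.2.2.1 _ (mem_NR.2 ⟨hx.1, h1⟩) _ h2
    rcases h3 with h3 | h3
    · rw [← h3]
      exact h4
    · rw [hroot _ _ hx'.2.1 h3, ← hroot _ _ hx.2.1 h3]
      exact h4
  refine ⟨⟨⟨fun x => F x.1.2 x.1.1, fun {x x'} hxx => ?_⟩, fun x x' he => ?_⟩⟩
  · obtain ⟨h1, h2⟩ := TpF_of_adj hxx
    cases hr : isRoot x.1.1 with
    | true => exact (key x' x (TpF_roots h1 hr) (adj_symm _ _ h1) (Or.inr hr)).symm
    | false =>
      refine key x x' hr h1 ?_
      rcases h2 with h2 | h2 | h2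
      · exact Or.inl h2
      · rw [hr] at h2
        exact absurd h2 (by decide)
      · exact Or.inr h2
  · have he' : F x.1.2 x.1.1 = F x'.1.2 x'.1.1 := he
    have hx := mem_TpS.1 x.2
    have hx' := mem_TpS.1 x'.2
    have mixed : ∀ x x' : TpS N r p, isRoot x.1.1 = true → isRoot x'.1.1 = false →
        F x.1.2 x.1.1 ≠ F x'.1.2 x'.1.1 := by
      intro x x' h1 h2 h3
      have hx := mem_TpS.1 x.2
      have hx' := mem_TpS.1 x'.2
      refine (hF _ hx'.2.1).2.2.1 _ (mem_NR.2 ⟨hx'.1, h2⟩) (mem_image.2 ⟨x.1.1,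
        mem_RT.2 ⟨hx.1, h1⟩, ?_⟩)
      rw [← h3, hroot _ _ hx.2.1 h1]
    cases hr : isRoot x.1.1 with
    | true =>
      cases hr' : isRoot x'.1.1 with
      | true =>
        rw [hroot _ _ hx.2.1 hr, hroot _ _ hx'.2.1 hr'] at he'
        have h1 := hw (mem_coe.2 (mem_RT.2 ⟨hx.1, hr⟩)) (mem_coe.2 (mem_RT.2 ⟨hx'.1, hr'⟩)) he'
        exact Subtype.ext (Prod.ext h1 ((hx.2.2 hr).trans (hx'.2.2 hr').symm))
      | false => exact absurd he' (mixed x x' hr hr')
    | false =>
      cases hr' : isRoot x'.1.1 with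
      | true => exact absurd he'.symm (mixed x' x hr' hr)
      | false =>
        have n1 := mem_NR.2 ⟨hx.1, hr⟩
        have n2 := mem_NR.2 ⟨hx'.1, hr'⟩
        rcases lt_trichotomy x.1.2 x'.1.2 with h1 | h1 | h1
        · exact absurd he'.symm ((hF _ hx'.2.1).2.2.2.2 _ h1 _ n2 _ n1)
        · rw [← h1] at he'
          exact Subtype.ext (Prod.ext ((hF _ hx.2.1).2.1 (mem_coe.2 n1) (mem_coe.2 n2) he') h1)
        · exact absurd he' ((hF _ hx.2.1).2.2.2.2 _ h1 _ n1 _ n2)

lemma tp_card (hp : 1 ≤ p) :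
    Fintype.card (TpS N r p) = p * (NR N r).card + (RT N r).card := by
  have h1 : TpS N r p = NR N r ×ˢ range p ∪ RT N r ×ˢ ({0} : Finset ℕ) := by
    ext x
    simp only [mem_TpS, mem_union, mem_product, mem_NR, mem_RT, mem_range, mem_singleton]
    cases isRoot x.1 with
    | true =>
      constructor
      · rintro ⟨a, _, c⟩
        exact Or.inr ⟨⟨a, rfl⟩, c rfl⟩
      · rintro (⟨⟨_, b⟩, _⟩ | ⟨⟨a, _⟩, c⟩)
        · exact absurd b (by decide)
        · exact ⟨a, by omega, fun _ => c⟩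
    | false =>
      constructor
      · rintro ⟨a, b, _⟩
        exact Or.inl ⟨⟨a, rfl⟩, b⟩
      · rintro (⟨⟨a, _⟩, b⟩ | ⟨⟨_, b⟩, _⟩)
        · exact ⟨a, b, fun h => absurd h (by decide)⟩
        · exact absurd b (by decide)
  have h2 : Disjoint (NR N r ×ˢ range p) (RT N r ×ˢ ({0} : Finset ℕ)) := by
    refine disjoint_left.2 fun x hx hx' => ?_
    have a := (mem_NR.1 (mem_product.1 hx).1).2
    rw [(mem_RT.1 (mem_product.1 hx').1).2] at a
    exact absurd a (by decide)
  rw [Fintype.card_coe, h1, card_union_of_disjoint h2, card_product, card_product, card_range,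
    card_singleton, Nat.mul_one, Nat.mul_comm]

/-- Inject `(VT.erase (c 1)) × range p` into the edges: `(v, i)` goes to the edge between the
copies of `v` and of its parent (towards `c 1`) in copy `i`; one end is a non-root and gives `i`,
the end of larger rank gives `v`. -/
lemma tp_edges (hN : 1 ≤ N) : p * ((VT N r).card - 1) ≤ (Tp N r p).edgeSet.ncard := by
  have hc : Lb.c 1 ∈ VT N r := mem_VT.2 ⟨le_rfl, hN⟩
  set S : Finset (Lb × ℕ) := (VT N r).erase (Lb.c 1) ×ˢ range p with hS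
  have hm : ∀ x : S, IsReal N r x.1.1 ∧ x.1.1 ≠ Lb.c 1 ∧ x.1.2 < p := fun x => by
    have h := mem_product.1 x.2
    exact ⟨mem_VT.1 (mem_of_mem_erase h.1), ne_of_mem_erase h.1, mem_range.1 h.2⟩
  let φ : S → Sym2 (TpS N r p) := fun x =>
    s(⟨_, TpF_cp_mem (hm x).1 (hm x).2.2⟩, ⟨_, TpF_par_mem (hm x).1 (hm x).2.1 (hm x).2.2⟩)
  have h1 : ∀ x ∈ (Set.univ : Set S), φ x ∈ (Tp N r p).edgeSet := fun x _ => by
    refine (SimpleGraph.mem_edgeSet _).2 (TpF_adj (TpF_par_spec (hm x).1 (hm x).2.1).1 ?_)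
    dsimp only
    split_ifs with h
    · exact Or.inr (Or.inl h)
    · exact Or.inl rfl
  have h2 : Set.InjOn φ Set.univ := fun x _ x' _ he => by
    rcases Sym2.eq_iff.1 he with ⟨a, b⟩ | ⟨a, b⟩
    · have a' : x.1.1 = x'.1.1 := congrArg (fun t : TpS N r p => t.1.1) a
      have b' : x.1.2 = x'.1.2 := congrArg (fun t : TpS N r p => t.1.2) b
      exact Subtype.ext (Prod.ext a' b')
    · have a' : x.1.1 = TpF_par x'.1.1 := congrArg (fun t : TpS N r p => t.1.1) a
      have b' : TpF_par x.1.1 = x'.1.1 := congrArg (fun t : TpS N r p => t.1.1) b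
      have c := (TpF_par_spec (hm x).1 (hm x).2.1).2
      have c' := (TpF_par_spec (hm x').1 (hm x').2.1).2
      rw [b'] at c
      rw [← a'] at c'
      omega
  have h3 := Set.ncard_le_ncard_of_injOn φ h1 h2 (Set.toFinite _)
  rw [Set.ncard_univ, Nat.card_eq_fintype_card, Fintype.card_coe, hS, card_product,
    card_erase_of_mem hc, card_range, Nat.mul_comm] at h3
  exact h3

/-- Every vertex is reachable from the root `y 1` (induction on the rank). -/
lemma tp_conn (hN : 1 ≤ N) (hp : 1 ≤ p) : (Tp N r p).Connected := by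
  have hy : (Lb.y 1, 0) ∈ TpS N r p := mem_TpS.2 ⟨⟨le_rfl, hN⟩, hp, fun _ => rfl⟩
  have key : ∀ (n : ℕ) (x : TpS N r p), TpF_rk x.1.1 < n → (Tp N r p).Reachable x ⟨_, hy⟩ := by
    intro n
    induction n with
    | zero => exact fun x hx => absurd hx (Nat.not_lt_zero _)
    | succ n ih =>
      intro x hx
      have hm := mem_TpS.1 x.2
      by_cases hc : x.1.1 = Lb.c 1
      · refine (TpF_adj ?_ (Or.inr (Or.inr rfl))).reachable
        rw [hc]
        exact Or.inl ⟨rfl, le_rfl, hN⟩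
      · have hs := TpF_par_spec hm.1 hc
        have h1 : (Tp N r p).Adj x ⟨_, TpF_par_mem hm.1 hc hm.2.1⟩ := TpF_adj hs.1 (Or.inl rfl)
        refine h1.reachable.trans (ih _ ?_)
        have := hs.2
        dsimp only
        omega
  rw [SimpleGraph.connected_iff_exists_forall_reachable]
  exact ⟨⟨_, hy⟩, fun x => (key _ x (Nat.lt_succ_self _)).symm⟩

lemma tp_col : (Tp N r p).Colorable 2 := by
  have C : (Tp N r p).Coloring Bool := SimpleGraph.Coloring.mk (fun x => isX x.1.1) (by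
    intro x x' h
    rcases (TpF_of_adj h).1 with h | h
    · rw [(ed_side h).1, (ed_side h).2]
      decide
    · rw [(ed_side h).1, (ed_side h).2]
      decide)
  simpa using C.colorable

end Pool.Agent.Work.MP_054302_co.X
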