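import Pool.Agent.Work.MP_054302_co.X.Main
import Pool.Agent.Work.MP_054302_co.X.Regular
import Pool.Agent.Work.MP_054302_co.X.TpF
import Pool.Agent.Work.MP_054302_co.X.Word

namespace Pool.Agent.Work.MP_054302_co.X

open Finset Function
open scoped Classical

/-- `regularise`, then `full_of_regular` for `G'` with the host of all ordered edges of `G'`,
then `tp_contained`. -/
theorem tree_upper (N : ℕ) (r : ℕ → ℕ) (α : ℝ) (hN : 1 ≤ N) (hα : 0 < α) (hα1 : α ≤ 1)
    (hs : Slack N r α) (p : ℕ) : Bnd (Tp N r p) (1 - α) := by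
  obtain ⟨κ0, h0, h1, C0, hC0, hreg⟩ := regularise α hα hα1
  obtain ⟨C, D0, hC, hfull⟩ := full_of_regular N r α hN hα hs ((p + 1) * (VT N r).card) κ0 h0 h1
  refine ⟨C0 + 2 * C + 2 * D0 + 2, by positivity, ?_⟩
  intro V _ G hG
  by_contra hlt
  have hlt := not_le.1 hlt
  have e : (2 : ℝ) - (1 - α) = 1 + α := by ring
  rw [e] at hlt
  have hV : 0 < Fintype.card V := by
    by_contra hV
    have : IsEmpty V := Fintype.card_eq_zero_iff.1 (by omega)
    have h2 : G.edgeSet = ∅ := Set.eq_empty_of_isEmpty _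
    rw [h2, Set.ncard_empty] at hlt
    have : (0 : ℝ) ≤ (C0 + 2 * C + 2 * D0 + 2) * (Fintype.card V : ℝ) ^ (1 + α) := by positivity
    push_cast at hlt
    linarith
  have hD0 : (0 : ℝ) ≤ D0 := Nat.cast_nonneg _
  obtain ⟨G', V', Δ, hle, hne, hdeg, hsup, hmin, hΔ⟩ :=
    hreg (C0 + 2 * C + 2 * D0 + 2) (by linarith) V G hV hlt.le
  have hm : (1 : ℝ) ≤ (V'.card : ℝ) ^ α :=
    Real.one_le_rpow (by exact_mod_cast card_pos.2 hne) hα.le
  have hΔ1 : (D0 : ℝ) + 1 ≤ Δ := by nlinarith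
  have hΔ2 : C * (V'.card : ℝ) ^ α ≤ Δ := by nlinarith
  have hH : Host G' (univ.filter fun q : V × V => G'.Adj q.1 q.2) V' V' (κ0 * Δ) := by
    refine ⟨?_, ?_, ?_, ?_⟩
    · obtain ⟨v, hv⟩ := hne
      have : (0 : ℝ) < (nbr G' v).card := lt_of_lt_of_le (by nlinarith) (hmin v hv)
      obtain ⟨w, hw⟩ := card_pos.1 (by exact_mod_cast this : 0 < (nbr G' v).card)
      exact ⟨(v, w), by simpa using mem_nbr.1 hw⟩
    · intro q hq
      have := (mem_filter.1 hq).2
      exact ⟨this, hsup _ _ this, hsup _ _ this.symm⟩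
    · intro x hx
      have : nbY (univ.filter fun q : V × V => G'.Adj q.1 q.2) x = nbr G' x := by
        ext y; simp [mem_nbY, mem_nbr]
      rw [this]; exact hmin x hx
    · intro y hy
      have : nbX (univ.filter fun q : V × V => G'.Adj q.1 q.2) y = nbr G' y := by
        ext x; simp [mem_nbX, mem_nbr, G'.adj_comm]
      rw [this]; exact hmin y hy
  have hD : D0 ≤ Δ := by
    have : (D0 : ℝ) ≤ Δ := by linarith
    exact_mod_cast this
  exact hG ((tp_contained (hfull V G' Δ V' _ hdeg hH hD hΔ2)).mono_right hle)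

/-- `exists_slack`, `tree_upper`, `tp_card`, `tp_edges`, `card_VT`, `card_NR`, `card_RT`. -/
theorem ok_base (A B p : ℕ) (h1 : 3 * B ≤ 2 * A) (h2 : A < 2 * B) (hp : 1 ≤ p) :
    Ok (p * B + (A + 1 - B)) (p * A) ((B : ℝ) / A) := by
  obtain ⟨N, r, hN, hA, hB, hs⟩ := exists_slack A B h1 h2
  have hA0 : (0 : ℝ) < A := by exact_mod_cast (by omega : 0 < A)
  have hBA : (B : ℝ) < A := by exact_mod_cast (by omega : B < A)
  have hq : (B : ℝ) / A < 1 := (div_lt_one hA0).2 hBA
  have hq0 : (0 : ℝ) ≤ (B : ℝ) / A := by positivity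
  have hb := tree_upper N r _ hN (by linarith) (by linarith) hs p
  have e : (1 : ℝ) - (1 - (B : ℝ) / A) = (B : ℝ) / A := by ring
  rw [e] at hb
  have c1 := card_VT (r := r) hN
  have c2 := card_NR (r := r) hN
  have c3 := card_RT (r := r) hN
  have c4 : (NR N r).card = B := by omega
  have c5 : (RT N r).card = A + 1 - B := by omega
  have c6 : (VT N r).card - 1 = A := by omega
  refine ⟨TpS N r p, inferInstance, Tp N r p, ?_, ?_, ?_, tp_conn hN hp, tp_col, hb⟩
  · rw [tp_card hp, c4, c5]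
  · have : 1 * 1 ≤ p * B := Nat.mul_le_mul hp (by omega)
    omega
  · rw [← c6]; exact tp_edges hN

end Pool.Agent.Work.MP_054302_co.X
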